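import Mathlib

/-!
# The regular open algebra of a preorder
-/

set_option autoImplicit false
set_option linter.unusedVariables false
universe u

namespace Pool.Agent.BPF

/-- The regular open subsets of a preorder: closed downwards, and containing every `α` below which they are
dense. -/
@[ext]
structure RP (A : Type u) [Preorder A] : Type u where
  s : Set A
  down : ∀ α β, β ≤ α → α ∈ s → β ∈ s
  reg : ∀ α, (∀ β ≤ α, ∃ γ ≤ β, γ ∈ s) → α ∈ s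

namespace RP
variable {A : Type u} [Preorder A]

instance : PartialOrder (RP A) where
  le X Y := X.s ⊆ Y.s
  le_refl X := subset_rfl
  le_trans X Y Z h1 h2 := Set.Subset.trans h1 h2
  le_antisymm X Y h1 h2 := RP.ext (Set.Subset.antisymm h1 h2)

theorem le_iff {X Y : RP A} : X ≤ Y ↔ ∀ α, α ∈ X.s → α ∈ Y.s := Iff.rfl

/-- regularization of a set which is closed downwards -/
def cl (s : Set A) (hs : ∀ α β, β ≤ α → α ∈ s → β ∈ s) : RP A where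
  s := {α | ∀ β ≤ α, ∃ γ ≤ β, γ ∈ s}
  down α β h hα := fun γ hγ => hα γ (hγ.trans h)
  reg α h := fun β hβ => by
    obtain ⟨γ, hγ, hγ'⟩ := h β hβ
    obtain ⟨δ, hδ, hδ'⟩ := hγ' γ le_rfl
    exact ⟨δ, hδ.trans hγ, hδ'⟩

instance : Lattice (RP A) where
  inf X Y := ⟨X.s ∩ Y.s, fun α β h hα => ⟨X.down α β h hα.1, Y.down α β h hα.2⟩, fun α h =>
    ⟨X.reg α fun β hβ => let ⟨γ, hγ, h'⟩ := h β hβ; ⟨γ, hγ, h'.1⟩,
     Y.reg α fun β hβ => let ⟨γ, hγ, h'⟩ := h β hβ; ⟨γ, hγ, h'.2⟩⟩⟩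
  inf_le_left X Y := fun α h => h.1
  inf_le_right X Y := fun α h => h.2
  le_inf X Y Z h1 h2 := fun α h => ⟨h1 h, h2 h⟩
  sup X Y := cl (X.s ∪ Y.s) fun α β h hα => hα.imp (X.down α β h) (Y.down α β h)
  le_sup_left X Y := fun α h β hβ => ⟨β, le_rfl, Or.inl (X.down α β hβ h)⟩
  le_sup_right X Y := fun α h β hβ => ⟨β, le_rfl, Or.inr (Y.down α β hβ h)⟩
  sup_le X Y Z h1 h2 := fun α h => Z.reg α fun β hβ =>
    let ⟨γ, hγ, h'⟩ := h β hβ; ⟨γ, hγ, h'.elim (fun h => h1 h) (fun h => h2 h)⟩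

instance : BooleanAlgebra (RP A) :=
  { (inferInstance : Lattice (RP A)) with
    le_sup_inf := by
      rintro X Y Z α ⟨h1, h2⟩ β hβ
      obtain ⟨γ, hγ, h3⟩ := h1 β hβ
      rcases h3 with h3 | h3
      · exact ⟨γ, hγ, Or.inl h3⟩
      · obtain ⟨δ, hδ, h4⟩ := h2 γ (hγ.trans hβ)
        rcases h4 with h4 | h4
        · exact ⟨δ, hδ.trans hγ, Or.inl h4⟩
        · exact ⟨δ, hδ.trans hγ, Or.inr ⟨Y.down γ δ hδ h3, h4⟩⟩
    compl := fun X => ⟨{α | ∀ β ≤ α, β ∉ X.s}, fun α β h hα γ hγ => hα γ (hγ.trans h), fun α h β hβ hβ' => by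
      obtain ⟨γ, hγ, h'⟩ := h β hβ
      exact h' γ le_rfl (X.down β γ hγ hβ')⟩
    top := ⟨Set.univ, fun _ _ _ _ => trivial, fun _ _ => trivial⟩
    bot := ⟨∅, fun _ _ _ h => h, fun α h => by
      obtain ⟨γ, _, h'⟩ := h α le_rfl
      exact h'⟩
    le_top := fun X α _ => trivial
    bot_le := fun X α h => h.elim
    inf_compl_le_bot := by
      rintro X α ⟨h1, h2⟩
      exact h2 α le_rfl h1
    top_le_sup_compl := by
      rintro X α - β hβ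
      by_cases h : ∃ γ ≤ β, γ ∈ X.s
      · obtain ⟨γ, hγ, h'⟩ := h
        exact ⟨γ, hγ, Or.inl h'⟩
      · push Not at h
        exact ⟨β, le_rfl, Or.inr h⟩ }

/-- the supremum -/
def sup' (E : Set (RP A)) : RP A :=
  cl {α | ∃ X ∈ E, α ∈ X.s} fun α β h hα => let ⟨X, hX, h'⟩ := hα; ⟨X, hX, X.down α β h h'⟩

/-- the infimum -/
def inf' (E : Set (RP A)) : RP A :=
  ⟨{α | ∀ X ∈ E, α ∈ X.s}, fun α β h hα X hX => X.down α β h (hα X hX), fun α h X hX =>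
    X.reg α fun β hβ => let ⟨γ, hγ, h'⟩ := h β hβ; ⟨γ, hγ, h' X hX⟩⟩

instance : CompleteBooleanAlgebra (RP A) :=
  { (inferInstance : BooleanAlgebra (RP A)) with
    sSup := sup'
    sInf := inf'
    isLUB_sSup := fun E => ⟨fun X hX α h β hβ => ⟨β, le_rfl, X, hX, X.down α β hβ h⟩,
      fun Y hY α h => Y.reg α fun β hβ => let ⟨γ, hγ, X, hX, h'⟩ := h β hβ; ⟨γ, hγ, hY hX h'⟩⟩
    isGLB_sInf := fun E => ⟨fun X hX α h => h X hX, fun Y hY α h X hX => hY hX h⟩ }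

theorem mem_sSup {E : Set (RP A)} {α : A} :
    α ∈ (sSup E).s ↔ ∀ β ≤ α, ∃ γ ≤ β, ∃ X ∈ E, γ ∈ X.s := Iff.rfl

theorem mem_sInf {E : Set (RP A)} {α : A} : α ∈ (sInf E).s ↔ ∀ X ∈ E, α ∈ X.s := Iff.rfl

theorem mem_inf {X Y : RP A} {α : A} : α ∈ (X ⊓ Y).s ↔ α ∈ X.s ∧ α ∈ Y.s := Iff.rfl

theorem mem_compl {X : RP A} {α : A} : α ∈ (Xᶜ).s ↔ ∀ β ≤ α, β ∉ X.s := Iff.rfl

theorem mem_top {α : A} : α ∈ (⊤ : RP A).s := trivial

theorem not_mem_bot {α : A} : α ∉ (⊥ : RP A).s := fun h => h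

theorem mem_iInf {ι : Sort*} {X : ι → RP A} {α : A} : α ∈ (⨅ i, X i).s ↔ ∀ i, α ∈ (X i).s := by
  unfold iInf
  rw [mem_sInf]
  simp

theorem mem_iSup {ι : Sort*} {X : ι → RP A} {α : A} :
    α ∈ (⨆ i, X i).s ↔ ∀ β ≤ α, ∃ γ ≤ β, ∃ i, γ ∈ (X i).s := by
  unfold iSup
  rw [mem_sSup]
  simp

/-- the regular open set generated by `α` -/
def j (α : A) : RP A := cl {β | β ≤ α} fun _ _ h h' => h.trans h'

theorem mem_j {α β : A} : β ∈ (j α).s ↔ ∀ γ ≤ β, ∃ δ ≤ γ, δ ≤ α := Iff.rfl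

theorem self_mem_j (α : A) : α ∈ (j α).s := fun β hβ => ⟨β, le_rfl, hβ⟩

theorem j_le_iff {α : A} {X : RP A} : j α ≤ X ↔ α ∈ X.s :=
  ⟨fun h => h (self_mem_j α), fun h β hβ => X.reg β fun γ hγ =>
    let ⟨δ, hδ, h'⟩ := hβ γ hγ; ⟨δ, hδ, X.down α δ h' h⟩⟩

theorem j_mono {α β : A} (h : β ≤ α) : j β ≤ j α := j_le_iff.2 fun γ hγ => ⟨γ, le_rfl, hγ.trans h⟩

theorem j_ne_bot (α : A) : j α ≠ ⊥ := fun h => by
  have := self_mem_j α
  rw [h] at this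
  exact this

theorem ne_bot_iff {X : RP A} : X ≠ ⊥ ↔ ∃ α, α ∈ X.s := by
  constructor
  · intro h
    by_contra h'
    push Not at h'
    exact h (le_bot_iff.1 fun α hα => h' α hα)
  · rintro ⟨α, hα⟩ rfl
    exact hα

theorem exists_j_le {X : RP A} (h : X ≠ ⊥) : ∃ α, j α ≤ X := by
  obtain ⟨α, hα⟩ := ne_bot_iff.1 h
  exact ⟨α, j_le_iff.2 hα⟩

theorem j_inf_j_ne_bot {α β : A} (h : j α ⊓ j β ≠ ⊥) : ∃ γ, γ ≤ α ∧ γ ≤ β := by
  obtain ⟨γ, h1, h2⟩ := ne_bot_iff.1 h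
  obtain ⟨δ, hδ, h3⟩ := h1 γ le_rfl
  obtain ⟨ε, hε, h4⟩ := h2 δ hδ
  exact ⟨ε, hε.trans h3, h4⟩

theorem card_le [hA : Nonempty A] : Cardinal.mk (RP A) ≤ 2 ^ Cardinal.mk A := by
  have : Function.Injective (fun X : RP A => X.s) := fun X Y h => RP.ext h
  calc Cardinal.mk (RP A) ≤ Cardinal.mk (Set A) := Cardinal.mk_le_of_injective this
    _ = 2 ^ Cardinal.mk A := Cardinal.mk_set

end RP

end Pool.Agent.BPF
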