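import Pool.Agent.Lib.MP_11349d_lc.P1.Base

/-!
# Part I: existence of codes

PROOF. (1) `mk_fun_le`: every `f : ι → O` has a bound `b` (`hO.bdd (range f)`, as `#(range f) ≤ #ι < #O`), so `(ι → O)`
injects into `Σ b : O, (ι → Iio b)` (choose the bound), and `#(ι → Iio b) < #O`: it is at most `2 ^ (#ι * #(Iio b))`,
or `(#(Iio b))^(#ι) ≤ (2^#(Iio b))^#ι = 2^(#(Iio b) * #ι)`, and `#(Iio b) * #ι < #O` because both are `< #O` and `#O` is
infinite (`Cardinal.mul_lt_of_lt`), so `hO.pow` applies. The sigma type has cardinality at most `#O * #O = #O`.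
(2) `mk_small_le`: the sets `E` with `#E < #O` are contained in some `Iio b`; `#(Set (Iio b)) = 2 ^ #(Iio b) < #O`.
(3) `exists_cds`: all fields are injections between types of cardinality `≤ #O` and `O` (use `Cardinal.mk_le` = existence
of an embedding, `Cardinal.le_def`): `co`: `#Ω < #O`. `cn k`: curry, `(Ω → (Fin k → ℕ) → O) ≃ (Ω × (Fin k → ℕ) → O)`,
`#(Ω × (Fin k → ℕ)) < #O`. `cs`: `Side O Ω O ≃ Ω × (ℕ → O) × (ℕ → O)`. `ct`: as `cn`. `cS`: by (2), choose an injection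
on the subtype and extend it by a constant (`InjOn`). `cc`: `Cnd O Ω O ≃ O × Finset (Ω × Ω × ℕ) × Finset (Side O Ω O)`,
and `#(Finset Y) ≤ max #Y ℵ₀` (`Cardinal.mk_finset_of_infinite`, or `#(Finset Y) ≤ #(List Y)`).
-/

set_option autoImplicit false

namespace Pool.Agent.BPF

open Cardinal

private theorem cde_inf {O : Type} [LinearOrder O] (hO : IsKap O) : ℵ₀ ≤ #O :=
  (aleph0_lt_aleph_one.trans hO.om1).le

private theorem cde_sigma {O : Type} [LinearOrder O] (hO : IsKap O) (F : O → Type)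
    (h : ∀ b, #(F b) ≤ #O) : #(Σ b, F b) ≤ #O := by
  rw [mk_sigma]
  refine (sum_le_sum _ (fun _ => #O) h).trans ?_
  rw [sum_const']
  exact mul_le_of_le (cde_inf hO) le_rfl le_rfl

theorem mk_fun_le {O : Type} [LinearOrder O] (hO : IsKap O) {ι : Type} (hι : #ι < #O) : #(ι → O) ≤ #O := by
  have h1 : ∀ f : ι → O, ∃ b, ∀ i, f i < b := by
    intro f
    obtain ⟨b, hb⟩ := hO.bdd (Set.range f) (lt_of_le_of_lt mk_range_le hι)
    exact ⟨b, fun i => hb _ ⟨i, rfl⟩⟩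
  choose b hb using h1
  have h2 : #(ι → O) ≤ #(Σ b : O, (ι → Set.Iio b)) := by
    refine mk_le_of_injective (f := fun f => ⟨b f, fun i => ⟨f i, hb f i⟩⟩) ?_
    have h3 : Function.LeftInverse (fun (p : Σ b : O, (ι → Set.Iio b)) (i : ι) => (p.2 i).1)
        (fun f => ⟨b f, fun i => ⟨f i, hb f i⟩⟩) := fun f => rfl
    exact h3.injective
  refine h2.trans (cde_sigma hO _ fun b => ?_)
  have h4 : #(ι → Set.Iio b) = #(Set.Iio b) ^ #ι := by rw [← power_def]
  rw [h4]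
  refine (power_le_power_right (cantor _).le).trans ?_
  rw [← power_mul]
  exact (hO.pow _ (mul_lt_of_lt (cde_inf hO) (hO.iio b) hι)).le

theorem mk_small_le {O : Type} [LinearOrder O] (hO : IsKap O) : #{E : Set O // #E < #O} ≤ #O := by
  have h1 : ∀ E : {E : Set O // #E < #O}, ∃ b, ∀ x ∈ E.1, x < b := fun E => hO.bdd E.1 E.2
  choose b hb using h1
  have h2 : #{E : Set O // #E < #O} ≤ #(Σ b : O, Set (Set.Iio b)) := by
    refine mk_le_of_injective (f := fun E => ⟨b E, {x | x.1 ∈ E.1}⟩) ?_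
    intro E E' h
    have h4 : ∀ (E : {E : Set O // #E < #O}) (x : O), x ∈ E.1 ↔
        ∃ h : x < (⟨b E, {x | x.1 ∈ E.1}⟩ : Σ b : O, Set (Set.Iio b)).1,
          (⟨x, h⟩ : Set.Iio _) ∈ (⟨b E, {x | x.1 ∈ E.1}⟩ : Σ b : O, Set (Set.Iio b)).2 := by
      intro E x
      exact ⟨fun hx => ⟨hb E x hx, hx⟩, fun ⟨_, hx⟩ => hx⟩
    apply Subtype.ext
    ext x
    rw [h4 E x, h4 E' x]
    simp only at h
    rw [h]
  refine h2.trans (cde_sigma hO _ fun b => ?_)
  rw [mk_set]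
  exact (hO.pow _ (hO.iio b)).le

private theorem cde_emb {α β : Type} (h : #α ≤ #β) : ∃ f : α → β, Function.Injective f := by
  obtain ⟨f⟩ := (le_def α β).1 h
  exact ⟨f, f.injective⟩

private theorem cde_finset {O Y : Type} (hO : ℵ₀ ≤ #O) (hY : #Y ≤ #O) : #(Finset Y) ≤ #O := by
  have : Infinite O := infinite_iff.2 hO
  obtain ⟨f⟩ := (le_def Y O).1 hY
  refine (mk_le_of_injective (Finset.map_injective f)).trans ?_
  rw [mk_finset_of_infinite]

theorem exists_cds {O Ω : Type} [LinearOrder O] (hO : IsKap O) (hΩ : #Ω < #O) : Nonempty (Cds O Ω) := by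
  have hinf := cde_inf hO
  have hcnt : ∀ α : Type, Countable α → #α < #O := fun α _ =>
    lt_of_le_of_lt mk_le_aleph0 (aleph0_lt_aleph_one.trans hO.om1)
  have hcurry : ∀ α : Type, Countable α → #(Ω → α → O) ≤ #O := by
    intro α hα
    rw [← mk_congr (Equiv.curry Ω α O)]
    refine mk_fun_le hO ?_
    rw [mk_prod, lift_id, lift_id]
    exact mul_lt_of_lt hinf hΩ (hcnt α hα)
  have hN : #(ℕ → O) ≤ #O := mk_fun_le hO (hcnt ℕ inferInstance)
  have hS : #(Side O Ω O) ≤ #O := by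
    have e : Side O Ω O ≃ Ω × (ℕ → O) × (ℕ → O) :=
      ⟨fun x => (x.d, x.N, x.Y), fun p => ⟨p.1, p.2.1, p.2.2⟩, fun _ => rfl, fun _ => rfl⟩
    rw [mk_congr e, mk_prod, mk_prod]
    simp only [lift_id]
    exact mul_le_of_le hinf hΩ.le (mul_le_of_le hinf hN hN)
  have hC : #(Cnd O Ω O) ≤ #O := by
    have e : Cnd O Ω O ≃ O × Finset (Ω × Ω × ℕ) × Finset (Side O Ω O) :=
      ⟨fun x => (x.b, x.w, x.m), fun p => ⟨p.1, p.2.1, p.2.2⟩, fun _ => rfl, fun _ => rfl⟩
    rw [mk_congr e, mk_prod, mk_prod]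
    simp only [lift_id]
    refine mul_le_of_le hinf le_rfl (mul_le_of_le hinf (cde_finset hinf ?_) (cde_finset hinf hS))
    rw [mk_prod, mk_prod]
    simp only [lift_id]
    exact mul_le_of_le hinf hΩ.le (mul_le_of_le hinf hΩ.le (hcnt ℕ inferInstance).le)
  obtain ⟨co, hco⟩ := cde_emb hΩ.le
  have hcn : ∀ k : ℕ, ∃ f : (Ω → (Fin k → ℕ) → O) → O, Function.Injective f := fun k =>
    cde_emb (hcurry _ inferInstance)
  choose cn hcn using hcn
  obtain ⟨cs, hcs⟩ := cde_emb hS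
  obtain ⟨ct, hct⟩ := cde_emb (hcurry ℕ inferInstance)
  obtain ⟨cS, hcS⟩ := cde_emb (mk_small_le hO)
  obtain ⟨cc, hcc⟩ := cde_emb hC
  classical
  have : Nonempty O := ⟨cS ⟨∅, by rw [mk_eq_zero]; exact lt_of_lt_of_le aleph0_pos hinf⟩⟩
  refine ⟨⟨co, cn, cs, ct, fun E => if h : #E < #O then cS ⟨E, h⟩ else Classical.arbitrary O, cc,
    hco, hcn, hcs, hct, ?_, hcc⟩⟩
  intro E hE E' hE' h
  change #E < #O at hE
  change #E' < #O at hE'
  simp only [dif_pos hE, dif_pos hE'] at h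
  exact congrArg Subtype.val (hcS h)

end Pool.Agent.BPF
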