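import Pool.Agent.Lib.MP_11349d_lc.P1.Emb
import Pool.Agent.Lib.MP_11349d_lc.Ifc

/-!
# Extensions of the nonzero elements of a complete Boolean algebra
-/

set_option autoImplicit false
set_option linter.unusedVariables false

namespace Pool.Agent.BPF

open Cardinal

section
variable {Y A : Type} [CompleteBooleanAlgebra Y] [Preorder A]

/-- the projection of an extension -/
theorem PExt.pm (X : PExt {z : Y // z ≠ ⊥} A) : PM (fun α => (X.π α).1) where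
  mono α β h := X.π_mono h
  ne α := (X.π α).2
  lift α x hx h := by
    obtain ⟨b, hb, hb'⟩ := X.proj α ⟨x, hx⟩ h
    exact ⟨b, hb, hb'⟩
  dns x hx := ⟨X.e ⟨x, hx⟩, by rw [X.π_e]⟩

/-- the identity is an extension -/
def PExt.refl (P : Type) [Preorder P] : PExt P P where
  e := id
  π := id
  e_mono h := h
  π_mono h := h
  π_e _ := rfl
  le_e _ := le_rfl
  proj a p h := ⟨p, h, le_rfl⟩

theorem PExt.refl_relProper (P : Type) [Preorder P] : (PExt.refl P).RelProper := by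
  refine ⟨{N | N.Countable}, ⟨fun c hc => hc, fun x hx => ⟨x, hx, subset_rfl⟩, fun c hc _ =>
    Set.countable_iUnion hc⟩, fun N hN p hp q hq hg => ⟨q, hq, le_rfl, ?_⟩⟩
  intro D hD hd r' hr'
  exact hg D (by simpa [PExt.refl] using hD) hd r' hr'

/-- the function given by a realization -/
theorem PExt.Realizes.exists_G {Ω : Type} {X : PExt {z : Y // z ≠ ⊥} A}
    {c : Finset (Ω × Ω) → Y} {b : {z : Y // z ≠ ⊥}} {g : Ω → Ω → Set A}
    (h : X.Realizes (fun s => {p | p.1 ≤ c s}) b g) :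
    ∃ G : Ω → Ω → RP A, (∀ ξ, X.pm.emb b.1 ≤ ⨆ η, G ξ η) ∧
      (∀ ξ η η', η ≠ η' → G ξ η ⊓ G ξ η' = ⊥) ∧
      ∀ s : Finset (Ω × Ω), X.pm.emb b.1 ⊓ ⨅ x ∈ s, G x.1 x.2 ≤ X.pm.emb (c s) := by
  classical
  have hb : ∀ α : A, α ∈ (X.pm.emb b.1).s → α ≤ X.e b := fun α hα =>
    (X.le_e α).trans (X.e_mono hα)
  have hd : ∀ ξ η (α β : A), β ≤ α → α ∈ g ξ η → β ∈ g ξ η := fun ξ η α β h1 h2 =>
    h.down ξ η α β h1 h2
  refine ⟨fun ξ η => X.pm.emb b.1 ⊓ RP.cl (g ξ η) (hd ξ η), fun ξ => ?_, fun ξ η η' hne => ?_,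
    fun s => ?_⟩
  · rw [RP.le_iff]
    intro α hα
    rw [RP.mem_iSup]
    intro β hβ
    have hβb := (X.pm.emb b.1).down α β hβ hα
    obtain ⟨γ, hγ, η, hη⟩ := h.total β (hb β hβb) ξ
    exact ⟨γ, hγ, η, (X.pm.emb b.1).down β γ hγ hβb, fun δ hδ => ⟨δ, le_rfl, hd _ _ _ _ hδ hη⟩⟩
  · rw [← le_bot_iff, RP.le_iff]
    rintro α ⟨⟨h1, h2⟩, h3, h4⟩
    obtain ⟨γ, hγ, h5⟩ := h2 α le_rfl
    obtain ⟨δ, hδ, h6⟩ := h4 γ hγ
    exact hne (h.func δ ((hδ.trans hγ).trans (hb α h1)) ξ η η' (hd _ _ _ _ hδ h5) h6)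
  · rw [RP.le_iff]
    rintro α ⟨h1, h2⟩
    refine (X.pm.emb (c s)).reg α fun β hβ => ?_
    have key : ∀ t : Finset (Ω × Ω), t ⊆ s → ∃ γ ≤ β, ∀ x ∈ t, γ ∈ g x.1 x.2 := by
      intro t
      induction t using Finset.induction_on with
      | empty => exact fun _ => ⟨β, le_rfl, by simp⟩
      | insert x t hx ih =>
        intro hts
        obtain ⟨γ, hγ, hγt⟩ := ih (fun y hy => hts (Finset.mem_insert_of_mem hy))
        have h3 := RP.mem_iInf.1 (RP.mem_iInf.1 h2 x) (hts (Finset.mem_insert_self x t))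
        obtain ⟨δ, hδ, h4⟩ := h3.2 γ (hγ.trans hβ)
        refine ⟨δ, hδ.trans hγ, fun y hy => ?_⟩
        rcases Finset.mem_insert.1 hy with rfl | hy
        · exact h4
        · exact hd _ _ _ _ hδ (hγt y hy)
    obtain ⟨γ, hγ, hγs⟩ := key s subset_rfl
    obtain ⟨δ, hδ, h5⟩ := h.fin γ (hγ.trans (hβ.trans (hb α h1))) s hγs
    exact ⟨δ, hδ.trans hγ, h5⟩

end

section
variable {P P' A : Type} [Preorder P] [Preorder P'] [Preorder A]

/-- transport of an extension -/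
def PExt.congr (φ : P ≃o P') (X : PExt P A) : PExt P' A where
  e p := X.e (φ.symm p)
  π a := φ (X.π a)
  e_mono h := X.e_mono (φ.symm.monotone h)
  π_mono h := φ.monotone (X.π_mono h)
  π_e p := by simp [X.π_e]
  le_e a := by simpa using X.le_e a
  proj a p h := by
    obtain ⟨b, hb, hb'⟩ := X.proj a (φ.symm p) ((φ.symm_apply_le).2 h)
    exact ⟨b, hb, (φ.le_symm_apply).1 hb'⟩

theorem PExt.RelProper.congr (φ : P ≃o P') {X : PExt P A} (h : X.RelProper) :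
    (X.congr φ).RelProper := by
  obtain ⟨C, hC, h⟩ := h
  refine ⟨C, hC, fun N hN p hp q hq hg => ?_⟩
  have key : X.GenB N (φ.symm q) := by
    intro D hD hd q' hq'
    have h1 : (X.congr φ).e '' (φ '' D) = X.e '' D := by
      ext y
      simp [PExt.congr]
    obtain ⟨d, hd1, hd2, x, hx1, hx2⟩ := hg (φ '' D) (by rw [h1]; exact hD) (by
      intro p'
      obtain ⟨d, hd, hd'⟩ := hd (φ.symm p')
      exact ⟨φ d, ⟨d, hd, rfl⟩, (φ.le_symm_apply).1 hd'⟩) (φ q') ((φ.le_symm_apply).1 hq')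
    obtain ⟨d, hd, rfl⟩ := hd1
    exact ⟨d, hd, by simpa [PExt.congr] using hd2, φ.symm x, (φ.symm_apply_le).2 hx1,
      (φ.symm_apply_le).2 hx2⟩
  obtain ⟨r, hr, hr', hr''⟩ := h N hN p hp (φ.symm q) ((φ.symm_apply_le).2 hq) key
  exact ⟨r, hr, (φ.le_symm_apply).1 hr', hr''⟩

theorem PExt.Realizes.congr {Ω : Type} (φ : P ≃o P') {X : PExt P A} {𝒞 : Finset (Ω × Ω) → Set P}
    {𝒞' : Finset (Ω × Ω) → Set P'} {b : P} {b' : P'} {g : Ω → Ω → Set A} (hb : φ b = b')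
    (h𝒞 : ∀ s p, p ∈ 𝒞 s → φ p ∈ 𝒞' s) (h : X.Realizes 𝒞 b g) : (X.congr φ).Realizes 𝒞' b' g := by
  subst hb
  have he : (X.congr φ).e (φ b) = X.e b := by simp [PExt.congr]
  constructor
  · exact h.down
  · rw [he]; exact h.total
  · rw [he]; exact h.func
  · rw [he]
    intro a ha s hs
    obtain ⟨a', ha', h'⟩ := h.fin a ha s hs
    exact ⟨a', ha', h𝒞 s _ h'⟩

theorem HasExt.congr {Ω : Type} (φ : P ≃o P') {𝒞 : Finset (Ω × Ω) → Set P}
    {𝒞' : Finset (Ω × Ω) → Set P'} {b : P} {b' : P'} {A' : Type} (hb : φ b = b')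
    (h𝒞 : ∀ s p, p ∈ 𝒞 s → φ p ∈ 𝒞' s) (h : HasExt P 𝒞 b A') : HasExt P' 𝒞' b' A' := by
  obtain ⟨iA, X, g, h1, h2⟩ := h
  exact ⟨iA, X.congr φ, g, h1.congr φ, h2.congr φ hb h𝒞⟩

end

end Pool.Agent.BPF
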