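import Pool.Agent.Lib.MP_11349d_lc.Defs

/-!
# Consequences of `IsKap O`
-/

set_option autoImplicit false
set_option linter.unusedVariables false

namespace Pool.Agent.BPF

open Cardinal

namespace IsKap
variable {O : Type} [LinearOrder O]

theorem aleph0_le (h : IsKap O) : ℵ₀ ≤ #O :=
  (Cardinal.aleph0_le_aleph 1).trans h.om1.le

theorem mul_lt (h : IsKap O) {a b : Cardinal.{0}} (ha : a < #O) (hb : b < #O) : a * b < #O :=
  Cardinal.mul_lt_of_lt h.aleph0_le ha hb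

theorem add_lt (h : IsKap O) {a b : Cardinal.{0}} (ha : a < #O) (hb : b < #O) : a + b < #O :=
  Cardinal.add_lt_of_lt h.aleph0_le ha hb

theorem nat_lt (h : IsKap O) : ℵ₀ < #O :=
  (Cardinal.aleph0_le_aleph 1).trans_lt h.om1

theorem pow_lt (h : IsKap O) {a b : Cardinal.{0}} (ha : a < #O) (hb : b < #O) : a ^ b < #O := by
  have h1 : a ^ b ≤ 2 ^ (a * b) := by
    calc a ^ b ≤ (2 ^ a) ^ b := Cardinal.power_le_power_right (Cardinal.cantor a).le
      _ = 2 ^ (a * b) := by rw [Cardinal.power_mul]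
  exact h1.trans_lt (h.pow _ (h.mul_lt ha hb))

/-- sets of small cardinality are bounded (the bound is not in the set) -/
theorem range_bdd (h : IsKap O) {ι : Type} (hι : #ι < #O) (f : ι → O) : ∃ b, ∀ i, f i < b := by
  obtain ⟨b, hb⟩ := h.bdd (Set.range f) (Cardinal.mk_range_le.trans_lt hι)
  exact ⟨b, fun i => hb _ ⟨i, rfl⟩⟩

/-- regularity -/
theorem small_sigma (h : IsKap O) {ι : Type} {Y : ι → Type} (hι : #ι < #O) (hY : ∀ i, #(Y i) < #O) :
    #(Σ i, Y i) < #O := by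
  have h1 : ∀ i, ∃ f : Y i → O, Function.Injective f := fun i => by
    obtain ⟨f⟩ := (Cardinal.le_def _ _).1 (hY i).le
    exact ⟨f, f.injective⟩
  choose f hf using h1
  choose b hb using fun i => h.range_bdd (hY i) (f i)
  obtain ⟨c, hc⟩ := h.range_bdd hι b
  have h2 : #(Σ i, Y i) ≤ #(ι × Set.Iio c) := by
    refine Cardinal.mk_le_of_injective (f := fun x : Σ i, Y i =>
      (x.1, (⟨f x.1 x.2, (hb x.1 x.2).trans (hc x.1)⟩ : Set.Iio c))) ?_
    rintro ⟨i, x⟩ ⟨j, y⟩ hxy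
    simp only [Prod.mk.injEq, Subtype.mk.injEq] at hxy
    obtain ⟨rfl, h3⟩ := hxy
    rw [hf i h3]
  refine h2.trans_lt ?_
  rw [Cardinal.mk_prod, Cardinal.lift_id, Cardinal.lift_id]
  exact h.mul_lt hι (h.iio c)

theorem small_iUnion (h : IsKap O) {ι X : Type} {S : ι → Set X} (hι : #ι < #O)
    (hS : ∀ i, #(S i) < #O) : #(⋃ i, S i : Set X) < #O := by
  refine lt_of_le_of_lt ?_ (h.small_sigma hι hS)
  refine Cardinal.mk_le_of_surjective (f := fun x : Σ i, S i =>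
    (⟨x.2.1, Set.mem_iUnion.2 ⟨x.1, x.2.2⟩⟩ : (⋃ i, S i : Set X))) ?_
  rintro ⟨x, hx⟩
  obtain ⟨i, hi⟩ := Set.mem_iUnion.1 hx
  exact ⟨⟨i, x, hi⟩, rfl⟩

theorem iic (h : IsKap O) (a : O) : #(Set.Iic a) < #O := by
  have h1 : Set.Iic a = Set.Iio a ∪ {a} := by
    ext x
    simp [le_iff_lt_or_eq]
  rw [h1]
  refine (Cardinal.mk_union_le _ _).trans_lt (h.add_lt (h.iio a) ?_)
  rw [Cardinal.mk_singleton]
  exact Cardinal.one_lt_aleph0.trans h.nat_lt

theorem exists_gt (h : IsKap O) (a : O) : ∃ b, a < b := by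
  obtain ⟨b, hb⟩ := h.bdd {a} (by
    rw [Cardinal.mk_singleton]
    exact Cardinal.one_lt_aleph0.trans h.nat_lt)
  exact ⟨b, hb a rfl⟩

variable [WellFoundedLT O]

/-- least upper bounds -/
theorem exists_lub (h : IsKap O) (s : Set O) (hs : #s < #O) : ∃ b, IsLUB s b := by
  obtain ⟨b, hb⟩ := h.bdd s hs
  have hne : (upperBounds s).Nonempty := ⟨b, fun x hx => (hb x hx).le⟩
  refine ⟨wellFounded_lt.min _ hne, WellFounded.min_mem _ _ hne, fun c hc => ?_⟩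
  exact not_lt.1 (WellFounded.not_lt_min _ _ hc)

theorem exists_sc (h : IsKap O) (a : O) : ∃ a', Sc a a' := by
  obtain ⟨b, hb⟩ := h.exists_gt a
  have hne : (Set.Ioi a).Nonempty := ⟨b, hb⟩
  refine ⟨wellFounded_lt.min _ hne, WellFounded.min_mem _ _ hne, fun c hc => ?_⟩
  exact not_lt.1 (WellFounded.not_lt_min _ _ hc)

/-- closed levels of uncountable cofinality -/
theorem close_off (h : IsKap O) (F : O → O) (a₀ : O) :
    ∃ a, a₀ < a ∧ (∀ c < a, F c < a) ∧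
      ∀ c : ℕ → O, (∀ n, c n < a) → ∃ d < a, ∀ n, c n ≤ d := by
  classical
  let Ω := (Cardinal.aleph 1).ord.ToType
  have hΩ : #Ω = ℵ₁ := Cardinal.mk_ord_toType _
  have hcnt : ∀ ξ : Ω, (Set.Iio ξ).Countable := by
    intro ξ
    have h1 := Cardinal.mk_Iio_lt (α := Ω) ξ (by rw [hΩ]; simp [Ω])
    rw [hΩ] at h1
    rw [← Cardinal.le_aleph0_iff_set_countable]
    rw [← Order.lt_succ_iff, Cardinal.succ_aleph0]
    exact h1
  have hbd : ∀ s : Set Ω, s.Countable → ∃ ξ, ∀ η ∈ s, η < ξ := by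
    intro s hs
    by_contra h1
    push Not at h1
    have h2 : (Set.univ : Set Ω) ⊆ ⋃ η ∈ s, (Set.Iio η ∪ {η}) := by
      intro ξ _
      obtain ⟨η, hη, h3⟩ := h1 ξ
      rcases lt_or_eq_of_le h3 with h4 | h4
      · exact Set.mem_biUnion hη (Or.inl h4)
      · exact Set.mem_biUnion hη (Or.inr h4)
    have h3 : (Set.univ : Set Ω).Countable :=
      (hs.biUnion fun η _ => (hcnt η).union (Set.countable_singleton η)).mono h2
    rw [← Cardinal.le_aleph0_iff_set_countable, Cardinal.mk_univ, hΩ] at h3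
    exact absurd h3 (not_le.2 Cardinal.aleph0_lt_aleph_one)
  -- the one step closure
  have h1 : ∀ a, ∃ b, a < b ∧ ∀ c ≤ a, F c < b := by
    intro a
    obtain ⟨b, hb⟩ := h.range_bdd (h.iic a) (fun c => F c.1)
    obtain ⟨b', hb'⟩ := h.exists_gt a
    refine ⟨max b b', hb'.trans_le (le_max_right _ _), fun c hc => ?_⟩
    exact (hb ⟨c, hc⟩).trans_le (le_max_left _ _)
  choose Φ hΦ hΦ' using h1
  have h2 : ∀ (ξ : Ω) (g : ∀ η, η < ξ → O), ∃ b, a₀ < b ∧ ∀ η (h : η < ξ), Φ (g η h) < b := by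
    intro ξ g
    have h3 : #(Set.Iio ξ) < #O :=
      ((Cardinal.le_aleph0_iff_set_countable).2 (hcnt ξ)).trans_lt h.nat_lt
    obtain ⟨b, hb⟩ := h.range_bdd h3 (fun η => Φ (g η.1 η.2))
    obtain ⟨b', hb'⟩ := h.exists_gt a₀
    exact ⟨max b b', hb'.trans_le (le_max_right _ _), fun η hη =>
      (hb ⟨η, hη⟩).trans_le (le_max_left _ _)⟩
  choose G₀ hG₀ hG₀' using h2
  let G : Ω → O := (wellFounded_lt (α := Ω)).fix G₀
  have hG : ∀ ξ, G ξ = G₀ ξ (fun η _ => G η) := fun ξ => WellFounded.fix_eq _ _ _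
  have hG1 : ∀ ξ, a₀ < G ξ := fun ξ => by rw [hG]; exact hG₀ _ _
  have hG2 : ∀ ξ η, η < ξ → Φ (G η) < G ξ := fun ξ η hη => by
    rw [hG ξ]; exact hG₀' ξ (fun η _ => G η) η hη
  have hG3 : ∀ ξ η, η < ξ → G η < G ξ := fun ξ η hη => (hΦ _).trans (hG2 ξ η hη)
  have hn : Nonempty Ω := by
    rw [← Cardinal.mk_ne_zero_iff, hΩ]
    exact (Cardinal.aleph_pos 1).ne'
  obtain ⟨ξ₀⟩ := hn
  obtain ⟨a, ha⟩ := h.exists_lub (Set.range G) (Cardinal.mk_range_le.trans_lt (hΩ ▸ h.om1))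
  have ha1 : ∀ ξ, G ξ < a := by
    intro ξ
    obtain ⟨ζ, hζ⟩ := hbd {ξ} (Set.countable_singleton ξ)
    exact (hG3 ζ ξ (hζ ξ rfl)).trans_le (ha.1 ⟨ζ, rfl⟩)
  have ha2 : ∀ c < a, ∃ ξ, c < G ξ := by
    intro c hc
    by_contra h3
    push Not at h3
    exact absurd (ha.2 (by rintro _ ⟨ξ, rfl⟩; exact h3 ξ)) (not_le.2 hc)
  refine ⟨a, (hG1 ξ₀).trans (ha1 ξ₀), fun c hc => ?_, fun c hc => ?_⟩
  · obtain ⟨ξ, hξ⟩ := ha2 c hc
    obtain ⟨ζ, hζ⟩ := hbd {ξ} (Set.countable_singleton ξ)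
    exact ((hΦ' _ c hξ.le).trans (hG2 ζ ξ (hζ ξ rfl))).trans (ha1 ζ)
  · choose ξ hξ using fun n => ha2 (c n) (hc n)
    obtain ⟨ζ, hζ⟩ := hbd (Set.range ξ) (Set.countable_range ξ)
    exact ⟨G ζ, ha1 ζ, fun n => ((hξ n).trans (hG3 ζ (ξ n) (hζ _ ⟨n, rfl⟩))).le⟩

omit [WellFoundedLT O] in
/-- functions from a small set to `O` can be coded by elements of `O` -/
theorem fun_le (h : IsKap O) {X : Type} (hX : #X < #O) : #(X → O) ≤ #O := by
  have h1 : #(X → O) ≤ #(Σ b : O, (X → Set.Iio b)) := by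
    choose b hb using fun f : X → O => h.range_bdd hX f
    refine Cardinal.mk_le_of_injective (f := fun f : X → O =>
      (⟨b f, fun x => ⟨f x, hb f x⟩⟩ : Σ b : O, (X → Set.Iio b))) ?_
    intro f g hfg
    have h2 : ∀ (p q : Σ b : O, (X → Set.Iio b)), p = q → ∀ x, (p.2 x).1 = (q.2 x).1 := by
      rintro p q rfl x
      rfl
    funext x
    exact h2 _ _ hfg x
  refine h1.trans ?_
  rw [Cardinal.mk_sigma]
  calc Cardinal.sum (fun b : O => #(X → Set.Iio b)) ≤ Cardinal.sum (fun _ : O => #O) := by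
        refine Cardinal.sum_le_sum _ _ fun b => ?_
        rw [← Cardinal.power_def]
        exact (h.pow_lt (h.iio b) hX).le
    _ = #O * #O := by rw [Cardinal.sum_const, Cardinal.lift_id]
    _ = #O := Cardinal.mul_eq_self h.aleph0_le

end IsKap

end Pool.Agent.BPF
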