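import Pool.Agent.Lib.MP_11349d_lc.P1.Emb
import Pool.Agent.Lib.MP_11349d_lc.P1.Kap
import Pool.Agent.Lib.MP_11349d_lc.I.Cl

/-!
# Relative properness in terms of Boolean algebras
-/

set_option autoImplicit false
set_option linter.unusedVariables false

namespace Pool.Agent.BPF

open Cardinal Pool.Agent.CSI Filter

/-- clubs in the sense of `IsClub` belong to the club filter -/
theorem ev_of_isClubP {U : Type} {C : Set (Set U)} (hC : IsClub C) : ∀ᶠ N in clubF U, N ∈ C := by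
  choose! g hgC hg using hC.unb
  let F : List U → Set U := fun l => l.rec (g ∅) (fun a _ ih => g ({a} ∪ ih))
  have hF0 : F [] = g ∅ := rfl
  have hF1 : ∀ a l, F (a :: l) = g ({a} ∪ F l) := fun a l => rfl
  have hFC : ∀ l, F l ∈ C := by
    intro l
    induction l with
    | nil => exact hgC _ Set.countable_empty
    | cons a l ih => exact hgC _ ((Set.countable_singleton a).union (hC.cnt _ ih))
  have hF2 : ∀ a l, {a} ∪ F l ⊆ F (a :: l) := fun a l =>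
    hg _ ((Set.countable_singleton a).union (hC.cnt _ (hFC l)))
  refine ev_iff.2 ⟨F, fun l => hC.cnt _ (hFC l), fun M hM => ?_⟩
  rcases Set.eq_empty_or_nonempty M with h | h
  · have h1 : F [] ⊆ M := hM.2 [] (by simp)
    rw [h] at h1 ⊢
    rw [← Set.subset_empty_iff.1 h1]
    exact hFC []
  · obtain ⟨e, he⟩ := hM.1.exists_eq_range h
    let l : ℕ → List U := fun n => n.rec [] (fun n ih => e n :: ih)
    have hl0 : l 0 = [] := rfl
    have hl1 : ∀ n, l (n + 1) = e n :: l n := fun n => rfl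
    have hlM : ∀ n, ∀ x ∈ l n, x ∈ M := by
      intro n
      induction n with
      | zero => rw [hl0]; simp
      | succ n ih =>
        rw [hl1]
        intro x hx
        rcases List.mem_cons.1 hx with rfl | hx
        · rw [he]; exact ⟨n, rfl⟩
        · exact ih x hx
    have h1 : (⋃ n, F (l n)) = M := by
      apply Set.Subset.antisymm
      · exact Set.iUnion_subset fun n => hM.2 _ (hlM n)
      · intro x hx
        rw [he] at hx
        obtain ⟨n, rfl⟩ := hx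
        refine Set.mem_iUnion.2 ⟨n + 1, ?_⟩
        rw [hl1]
        exact hF2 _ _ (Or.inl rfl)
    rw [← h1]
    refine hC.cls _ (fun n => hFC _) fun n => ?_
    rw [hl1]
    exact Set.subset_union_right.trans (hF2 _ _)

theorem ne_bot_of_not_le {B : Type} [CompleteBooleanAlgebra B] {x y : B} (h : ¬ x ≤ y) :
    x ⊓ yᶜ ≠ ⊥ := by
  intro h1
  rw [← disjoint_iff, ← le_compl_iff_disjoint_right, compl_compl] at h1
  exact h h1

theorem exists_of_le_sSup {B : Type} [CompleteBooleanAlgebra B] {x : B} {E : Set B} (hx : x ≠ ⊥)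
    (h : x ≤ sSup E) : ∃ e ∈ E, x ⊓ e ≠ ⊥ := by
  by_contra h1
  push Not at h1
  apply hx
  rw [← inf_eq_left.2 h, inf_sSup_eq]
  simp only [iSup_eq_bot]
  exact h1

theorem prp_abs {O : Type} [LinearOrder O] (hO : IsKap O) {B Y A : Type} [CompleteBooleanAlgebra B]
    [CompleteBooleanAlgebra Y] [Preorder A] (i : Y → B) (i' : RP A → B) (hi : CEmb i) (hi' : CEmb i')
    (X : PExt {z : Y // z ≠ ⊥} A) (hX : X.RelProper)
    (hij : ∀ (α : A) (z : Y), i' (RP.j α) ≤ i z ↔ (X.π α).1 ≤ z) (hA : #A < #O)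
    (hS' : #(Set.range i') < #O) (hS : #(Set.range i) < #O)
    (cb : B → O) (hcb : Function.Injective cb) (cS : Set B → O)
    (hcS : Set.InjOn cS {E | #E < #O}) :
    ∀ᶠ M in clubF O, ∀ p ∈ Set.range i', cb p ∈ M → ∀ q ∈ Set.range i,
      q ≠ ⊥ → q ≤ sInf {c | c ∈ Set.range i ∧ p ≤ c} →
      (∀ E ⊆ Set.range i, cS E ∈ M → q ⊓ sSup E ≤ sSup {e | e ∈ E ∧ cb e ∈ M}) →
      ∃ r ∈ Set.range i', r ≠ ⊥ ∧ r ≤ p ∧ r ≤ q ∧
        ∀ E ⊆ Set.range i', cS E ∈ M → r ⊓ sSup E ≤ sSup {e | e ∈ E ∧ cb e ∈ M} := by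
  classical
  obtain ⟨C, hC, hN⟩ := hX
  -- codes of elements and subsets of `A`
  have hcard : #(A ⊕ Set A) ≤ #O := by
    rw [Cardinal.mk_sum, Cardinal.lift_id, Cardinal.lift_id, Cardinal.mk_set]
    exact (hO.add_lt hA (hO.pow _ hA)).le
  obtain ⟨⟨γ, hγ⟩⟩ := (Cardinal.le_def _ _).1 hcard
  have hje : ∀ z : {z : Y // z ≠ ⊥}, X.π (X.e z) = z := X.π_e
  have hXe : Function.Injective X.e := fun z w h => by rw [← hje z, ← hje w, h]
  -- the closure properties of `M`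
  have e1 := ev_preimage hγ (ev_of_isClubP hC)
  have e2 := ev_f1 hcb cS (fun p => {x | ∃ α : A, i' (RP.j α) ≤ p ∧ x = i (X.π α).1})
  have e3 := ev_r2 hcb hcb (fun α : A => γ (Sum.inl α))
    (fun p x α => i' (RP.j α) ≤ p ∧ x = i (X.π α).1)
  have e4 := ev_f1 hγ cS (fun s : A ⊕ Set A => s.elim (fun _ => (∅ : Set B))
    (fun D => {x | ∃ z : {z : Y // z ≠ ⊥}, X.e z ∈ D ∧ x = i z.1}))
  have e5 := ev_r1 hcb (fun z : {z : Y // z ≠ ⊥} => γ (Sum.inl (X.e z))) (fun x z => x = i z.1)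
  have e6 := ev_fun hcS γ (fun E => Sum.inr {d : A | (∃ e ∈ E, i' (RP.j d) ≤ e) ∨
    i' (RP.j d) ⊓ sSup E = ⊥})
  have e7 : ∀ᶠ M in clubF O, ∀ E ∈ {E : Set B | #E < #O}, cS E ∈ M →
      ∀ d : A, γ (Sum.inl d) ∈ M → (∃ e, e ∈ E ∧ i' (RP.j d) ≤ e) →
        ∃ e, (e ∈ E ∧ i' (RP.j d) ≤ e) ∧ cb e ∈ M := by
    refine ev_normalOn hcS fun E hE => ?_
    exact ev_r1 (c := fun d : A => γ (Sum.inl d)) (fun a b h => Sum.inl_injective (hγ h)) cb
      (fun d e => e ∈ E ∧ i' (RP.j d) ≤ e)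
  filter_upwards [e1, e2, e3, e4, e5, e6, e7] with M m1 m2 m3 m4 m5 m6 m7
  rintro p ⟨p', rfl⟩ hpM q ⟨q₀, rfl⟩ hq hqp hqM
  set Ep : Set B := {x | ∃ α : A, i' (RP.j α) ≤ i' p' ∧ x = i (X.π α).1} with hEp
  have hEpr : Ep ⊆ Set.range i := by rintro _ ⟨α, _, rfl⟩; exact ⟨_, rfl⟩
  -- `p` is below the supremum of `Ep`
  have h1 : i' p' ≤ sSup Ep := by
    have h2 : p' = sSup {x | ∃ α, x = RP.j α ∧ RP.j α ≤ p'} := by
      apply le_antisymm
      · intro α hα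
        rw [← RP.j_le_iff] at hα ⊢
        exact le_sSup ⟨α, rfl, hα⟩
      · exact sSup_le (by rintro _ ⟨α, rfl, h⟩; exact h)
    rw [h2, hi'.sup]
    refine sSup_le ?_
    rintro _ ⟨_, ⟨α, rfl, hα⟩, rfl⟩
    exact ((hij α _).2 le_rfl).trans (le_sSup ⟨α, hi'.mono hα, rfl⟩)
  have h2 : sInf {c | c ∈ Set.range i ∧ i' p' ≤ c} ≤ sSup Ep := by
    refine sInf_le ⟨⟨sSup (i ⁻¹' Ep), ?_⟩, h1⟩
    rw [hi.sup, Set.image_preimage_eq_of_subset hEpr]
  have h3 : i q₀ ≤ sSup {e | e ∈ Ep ∧ cb e ∈ M} := by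
    have := hqM Ep hEpr (m2 _ hpM)
    rwa [inf_eq_left.2 (hqp.trans h2)] at this
  obtain ⟨x, ⟨⟨α₀, hα₀, hx⟩, hxM⟩, h4⟩ := exists_of_le_sSup hq h3
  obtain ⟨α, ⟨hα, hx'⟩, hαM⟩ := m3 _ hpM x hxM ⟨α₀, hα₀, hx⟩
  have h5 : q₀ ⊓ (X.π α).1 ≠ ⊥ := by
    intro h
    apply h4
    rw [hx', ← hi.inf2, h, hi.bot]
  -- the condition of `P` given by `q`
  obtain ⟨r, hr1, hr2, hr3⟩ := hN _ m1 α hαM ⟨q₀ ⊓ (X.π α).1, h5⟩
    (show (⟨q₀ ⊓ (X.π α).1, h5⟩ : {z : Y // z ≠ ⊥}) ≤ X.π α from inf_le_right) (by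
      intro D hD hDd q' hq'
      have hDM := m4 _ hD
      simp only [Sum.elim_inr] at hDM
      set E : Set B := {x | ∃ z : {z : Y // z ≠ ⊥}, X.e z ∈ X.e '' D ∧ x = i z.1} with hE
      have hEr : E ⊆ Set.range i := by rintro _ ⟨z, _, rfl⟩; exact ⟨_, rfl⟩
      have hq'q : i q'.1 ≤ i q₀ := hi.mono ((show q'.1 ≤ q₀ ⊓ (X.π α).1 from hq').trans inf_le_left)
      have htop : i q'.1 ≤ sSup E := by
        by_contra hcon
        have h6 : sSup E = i (sSup (i ⁻¹' E)) := by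
          rw [hi.sup, Set.image_preimage_eq_of_subset hEr]
        have h7 : q'.1 ⊓ (sSup (i ⁻¹' E))ᶜ ≠ ⊥ := by
          refine ne_bot_of_not_le fun h => hcon ?_
          rw [h6]
          exact hi.mono h
        obtain ⟨d, hd, hd'⟩ := hDd ⟨_, h7⟩
        have h8 : d.1 ≤ sSup (i ⁻¹' E) := le_sSup ⟨d, ⟨d, hd, rfl⟩, rfl⟩
        have h9 : d.1 ≤ (sSup (i ⁻¹' E))ᶜ := (show d.1 ≤ _ from hd').trans inf_le_right
        exact d.2 (le_bot_iff.1 ((le_inf h8 h9).trans (inf_compl_self _).le))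
      have h6 : i q'.1 ≤ sSup {e | e ∈ E ∧ cb e ∈ M} :=
        (le_inf hq'q htop).trans (hqM E hEr hDM)
      have hq'ne : i q'.1 ≠ ⊥ := fun h => q'.2 (hi.eq_bot.1 h)
      obtain ⟨e, ⟨⟨z, ⟨z', hz', hzz'⟩, rfl⟩, heM⟩, h7⟩ := exists_of_le_sSup hq'ne h6
      have hzz : z' = z := hXe hzz'
      subst hzz
      obtain ⟨w, hw, hwM⟩ := m5 _ heM ⟨z', rfl⟩
      have hwz : w = z' := Subtype.ext (hi.inj hw.symm)
      subst hwz
      refine ⟨w, hz', hwM, ⟨⟨q'.1 ⊓ w.1, ?_⟩, inf_le_right, inf_le_left⟩⟩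
      intro h
      apply h7
      rw [← hi.inf2, h, hi.bot])
  refine ⟨i' (RP.j r), ⟨_, rfl⟩, ?_, (hi'.mono (RP.j_mono hr1)).trans hα, ?_, ?_⟩
  · intro h
    exact RP.j_ne_bot r (hi'.eq_bot.1 h)
  · rw [hij]
    exact (show (X.π r).1 ≤ q₀ ⊓ (X.π α).1 from hr2).trans inf_le_left
  -- genericity
  intro E hE hEM
  have hEs : E ∈ {E : Set B | #E < #O} := (Cardinal.mk_le_mk_of_subset hE).trans_lt hS'
  set u : B := sSup {e | e ∈ E ∧ cb e ∈ M} with hu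
  by_contra hcon
  have h6 : sSup E = i' (sSup (i' ⁻¹' E)) := by
    rw [hi'.sup, Set.image_preimage_eq_of_subset hE]
  have h7 : u = i' (sSup (i' ⁻¹' {e | e ∈ E ∧ cb e ∈ M})) := by
    rw [hi'.sup, Set.image_preimage_eq_of_subset fun e he => hE he.1]
  have h8 : RP.j r ⊓ sSup (i' ⁻¹' E) ⊓ (sSup (i' ⁻¹' {e | e ∈ E ∧ cb e ∈ M}))ᶜ ≠ ⊥ := by
    refine ne_bot_of_not_le fun h => hcon ?_
    rw [h6, h7, ← hi'.inf2]
    exact hi'.mono h
  obtain ⟨β, hβ⟩ := RP.exists_j_le h8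
  obtain ⟨r', hr'β, hr'r⟩ := (RP.j_le_iff.1 ((hβ.trans inf_le_left).trans inf_le_left)) β le_rfl
  have h9 : RP.j r' ≤ _ := (RP.j_mono hr'β).trans hβ
  have h10 : i' (RP.j r') ≤ sSup E := by
    rw [h6]
    exact hi'.mono ((h9.trans inf_le_left).trans inf_le_right)
  have h11 : i' (RP.j r') ≤ uᶜ := by
    rw [h7, ← hi'.cmp]
    exact hi'.mono (h9.trans inf_le_right)
  have h12 : Dns {d : A | (∃ e ∈ E, i' (RP.j d) ≤ e) ∨ i' (RP.j d) ⊓ sSup E = ⊥} := by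
    intro a
    by_cases h : i' (RP.j a) ⊓ sSup E = ⊥
    · exact ⟨a, Or.inr h, le_rfl⟩
    · obtain ⟨e, he, h13⟩ := exists_of_le_sSup h inf_le_right
      obtain ⟨e', rfl⟩ := hE he
      have h14 : RP.j a ⊓ e' ≠ ⊥ := by
        intro h15
        apply h13
        rw [← le_bot_iff, ← hi'.bot, ← h15, hi'.inf2]
        exact inf_le_inf_right _ inf_le_left
      obtain ⟨β', hβ'⟩ := RP.exists_j_le h14
      obtain ⟨d, hd1, hd2⟩ := (RP.j_le_iff.1 (hβ'.trans inf_le_left)) β' le_rfl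
      refine ⟨d, Or.inl ⟨_, he, hi'.mono ((RP.j_mono hd1).trans (hβ'.trans inf_le_right))⟩, hd2⟩
  obtain ⟨d, hd, hdM, ⟨y, hyd, hyr⟩⟩ := hr3 _ (m6 E hEs hEM) h12 r' hr'r
  have hyne : i' (RP.j y) ≠ ⊥ := fun h => RP.j_ne_bot y (hi'.eq_bot.1 h)
  have hyd' : i' (RP.j y) ≤ i' (RP.j d) := hi'.mono (RP.j_mono hyd)
  have hyr' : i' (RP.j y) ≤ i' (RP.j r') := hi'.mono (RP.j_mono hyr)
  rcases hd with ⟨e, he, hde⟩ | hd
  · obtain ⟨e', ⟨he', hde'⟩, heM'⟩ := m7 E hEs hEM d hdM ⟨e, he, hde⟩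
    have h13 : i' (RP.j y) ≤ u := (hyd'.trans hde').trans (le_sSup ⟨he', heM'⟩)
    exact hyne (le_bot_iff.1 ((le_inf h13 (hyr'.trans h11)).trans (inf_compl_self _).le))
  · exact hyne (le_bot_iff.1 ((le_inf hyd' (hyr'.trans h10)).trans hd.le))

end Pool.Agent.BPF
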