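import Pool.Agent.Lib.MP_11349d_lc.P1.Fa
import Pool.Agent.Lib.MP_11349d_lc.P1.PrpA
import Pool.Agent.Lib.MP_11349d_lc.P1.BkA

/-!
# Part I: the fields of `Flt` about the other stages

PROOFS. Let `¬ Lm a`, `a' = nx a` (`sc_eq`). `qx`: `(hf (nx a)).qst a (sc_nx hO a) ha` with `tr (nx a) f a = f a`.
`f_prp`: `qx` gives `A, X, #A < #O, X.RelProper, h, φ`. Apply `prp_abs` with `Y = El (f a).C`, `i = t.E a`, `i' = t.E a' ∘ φ`
(`CEmb.comp`, `CEmb.of_iso`), `cb = t.cb`, `cS E = cd.cS (t.cb '' E)` (`InjOn` small sets: `t.inj`, `Set.image_injective`,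
`#(t.cb '' E) = #E`); `hij`: `t.E a' (φ (RP.j α)) ≤ t.E a z = t.E a' (inc h z)` iff `RP.j α ≤ φ.symm (inc h z)` iff
`(X.π α).1 ≤ z` (`RP.j_le_iff`, last clause of `QX`). `range i = S a`, `range i' = S a'` by `mem_S` (`φ` is onto); `pr` is by
definition the infimum in `prp_abs`; `fSmall`.
`f_bk`: choose by `hbk` an `a ≥ g`, `¬ Lm a`, `bk a = P := (fun s => t.cb (c s), t.cb b)`. If all `c s ∈ S a`, `b ∈ S a`, then
`hc : ∀ s, P.1 s ∈ (f a).C`, `hb : P.2 ∈ (f a).C`. `{x : B // x ∈ S a ∧ x ≠ ⊥}` is order isomorphic to `Ps (f a)` by `t.E a`; the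
hypothesis `HasExt ..` is transported to `HasExt (Ps (f a)) (patS (f a) P hc) ⟨⟨P.2, hb⟩, _⟩ A` (`HasExt.congr`). So by `QX` (with
`bk a = P`: `subst` or `rw` first) `X` realizes by some `g0`; `Realizes.exists_G` gives `G : Ω → Ω → RP A`;
`G' ξ η = t.E a' (φ (G ξ η))`. `X.pm.emb z = φ.symm (inc h z)` (both consist of the `α` with `(X.π α).1 ≤ z`), so
`t.E a' (φ (X.pm.emb z)) = t.E a z`; and `t.E a ⟨t.cb b, hb⟩ = b` by `t.inj`, `t.cbE`. Apply the complete embedding `t.E a' ∘ φ`.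
-/

set_option autoImplicit false

namespace Pool.Agent.BPF

open Cardinal Pool.Agent.CSI

variable {O Ω : Type} [LinearOrder O] [WellFoundedLT O] [OrderBot O] [LinearOrder Ω] [WellFoundedLT Ω]
  [OrderBot Ω] {T : LTree Ω} {cd : Cds O Ω} {bk : O → Pat Ω O} {f : O → Stt O Ω} {B : Type}
  [CompleteBooleanAlgebra B]

theorem qx (hO : IsKap O) (hf : ∀ a, Ok T cd bk f a) {a : O} (ha : ¬ Lm a) : QX (bk a) (f a) (f (nx a)) := by
  have h := (hf (nx a)).qst a (sc_nx hO a) ha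
  rwa [tr_of_lt f (lt_nx hO a)] at h

theorem cSB_inj (t : Tp f B) : Set.InjOn (fun E : Set B => cd.cS (t.cb '' E)) {E | #E < #O} := by
  intro E hE E' hE' h
  have h1 : ∀ E : Set B, E ∈ {E : Set B | #E < #O} → t.cb '' E ∈ {E : Set O | #E < #O} :=
    fun E hE => Cardinal.mk_image_le.trans_lt hE
  exact Set.image_injective.2 t.inj (cd.cS_inj (h1 E hE) (h1 E' hE') h)

theorem f_prp (hO : IsKap O) (hf : ∀ a, Ok T cd bk f a) (t : Tp f B) (a a' : O) (ha : ¬ Lm a)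
    (hs : Sc a a') : ∀ᶠ M in clubF O, ∀ p ∈ (datB cd t.cb f).S a', t.cb p ∈ M →
      ∀ q ∈ (datB cd t.cb f).S a, q ≠ ⊥ → q ≤ pr (datB cd t.cb f) a p →
      (∀ E ⊆ (datB cd t.cb f).S a, cd.cS (t.cb '' E) ∈ M → q ⊓ sSup E ≤ sSup {e | e ∈ E ∧ t.cb e ∈ M}) →
      ∃ r ∈ (datB cd t.cb f).S a', r ≠ ⊥ ∧ r ≤ p ∧ r ≤ q ∧
        ∀ E ⊆ (datB cd t.cb f).S a', cd.cS (t.cb '' E) ∈ M → r ⊓ sSup E ≤ sSup {e | e ∈ E ∧ t.cb e ∈ M} := by
  obtain ⟨A, iA, X, hA, hX, -, h, φ, hφ⟩ := qx hO hf ha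
  obtain rfl : a' = nx a := sc_eq hO hs
  have hSa : (datB cd t.cb f).S a = Set.range (t.E a) := Set.ext (mem_S t a)
  have hSa' : (datB cd t.cb f).S (nx a) = Set.range (t.E (nx a) ∘ φ) := by
    rw [φ.surjective.range_comp]
    exact Set.ext (mem_S t (nx a))
  have h1 := fSmall hf t a
  have h2 := fSmall hf t (nx a)
  rw [hSa] at h1
  rw [hSa'] at h2
  have key := prp_abs hO (t.E a) (t.E (nx a) ∘ φ) (t.ce a) ((t.ce (nx a)).comp (CEmb.of_iso φ)) X hX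
    (fun α z => by
      rw [← t.cp a (nx a) h z (lt_nx hO a).le, Function.comp_apply, (t.ce (nx a)).le_iff,
        ← φ.le_symm_apply, RP.j_le_iff]
      exact hφ z α) hA h2 h1 t.cb t.inj (fun E => cd.cS (t.cb '' E)) (cSB_inj t)
  unfold pr
  rw [hSa, hSa']
  exact key

theorem f_bk (hO : IsKap O) (hbk : ∀ (P : Pat Ω O) (g : O), ∃ a, g ≤ a ∧ ¬ Lm a ∧ bk a = P)
    (hf : ∀ a, Ok T cd bk f a) (t : Tp f B) (c : Finset (Ω × Ω) → B) (b : B) (g : O) (hb : b ≠ ⊥) :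
    ∃ a, g ≤ a ∧ ¬ Lm a ∧
      ((∀ s, c s ∈ (datB cd t.cb f).S a) → ∀ hb : b ∈ (datB cd t.cb f).S a, ∀ hne : b ≠ ⊥,
        (∃ A, HasExt {x : B // x ∈ (datB cd t.cb f).S a ∧ x ≠ ⊥} (fun s => {p | p.1 ≤ c s})
          ⟨b, hb, hne⟩ A) →
        ∃ G : Ω → Ω → B, (∀ ξ, b ≤ ⨆ η, G ξ η) ∧ (∀ ξ η η', η ≠ η' → G ξ η ⊓ G ξ η' = ⊥) ∧
          ∀ s : Finset (Ω × Ω), b ⊓ ⨅ x ∈ s, G x.1 x.2 ≤ c s) := by
  classical
  obtain ⟨a, hga, hla, hP⟩ := hbk (fun s => t.cb (c s), t.cb b) g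
  refine ⟨a, hga, hla, ?_⟩
  rintro hc hbS hne ⟨A', hA'⟩
  obtain ⟨A, iA, X, hA, hX, hre, h, φ, hφ⟩ := qx hO hf hla
  rw [hP] at hre
  have hc' : ∀ s, t.cb (c s) ∈ (f a).C := hc
  have hb' : t.cb b ∈ (f a).C := hbS
  have hcE : ∀ s, t.E a ⟨t.cb (c s), hc' s⟩ = c s := fun s => t.inj (t.cbE a _)
  have hbE : t.E a ⟨t.cb b, hb'⟩ = b := t.inj (t.cbE a _)
  have hne' : (⟨t.cb b, hb'⟩ : El (f a).C) ≠ ⊥ := by
    intro h0
    apply hne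
    rw [← hbE, h0, (t.ce a).bot]
  let ψ0 : Ps (f a) → {x : B // x ∈ (datB cd t.cb f).S a ∧ x ≠ ⊥} := fun z =>
    ⟨t.E a z.1, (mem_S t a _).2 ⟨z.1, rfl⟩, fun h0 => z.2 ((t.ce a).eq_bot.1 h0)⟩
  have hψ0 : Function.Bijective ψ0 := by
    constructor
    · intro z w hzw
      exact Subtype.ext ((t.ce a).inj (congrArg Subtype.val hzw))
    · rintro ⟨x, hx, hx0⟩
      obtain ⟨y, rfl⟩ := (mem_S t a x).1 hx
      exact ⟨⟨y, fun h0 => hx0 (by rw [h0, (t.ce a).bot])⟩, rfl⟩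
  let ψ : Ps (f a) ≃o {x : B // x ∈ (datB cd t.cb f).S a ∧ x ≠ ⊥} :=
    { toEquiv := Equiv.ofBijective ψ0 hψ0
      map_rel_iff' := fun {z w} => (t.ce a).le_iff }
  have hψ : ∀ z : Ps (f a), (ψ z).1 = t.E a z.1 := fun z => rfl
  have hA'' : HasExt (Ps (f a)) (patS (f a) (fun s => t.cb (c s), t.cb b) hc')
      ⟨⟨t.cb b, hb'⟩, hne'⟩ A' := by
    refine HasExt.congr ψ.symm ?_ ?_ hA'
    · rw [ψ.symm_apply_eq]
      exact Subtype.ext hbE.symm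
    · intro s p hp
      show (ψ.symm p).1 ≤ (⟨t.cb (c s), hc' s⟩ : El (f a).C)
      rw [← (t.ce a).le_iff, hcE, ← hψ, ψ.apply_symm_apply]
      exact hp
  obtain ⟨g0, hg0⟩ := hre hc' hb' hne' ⟨A', hA''⟩
  obtain ⟨G, hG1, hG2, hG3⟩ :=
    PExt.Realizes.exists_G (c := fun s => (⟨t.cb (c s), hc' s⟩ : El (f a).C)) hg0
  have hΦ : CEmb (t.E (nx a) ∘ φ) := (t.ce (nx a)).comp (CEmb.of_iso φ)
  have hemb : ∀ z : El (f a).C, (t.E (nx a) ∘ φ) (X.pm.emb z) = t.E a z := by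
    intro z
    have h1 : X.pm.emb z = φ.symm (inc h z) := by
      apply RP.ext
      ext α
      exact (hφ z α).symm
    rw [h1, Function.comp_apply, φ.apply_symm_apply]
    exact t.cp a (nx a) h z (lt_nx hO a).le
  refine ⟨fun ξ η => (t.E (nx a) ∘ φ) (G ξ η), fun ξ => ?_, fun ξ η η' hηη => ?_, fun s => ?_⟩
  · have h1 := hΦ.mono (hG1 ξ)
    rw [hemb, hΦ.iSup, hbE] at h1
    exact h1
  · rw [← hΦ.inf2, hG2 ξ η η' hηη, hΦ.bot]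
  · have h1 := hΦ.mono (hG3 s)
    rw [hemb, hΦ.inf2, hemb, hbE, hcE, hΦ.iInf] at h1
    simp only [hΦ.iInf] at h1
    exact h1

end Pool.Agent.BPF
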