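import Pool.Agent.Lib.MP_11349d_lc.P1.Base
import Pool.Agent.Lib.MP_11349d_lc.P1.CdE
import Pool.Agent.Lib.MP_11349d_lc.P1.Kap

/-!
# Part I: the bookkeeping function

PROOF. `nx c` (Base.lean) is the successor: for `c : O` there is `d > c` (`hO.bdd {c}`), so `c < nx c` and `nx c ≤ d` for all
`d > c`; `nx` is injective; `nx c` is not a limit (`Lm`): nothing is between `c` and `nx c`.
`#(Pat Ω O × O) ≤ #O` (`mk_fun_le`, `#(Finset (Ω × Ω)) < #O`), so there is a surjection `e : O → Pat Ω O × O`. For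
`P : Pat Ω O` the set `{x | (e x).1 = P}` has cardinality `#O` (it is mapped by `e` onto `{P} × O`), so it is not contained in
`Iio g` (`hO.iio`). Define `bk a = (e x).1` if `a = nx x`. Given `P, g` choose `x ≥ g` with `(e x).1 = P`, `a = nx x`.
-/

set_option autoImplicit false

namespace Pool.Agent.BPF

open Cardinal

set_option linter.unusedSectionVars false
set_option linter.unusedVariables false

variable {O Ω : Type} [LinearOrder O] [WellFoundedLT O] [OrderBot O] [LinearOrder Ω] [WellFoundedLT Ω]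
  [OrderBot Ω]

theorem lt_nx (hO : IsKap O) (c : O) : c < nx c := by
  have h : (Set.Ioi c).Nonempty := by
    obtain ⟨b, hb⟩ := hO.exists_gt c
    exact ⟨b, hb⟩
  unfold nx
  rw [dif_pos h]
  exact WellFounded.min_mem _ _ h

theorem nx_le (hO : IsKap O) {c d : O} (h : c < d) : nx c ≤ d := by
  have h0 : (Set.Ioi c).Nonempty := ⟨d, h⟩
  unfold nx
  rw [dif_pos h0]
  exact not_lt.1 (WellFounded.not_lt_min _ _ h)

theorem sc_nx (hO : IsKap O) (c : O) : Sc c (nx c) := ⟨lt_nx hO c, fun _ h => nx_le hO h⟩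

theorem sc_eq (hO : IsKap O) {c a : O} (h : Sc c a) : a = nx c :=
  le_antisymm (h.2 _ (lt_nx hO c)) (nx_le hO h.1)

theorem nx_inj (hO : IsKap O) {c d : O} (h : nx c = nx d) : c = d := by
  rcases lt_trichotomy c d with h1 | h1 | h1
  · have h2 := (nx_le hO h1).trans_lt (lt_nx hO d)
    rw [h] at h2
    exact absurd h2 (lt_irrefl _)
  · exact h1
  · have h2 := (nx_le hO h1).trans_lt (lt_nx hO c)
    rw [h] at h2
    exact absurd h2 (lt_irrefl _)

theorem not_Lm_nx (hO : IsKap O) (c : O) : ¬ Lm (nx c) := by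
  intro h
  obtain ⟨d, h1, h2⟩ := h.2 c (lt_nx hO c)
  exact absurd (nx_le hO h1) (not_le.2 h2)

/-- every element is the smallest one, a limit, or a successor -/
theorem cases_O (hO : IsKap O) (a : O) : a = ⊥ ∨ Lm a ∨ ∃ c, Sc c a := by
  by_cases h0 : a = ⊥
  · exact Or.inl h0
  by_cases h1 : Lm a
  · exact Or.inr (Or.inl h1)
  · refine Or.inr (Or.inr ?_)
    by_contra h2
    refine h1 ⟨⟨⊥, bot_lt_iff_ne_bot.2 h0⟩, fun c hc => ?_⟩
    by_contra h3
    refine h2 ⟨c, hc, fun d hd => ?_⟩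
    by_contra h4
    exact h3 ⟨d, hd, not_le.1 h4⟩

theorem exists_bk (hO : IsKap O) (hΩ : #Ω < #O) :
    ∃ bk : O → Pat Ω O, ∀ (P : Pat Ω O) (g : O), ∃ a, g ≤ a ∧ ¬ Lm a ∧ bk a = P := by
  have h1 : #(Finset (Ω × Ω)) < #O := by
    have h2 : #(Ω × Ω) < #O := by
      rw [Cardinal.mk_prod]
      simp only [Cardinal.lift_id]
      exact hO.mul_lt hΩ hΩ
    have h3 : Function.Injective (fun s : Finset (Ω × Ω) => (s : Set (Ω × Ω))) :=
      Finset.coe_injective
    calc #(Finset (Ω × Ω)) ≤ #(Set (Ω × Ω)) := Cardinal.mk_le_of_injective h3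
      _ = 2 ^ #(Ω × Ω) := Cardinal.mk_set
      _ < #O := hO.pow _ h2
  have h2 : #(Pat Ω O × O) ≤ #O := by
    have h3 : #(Finset (Ω × Ω) → O) ≤ #O := mk_fun_le hO h1
    have h4 : #O * #O = #O := Cardinal.mul_eq_self hO.aleph0_le
    show #(((Finset (Ω × Ω) → O) × O) × O) ≤ #O
    rw [Cardinal.mk_prod, Cardinal.mk_prod]
    simp only [Cardinal.lift_id]
    calc #(Finset (Ω × Ω) → O) * #O * #O ≤ #O * #O * #O := by gcongr
      _ = #O := by rw [h4, h4]
  obtain ⟨e⟩ := (Cardinal.le_def _ _).1 h2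
  have hinj : Function.Injective (fun p : Pat Ω O × O => nx (e p)) := fun p q h =>
    e.injective (nx_inj hO h)
  have : Nonempty (Pat Ω O × O) := ⟨((fun _ => ⊥), ⊥), ⊥⟩
  refine ⟨fun a => (Function.invFun (fun p : Pat Ω O × O => nx (e p)) a).1, fun P g => ?_⟩
  have h5 : ∃ o : O, g ≤ e (P, o) := by
    by_contra h6
    push Not at h6
    have h7 : #O ≤ #(Set.Iio g) := by
      refine Cardinal.mk_le_of_injective (f := fun o : O => (⟨e (P, o), h6 o⟩ : Set.Iio g)) ?_
      intro o o' h8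
      have h9 := e.injective (congrArg Subtype.val h8)
      exact (Prod.mk.inj h9).2
    exact absurd (hO.iio g) (not_lt.2 h7)
  obtain ⟨o, ho⟩ := h5
  refine ⟨nx (e (P, o)), ho.trans (lt_nx hO _).le, not_Lm_nx hO _, ?_⟩
  have h6 := Function.leftInverse_invFun hinj (P, o)
  show (Function.invFun (fun p : Pat Ω O × O => nx (e p)) (nx (e (P, o)))).1 = P
  have h7 : Function.invFun (fun p : Pat Ω O × O => nx (e p)) (nx (e (P, o))) = (P, o) := h6
  rw [h7]

end Pool.Agent.BPF
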