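import Pool.Agent.Lib.MP_11349d_lc.P1.Base

/-!
# Part I: the conditions of a limit stage as a preorder with projection

PROOFS. `nice_mono`: all three conditions have the form `b ⊓ .. ≤ ..` or `b ⊓ .. = ⊥`; use `inf_le_inf_right`.
`pm_PD`: `(datX cd c G y).S c = univ`, because `upd c G y c = y` and `x.val ∈ y.C` (`x.mem`). mono: `Cnd.le`. ne: `PD.ne`.
lift: `⟨x, p.w, p.m⟩` is a condition (`nice_mono`, `res` is monotone in `b`). dns: `⟨x, ∅, ∅⟩`.
`card_PDX`: the elements of `p.1.m` are sides with `N n < h := hh cd c y.C`, so `p ↦ (b, w, m)` maps `PDX` injectively into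
`El y.C × Finset (Ω × Ω × ℕ) × Finset {x : Side O Ω (El y.C) // ∀ n, x.N n < h}`, and the last type of sides injects into
`Ω × (ℕ → Iio h) × (ℕ → El y.C)`. All these have cardinality `< #O`: products and sums by `Cardinal.mul_lt_of_lt`,
`α ^ ℵ₀ ≤ 2 ^ (α * ℵ₀) < #O` by `hO.pow`, `#(Finset Y) ≤ max ℵ₀ #Y`, `#(Iio h) < #O` by `hO.iio`.
-/

set_option autoImplicit false

namespace Pool.Agent.BPF

open Cardinal

theorem nice_mono {O Ω B : Type} [LinearOrder O] [LinearOrder Ω] [OrderBot O] [OrderBot Ω]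
    [CompleteBooleanAlgebra B] {T : LTree Ω} {D : Dat O Ω B} {a : O} {x : Side O Ω B} {b b' : B}
    (h : Nice T D a x b) (hb : b' ≤ b) : Nice T D a x b' := by
  refine ⟨?_, ?_, ?_⟩
  · intro c hc hl hlt n
    exact le_bot_iff.1 ((inf_le_inf_right _ (inf_le_inf_right _ hb)).trans (h.y0 c hc hl hlt n).le)
  · intro k W h1 h2 h3 t
    exact (inf_le_inf_right _ (inf_le_inf_right _ hb)).trans (h.y1 k W h1 h2 h3 t)
  · intro c hc hl hlt k V h1 h2 e
    exact (inf_le_inf_right _ hb).trans (h.y2 c hc hl hlt k V h1 h2 e)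

variable {O Ω : Type} [LinearOrder O] [WellFoundedLT O] [OrderBot O] [LinearOrder Ω] [WellFoundedLT Ω]
  [OrderBot Ω]

omit [OrderBot O] [WellFoundedLT Ω] [OrderBot Ω] in
private theorem datX_S_mem (cd : Cds O Ω) (c : O) (G : O → Stt O Ω) (y : Stt O Ω) (x : El y.C) :
    x ∈ (datX cd c G y).S c := by
  change x.val ∈ (upd c G y c).C
  have h : upd c G y c = y := if_neg (lt_irrefl c)
  rw [h]
  exact x.mem

theorem pm_PD (T : LTree Ω) (cd : Cds O Ω) (c : O) (G : O → Stt O Ω) (y : Stt O Ω) :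
    PM (fun p : PDX T cd c G y => p.1.b) := by
  refine ⟨fun α β h => h.1, fun α => α.2.ne, ?_, ?_⟩
  · intro α x hx hle
    refine ⟨⟨⟨x, α.1.w, α.1.m⟩, ⟨datX_S_mem cd c G y x, hx, α.2.mdl,
      fun z hz => nice_mono (α.2.nice z hz) hle, α.2.chain,
      fun v hv z hz h1 h2 => hle.trans (α.2.res v hv z hz h1 h2)⟩⟩,
      ⟨hle, subset_rfl, subset_rfl⟩, le_rfl⟩
  · intro x hx
    refine ⟨⟨⟨x, ∅, ∅⟩, ⟨datX_S_mem cd c G y x, hx, ?_, ?_, ?_, ?_⟩⟩, le_rfl⟩
    · intro z hz
      exact absurd hz (Finset.notMem_empty z)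
    · intro z hz
      exact absurd hz (Finset.notMem_empty z)
    · intro z hz
      exact absurd hz (Finset.notMem_empty z)
    · intro v hv
      exact absurd hv (Finset.notMem_empty v)

theorem card_PDX (hO : IsKap O) (hΩ : #Ω < #O) (T : LTree Ω) (cd : Cds O Ω) (c : O) (G : O → Stt O Ω)
    {y : Stt O Ω} (hy : #y.C < #O) : #(PDX T cd c G y) < #O := by
  classical
  have h01 : ℵ₀ < #O := Cardinal.aleph0_lt_aleph_one.trans hO.om1
  have h0 : ℵ₀ ≤ #O := h01.le
  have hN : #ℕ < #O := by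
    rw [mk_nat]
    exact h01
  have hmul : ∀ a b : Cardinal.{0}, a < #O → b < #O → a * b < #O :=
    fun a b ha hb => Cardinal.mul_lt_of_lt h0 ha hb
  have hpow : ∀ a b : Cardinal.{0}, a < #O → b < #O → a ^ b < #O := by
    intro a b ha hb
    calc a ^ b ≤ (2 ^ a) ^ b := Cardinal.power_le_power_right (Cardinal.cantor a).le
      _ = 2 ^ (a * b) := Cardinal.power_mul.symm
      _ < #O := hO.pow _ (hmul a b ha hb)
  have hfs : ∀ X : Type, #X < #O → #(Finset X) < #O := by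
    intro X hX
    refine (Cardinal.mk_le_of_injective
      (f := fun s : Finset X => (s : Set X)) Finset.coe_injective).trans_lt ?_
    rw [mk_set]
    exact hO.pow _ hX
  have hprod : ∀ X Y : Type, #X < #O → #Y < #O → #(X × Y) < #O := by
    intro X Y hX hY
    rw [mk_prod, lift_id, lift_id]
    exact hmul _ _ hX hY
  have hE : #(El y.C) < #O := by
    rw [mk_El]
    exact hy
  set h := hh cd c y.C with hh'
  have hside : #{x : Side O Ω (El y.C) // ∀ n, x.N n < h} < #O := by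
    have hseq1 : #(ℕ → Set.Iio h) < #O := by
      rw [← power_def]
      exact hpow _ _ (hO.iio h) hN
    have hseq2 : #(ℕ → El y.C) < #O := by
      rw [← power_def]
      exact hpow _ _ hE hN
    refine (Cardinal.mk_le_of_injective
      (f := fun x : {x : Side O Ω (El y.C) // ∀ n, x.N n < h} =>
        ((x.1.d, fun n => ⟨x.1.N n, x.2 n⟩, x.1.Y) : Ω × (ℕ → Set.Iio h) × (ℕ → El y.C))) ?_).trans_lt
      (hprod _ _ hΩ (hprod _ _ hseq1 hseq2))
    rintro ⟨⟨d, N, Y⟩, hx⟩ ⟨⟨d', N', Y'⟩, hx'⟩ hxx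
    simp only [Prod.mk.injEq] at hxx
    obtain ⟨h1, h2, h3⟩ := hxx
    have h4 : N = N' := by
      funext n
      have := congrFun h2 n
      exact congrArg Subtype.val this
    subst h1 h3 h4
    rfl
  refine (Cardinal.mk_le_of_injective
    (f := fun p : PDX T cd c G y =>
      ((p.1.b, p.1.w, p.1.m.subtype fun x => ∀ n, x.N n < h) :
        El y.C × Finset (Ω × Ω × ℕ) × Finset {x : Side O Ω (El y.C) // ∀ n, x.N n < h})) ?_).trans_lt
    (hprod _ _ hE (hprod _ _ (hfs _ (hprod _ _ hΩ (hprod _ _ hΩ hN))) (hfs _ hside)))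
  rintro ⟨⟨b, w, m⟩, hp⟩ ⟨⟨b', w', m'⟩, hp'⟩ hpp
  simp only [Prod.mk.injEq] at hpp
  obtain ⟨h1, h2, h3⟩ := hpp
  have h4 : m = m' := by
    have e1 := Finset.subtype_map_of_mem (s := m) (p := fun x => ∀ n, x.N n < h)
      fun x hx => (hp.mdl x hx).lt
    have e2 := Finset.subtype_map_of_mem (s := m') (p := fun x => ∀ n, x.N n < h)
      fun x hx => (hp'.mdl x hx).lt
    rw [← e1, ← e2, h3]
  subst h1 h2 h4
  rfl

end Pool.Agent.BPF
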