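import Pool.Agent.Lib.MP_11349d_lc.P1.Suc
import Pool.Agent.Lib.MP_11349d_lc.P1.PDm
import Pool.Agent.Lib.MP_11349d_lc.P1.Bkk

/-!
# Part I: the step from a limit stage to its successor

PROOF. Let `G = tr c f`, `y = f c`, `A = PDX T cd c G y`, `π p = p.1.b` (`pm_PD`), `#A < #O` by `card_PDX` (`#y.C < #O` by
`(hf c hs.1).small`). `suc_realize` gives `C', inst, h, φ`. Define `j : Cnd O Ω O → O` by: `j q = (φ (RP.j p)).val` if
`q = p.1.map El.val` for some `p : A`, else `⊥`. This is well defined because `p ↦ p.1.map El.val` is injective (`El.val`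
is injective by `El.ext`; `Side.map El.val` is injective, so `Finset.image` is injective: `Finset.image_injective`).
Define `U ξ n` as in `DX` (a supremum in `El C'`, then `.val`). `x = ⟨C', inst, U, j⟩`.
`OkX`: `small` from `suc_realize`; `emb`: `tr a f b = f b` (`tr_of_lt`); `base`: `a = ⊥` contradicts `hs.1`;
`lim`: `a = nx c` is not a limit (`sc_eq`, `not_Lm_nx`); `dst c' hc'`: `c' = c` (`sc_eq`, `nx_inj`), and
`tr c (tr a f) = tr c f` (`tr_tr`), `tr a f c = f c`; `qst c'`: `c' = c` is a limit, contradiction.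
-/

set_option autoImplicit false

namespace Pool.Agent.BPF

open Cardinal

variable {O Ω : Type} [LinearOrder O] [WellFoundedLT O] [OrderBot O] [LinearOrder Ω] [WellFoundedLT Ω]
  [OrderBot Ω] {T : LTree Ω} {cd : Cds O Ω} {bk : O → Pat Ω O}

private theorem side_map_inj {C : Set O} :
    Function.Injective (fun x : Side O Ω (El C) => x.map El.val) := by
  rintro ⟨d, N, Y⟩ ⟨d', N', Y'⟩ h
  simp only [Side.map, Side.mk.injEq] at h
  obtain ⟨h1, h2, h3⟩ := h
  have h4 : Y = Y' := by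
    funext n
    exact El.ext (congrFun h3 n)
  rw [h1, h2, h4]

theorem map_val_inj {C : Set O} : Function.Injective (fun p : Cnd O Ω (El C) => p.map El.val) := by
  classical
  rintro ⟨b, w, m⟩ ⟨b', w', m'⟩ h
  simp only [Cnd.map, Cnd.mk.injEq] at h
  obtain ⟨h1, h2, h3⟩ := h
  have h4 : b = b' := El.ext h1
  have h5 : m = m' := Finset.image_injective side_map_inj h3
  rw [h4, h2, h5]

theorem step_D (hO : IsKap O) (hΩ : #Ω < #O) {a c : O} (hc : Lm c) (hs : Sc c a) (f : O → Stt O Ω)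
    (hf : ∀ b < a, Ok T cd bk f b) : ∃ x, OkX T cd bk a (tr a f) x := by
  classical
  have hA : #(PDX T cd c (tr c f) (f c)) < #O :=
    card_PDX hO hΩ T cd c (tr c f) (hf c hs.1).small
  obtain ⟨C', inst, h, φ, hφ, hC', hemb⟩ :=
    suc_realize hO hs f hf hA (pm_PD T cd c (tr c f) (f c))
  have heq : ∀ c', Sc c' a → c' = c := by
    intro c' hc'
    exact nx_inj hO ((sc_eq hO hc').symm.trans (sc_eq hO hs))
  let j : Cnd O Ω O → O := fun q =>
    if hq : ∃ p : PDX T cd c (tr c f) (f c), p.1.map El.val = q then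
      (φ (RP.j hq.choose)).val else ⊥
  have hj : ∀ p : PDX T cd c (tr c f) (f c), (φ (RP.j p)).val = j (p.1.map El.val) := by
    intro p
    have hq : ∃ p' : PDX T cd c (tr c f) (f c), p'.1.map El.val = p.1.map El.val := ⟨p, rfl⟩
    have h1 : j (p.1.map El.val) = (φ (RP.j hq.choose)).val := dif_pos hq
    have h2 : hq.choose = p := Subtype.ext (map_val_inj hq.choose_spec)
    rw [h1, h2]
  let U : Ω → ℕ → O := fun ξ n =>
    (⨆ p : PDX T cd c (tr c f) (f c), ⨆ _ : ∃ v ∈ p.1.w, v.1 = ⊥ ∧ ξ ≤ v.2.1 ∧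
      T.r ξ v.2.1 v.2.2 = n, φ (RP.j p)).val
  refine ⟨⟨C', inst, U, j⟩, ?_, ?_, ?_, ?_, ?_, ?_⟩
  · exact hC'
  · intro b hb
    rw [tr_of_lt f hb]
    exact hemb U j b hb
  · intro ha
    exact absurd (ha ▸ hs.1) not_lt_bot
  · intro ha
    rw [sc_eq hO hs] at ha
    exact absurd ha (not_Lm_nx hO c)
  · intro c' hc' _
    obtain rfl := heq c' hc'
    rw [tr_tr f hs.1.le, tr_of_lt f hs.1]
    exact ⟨h, φ, fun z p => hφ z p, hj, fun ξ n => rfl⟩
  · intro c' hc' hl
    obtain rfl := heq c' hc'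
    exact absurd hc hl

end Pool.Agent.BPF
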