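import Pool.Agent.Lib.MP_11349d_lc.P1.Emb

/-!
# The limit algebra of a directed system of complete Boolean algebras

`DSys J X`: a directed system of complete Boolean algebras `X b` (`b : J`) and complete embeddings.
`s.Z`: the threads `y` (`pj (y c) = y b` for `b ≤ c`) which are determined by countably many
coordinates. `s.Lim = RP s.Z` is the limit algebra, `s.E b : X b → s.Lim` the embeddings.
-/

set_option autoImplicit false
set_option linter.unusedVariables false

namespace Pool.Agent.BPF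

open Cardinal

/-- directed systems -/
structure DSys (J : Type) [LinearOrder J] (X : J → Type) [∀ b, CompleteBooleanAlgebra (X b)] where
  i : ∀ {b c : J}, b ≤ c → X b → X c
  ce : ∀ {b c : J} (h : b ≤ c), CEmb (i h)
  id_ : ∀ {b : J} (h : b ≤ b) (x : X b), i h x = x
  comp : ∀ {b c d : J} (h : b ≤ c) (h' : c ≤ d) (x : X b), i h' (i h x) = i (h.trans h') x

namespace DSys
variable {J : Type} [LinearOrder J] {X : J → Type} [∀ b, CompleteBooleanAlgebra (X b)]
  (s : DSys J X)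

theorem pj_comp {b c d : J} (h : b ≤ c) (h' : c ≤ d) (y : X d) :
    pj (s.i h) (pj (s.i h') y) = pj (s.i (h.trans h')) y := by
  apply le_antisymm
  · rw [(s.ce h).pj_le, (s.ce h').pj_le, s.comp]
    exact (s.ce (h.trans h')).le_pj y
  · rw [(s.ce (h.trans h')).pj_le, ← s.comp h h']
    exact ((s.ce h').le_pj y).trans ((s.ce h').mono ((s.ce h).le_pj _))

theorem pj_id {b : J} (h : b ≤ b) (x : X b) : pj (s.i h) x = x := by
  have := (s.ce h).pj_i x
  rwa [s.id_] at this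

/-- threads -/
def Z : Type := {y : ∀ b, X b // (∀ b c (h : b ≤ c), pj (s.i h) (y c) = y b) ∧ (∀ b, y b ≠ ⊥) ∧
  ∃ c : ℕ → J, ∀ b, (∃ n, b ≤ c n) ∨ (∀ x : X b, (∀ n (h : c n ≤ b), x ≤ s.i h (y (c n))) → x ≤ y b)}

instance : Preorder s.Z where
  le y z := ∀ b, y.1 b ≤ z.1 b
  le_refl y b := le_rfl
  le_trans x y z h h' b := (h b).trans (h' b)

theorem Z_le {y z : s.Z} : y ≤ z ↔ ∀ b, y.1 b ≤ z.1 b := Iff.rfl

/-- restriction of a thread -/
theorem exists_restrict (y : s.Z) (b : J) (x : X b) (hx : x ≠ ⊥) (hxy : x ≤ y.1 b) :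
    ∃ z : s.Z, z ≤ y ∧ z.1 b = x := by
  obtain ⟨y, hy1, hy2, c, hc⟩ := y
  -- the value at `d`, computed at `m`
  have key : ∀ (d m m' : J) (hd : d ≤ m) (hb : b ≤ m) (hm : m ≤ m'),
      pj (s.i (hd.trans hm)) (y m' ⊓ s.i (hb.trans hm) x) = pj (s.i hd) (y m ⊓ s.i hb x) := by
    intro d m m' hd hb hm
    rw [← s.pj_comp hd hm, ← s.comp hb hm, inf_comm, (s.ce hm).pj_inf, hy1 m m' hm, inf_comm]
  set z : ∀ d, X d := fun d => pj (s.i (le_max_left d b)) (y (max d b) ⊓ s.i (le_max_right d b) x)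
    with hz
  have hz' : ∀ (d m : J) (hd : d ≤ m) (hb : b ≤ m), z d = pj (s.i hd) (y m ⊓ s.i hb x) := by
    intro d m hd hb
    exact (key d (max d b) m (le_max_left d b) (le_max_right d b) (max_le hd hb)).symm
  have hzb : z b = x := by
    rw [hz' b b le_rfl le_rfl, s.pj_id, s.id_]
    exact inf_eq_right.2 hxy
  have hzy : ∀ d, z d ≤ y d := by
    intro d
    rw [hz]
    refine le_trans ((s.ce _).pj_mono inf_le_left) ?_
    rw [hy1]
  have hne : ∀ m (hb : b ≤ m), y m ⊓ s.i hb x ≠ ⊥ := by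
    intro m hb h
    rw [inf_comm, (s.ce hb).inf_eq_bot, hy1 b m hb] at h
    exact hx (by rwa [inf_eq_left.2 hxy] at h)
  refine ⟨⟨z, ?_, ?_, fun n => n.casesOn b c, ?_⟩, hzy, hzb⟩
  · intro d e h
    rw [hz' d (max e b) (h.trans (le_max_left e b)) (le_max_right e b),
      ← s.pj_comp h (le_max_left e b)]
  · intro d h
    rw [hz] at h
    rw [(s.ce _).pj_eq_bot] at h
    exact hne _ _ h
  · intro d
    by_cases hd : ∃ n, d ≤ (fun n => n.casesOn b c : ℕ → J) n
    · exact Or.inl hd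
    refine Or.inr fun w hw => ?_
    have hd' : ∀ n, ¬ d ≤ (fun n => n.casesOn b c : ℕ → J) n := fun n h => hd ⟨n, h⟩
    have hbd : b ≤ d := (not_le.1 (hd' 0)).le
    have h0 : w ≤ s.i hbd x := by
      have := hw 0 hbd
      change w ≤ s.i hbd (z b) at this
      rwa [hzb] at this
    have h1 : w ≤ y d := by
      rcases hc d with ⟨n, hn⟩ | h
      · exact absurd hn (hd' (n + 1))
      · refine h w fun n hn => ?_
        have := hw (n + 1) hn
        exact this.trans ((s.ce hn).mono (hzy (c n)))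
    rw [hz' d d le_rfl hbd, s.pj_id]
    exact le_inf h1 h0

/-- the largest thread -/
theorem exists_top (b : J) (h : (⊥ : X b) ≠ ⊤) : ∃ z : s.Z, z.1 b = ⊤ := by
  have hne : ∀ d, (⊤ : X d) ≠ ⊥ := by
    intro d hd
    have h1 := congrArg (s.i (le_max_left d b)) hd
    rw [(s.ce _).top, (s.ce _).bot] at h1
    have h2 := (s.ce (le_max_right d b)).top
    have h3 := (s.ce (le_max_right d b)).bot
    exact h ((s.ce (le_max_right d b)).inj (by rw [h2, h3, h1]))
  exact ⟨⟨fun d => ⊤, fun b c h => by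
    have := (s.ce h).pj_i ⊤
    rwa [(s.ce h).top] at this, hne, fun _ => b, fun d => Or.inr fun x _ => le_top⟩, rfl⟩

theorem pm (b : J) : PM (fun y : s.Z => y.1 b) where
  mono α β h := h b
  ne α := α.2.2.1 b
  lift α x hx hxα := by
    obtain ⟨z, h1, h2⟩ := s.exists_restrict α b x hx hxα
    exact ⟨z, h1, h2.le⟩
  dns x hx := by
    have h : (⊥ : X b) ≠ ⊤ := fun h => hx (le_bot_iff.1 (h ▸ le_top))
    obtain ⟨z, hz⟩ := s.exists_top b h
    obtain ⟨w, _, h2⟩ := s.exists_restrict z b x hx (by rw [hz]; exact le_top)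
    exact ⟨w, h2.le⟩

/-- the limit algebra -/
abbrev Lim : Type := RP s.Z

/-- the embeddings into the limit algebra -/
def E (b : J) (x : X b) : s.Lim := (s.pm b).emb x

theorem E_ce (b : J) : CEmb (s.E b) := (s.pm b).cemb

theorem mem_E {b : J} {x : X b} {α : s.Z} : α ∈ (s.E b x).s ↔ α.1 b ≤ x := Iff.rfl

theorem j_le_E {b : J} {x : X b} {α : s.Z} : RP.j α ≤ s.E b x ↔ α.1 b ≤ x := by
  rw [RP.j_le_iff]; exact Iff.rfl

theorem pj_E_j (b : J) (α : s.Z) : pj (s.E b) (RP.j α) = α.1 b := (s.pm b).pj_j α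

theorem E_i {b c : J} (h : b ≤ c) (x : X b) : s.E c (s.i h x) = s.E b x := by
  apply RP.ext
  ext α
  rw [s.mem_E, s.mem_E, ← α.2.1 b c h, (s.ce h).pj_le]

/-- the infima of threads are dense -/
theorem det (x : s.Lim) (hx : x ≠ ⊥) : ∃ y : s.Lim, y ≠ ⊥ ∧ y ≤ x ∧
    ∃ c : ℕ → J, ⨅ n, s.E (c n) (pj (s.E (c n)) y) ≤ y := by
  obtain ⟨α, hα⟩ := RP.exists_j_le hx
  obtain ⟨c, hc⟩ := α.2.2.2
  refine ⟨RP.j α, RP.j_ne_bot α, hα, c, ?_⟩
  rw [RP.le_iff]
  intro β hβ
  rw [RP.mem_iInf] at hβ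
  have h1 : ∀ n, β.1 (c n) ≤ α.1 (c n) := by
    intro n
    have := hβ n
    rwa [s.pj_E_j, s.mem_E] at this
  refine (RP.j α).down α β ?_ (RP.self_mem_j α)
  intro b
  rcases hc b with ⟨n, hn⟩ | h
  · rw [← β.2.1 b (c n) hn, ← α.2.1 b (c n) hn]
    exact (s.ce hn).pj_mono (h1 n)
  · refine h _ fun n hn => ?_
    have := (s.ce hn).le_pj (β.1 b)
    rw [β.2.1 (c n) b hn] at this
    exact this.trans ((s.ce hn).mono (h1 n))

/-- every thread along a cofinal sequence has an infimum with the correct projections -/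
theorem thr (c : ℕ → J) (q : ∀ n, X (c n)) (hc : Monotone c) (hcof : ∀ b, ∃ n, b ≤ c n)
    (hq : ∀ n, pj (s.i (hc n.le_succ)) (q (n + 1)) = q n) :
    pj (s.E (c 0)) (⨅ n, s.E (c n) (q n)) = q 0 := by
  apply le_antisymm
  · rw [(s.E_ce _).pj_le]
    exact iInf_le (fun n => s.E (c n) (q n)) 0
  by_cases h0 : q 0 = ⊥
  · rw [h0]; exact bot_le
  have hq' : ∀ m n (h : m ≤ n), pj (s.i (hc h)) (q n) = q m := by
    intro m n h
    induction n, h using Nat.le_induction with
    | base => exact s.pj_id _ _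
    | succ n h ih => rw [← s.pj_comp (hc h) (hc n.le_succ), hq, ih]
  have hne : ∀ n, q n ≠ ⊥ := by
    intro n h
    apply h0
    rw [← hq' 0 n (Nat.zero_le n), h]
    exact (s.ce _).pj_eq_bot.2 rfl
  choose k hk using hcof
  set α : ∀ b, X b := fun b => pj (s.i (hk b)) (q (k b)) with hα
  have hα' : ∀ b n (h : b ≤ c n), α b = pj (s.i h) (q n) := by
    intro b n h
    have key : ∀ m n (hm : b ≤ c m) (hn : b ≤ c n), m ≤ n →
        pj (s.i hm) (q m) = pj (s.i hn) (q n) := by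
      intro m n hm hn hmn
      rw [← hq' m n hmn, s.pj_comp hm (hc hmn)]
    rcases le_total (k b) n with h1 | h1
    · exact key _ _ (hk b) h h1
    · exact (key _ _ h (hk b) h1).symm
  let z : s.Z := ⟨α, by
    refine ⟨fun b d h => ?_, fun b h => ?_, c, fun b => Or.inl ⟨k b, hk b⟩⟩
    · rw [hα' b (k d) (h.trans (hk d)), hα' d (k d) (hk d), s.pj_comp h (hk d)]
    · rw [hα] at h
      exact hne _ ((s.ce _).pj_eq_bot.1 h)⟩
  have hz : ∀ n, z.1 (c n) = q n := fun n => by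
    show α (c n) = q n
    rw [hα' (c n) n le_rfl, s.pj_id]
  have h1 : RP.j z ≤ ⨅ n, s.E (c n) (q n) := le_iInf fun n => by
    rw [s.j_le_E, hz]
  have h2 := (s.E_ce (c 0)).pj_mono h1
  rwa [s.pj_E_j, hz] at h2

theorem card_le : #s.Lim ≤ 2 ^ Cardinal.prod (fun b => #(X b)) := by
  have h1 : Function.Injective (fun x : s.Lim => x.s) := fun x y h => RP.ext h
  calc #s.Lim ≤ #(Set s.Z) := Cardinal.mk_le_of_injective h1
    _ = 2 ^ #s.Z := Cardinal.mk_set
    _ ≤ 2 ^ #(∀ b, X b) := by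
        refine Cardinal.power_le_power_left (by norm_num) ?_
        exact Cardinal.mk_subtype_le _
    _ = 2 ^ Cardinal.prod (fun b => #(X b)) := by rw [Cardinal.mk_pi]

end DSys

end Pool.Agent.BPF
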