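import Pool.Agent.Lib.MP_11349d_lc.P1.Base

/-!
# Part I: `pr` and `pj`
-/

set_option autoImplicit false

namespace Pool.Agent.BPF

/-- the projection of Defs.lean, when `S a` is the range of a complete embedding -/
theorem pr_eq_pj {O Ω B Y : Type} [LinearOrder O] [LinearOrder Ω] [OrderBot O] [OrderBot Ω]
    [CompleteBooleanAlgebra B] [CompleteBooleanAlgebra Y] {D : Dat O Ω B} {a : O} {i : Y → B} (hi : CEmb i)
    (hS : ∀ x, x ∈ D.S a ↔ ∃ y, i y = x) (x : B) : pr D a x = i (pj i x) := by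
  apply le_antisymm
  · exact sInf_le ⟨(hS _).2 ⟨_, rfl⟩, hi.le_pj x⟩
  · refine le_sInf ?_
    rintro c ⟨hc, hxc⟩
    obtain ⟨y, rfl⟩ := (hS _).1 hc
    exact hi.mono (hi.pj_le.2 hxc)

end Pool.Agent.BPF
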