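import Pool.Agent.Lib.MP_11349d_lc.P1.Base

/-!
# Part I: realizing an algebra on a set of codes which extends a given set of codes

PROOF. `O` is infinite (`IsKap.om1`). Let `R = {x : X | x ∉ range E}`, `#R ≤ #X < #O`. As `#C < #O` and `O` is infinite,
`#(Cᶜ) = #O` (`Cardinal.mk_compl_of_infinite`), so there is an injection `g : R → Cᶜ`. Put `C' = C ∪ range g` and define
the bijection `e : X ≃ El C'` by `e (E y) = ⟨y.val, _⟩`, `e x = ⟨g x, _⟩` for `x ∈ R`. Transport the structure of a
complete Boolean algebra along `e` (define all operations by `e`; e.g. `e.symm.injective.completeBooleanAlgebra` after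
defining the operations, or by hand), so that `e` is an order isomorphism `φ`. `φ (E x) = inc h x` by definition.
`#C' ≤ #C + #R < #O`.
-/

set_option autoImplicit false

namespace Pool.Agent.BPF

open Cardinal

theorem realize {O : Type} [LinearOrder O] (hO : IsKap O) {C : Set O} (hC : #C < #O) {X : Type}
    [CompleteBooleanAlgebra X] (hX : #X < #O) (E : El C → X) (hE : Function.Injective E) :
    ∃ (C' : Set O) (_ : CompleteBooleanAlgebra (El C')) (h : C ⊆ C') (φ : X ≃o El C'),
      (∀ x, φ (E x) = inc h x) ∧ #C' < #O := by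
  classical
  have hinf : ℵ₀ ≤ #O := (Cardinal.aleph0_le_aleph 1).trans hO.om1.le
  haveI : Infinite O := Cardinal.infinite_iff.2 hinf
  have hcompl : #(Cᶜ : Set O) = #O := Cardinal.mk_compl_of_infinite C hC
  let R : Set X := (Set.range E)ᶜ
  have hR : #R < #O := (Cardinal.mk_set_le R).trans_lt hX
  obtain ⟨g⟩ : Nonempty (R ↪ (Cᶜ : Set O)) := by
    rw [← Cardinal.le_def, hcompl]
    exact hR.le
  let C' : Set O := C ∪ Set.range fun x : R => (g x : O)
  have hCC : C ⊆ C' := Set.subset_union_left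
  -- the map
  let f : X → El C' := fun x => if h : x ∈ Set.range E then ⟨(h.choose).val, hCC (h.choose).mem⟩
    else ⟨g ⟨x, h⟩, Or.inr ⟨⟨x, h⟩, rfl⟩⟩
  have hf1 : ∀ y, f (E y) = inc hCC y := by
    intro y
    have h : E y ∈ Set.range E := ⟨y, rfl⟩
    have h1 : h.choose = y := hE h.choose_spec
    simp only [f, dif_pos h]
    apply El.ext
    change (h.choose).val = y.val
    rw [h1]
  have hf2 : ∀ x (h : x ∉ Set.range E), f x = ⟨g ⟨x, h⟩, Or.inr ⟨⟨x, h⟩, rfl⟩⟩ := by
    intro x h
    simp only [f, dif_neg h]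
  have hbij : Function.Bijective f := by
    constructor
    · intro x y hxy
      by_cases hx : x ∈ Set.range E
      · obtain ⟨x', rfl⟩ := hx
        by_cases hy : y ∈ Set.range E
        · obtain ⟨y', rfl⟩ := hy
          rw [hf1, hf1] at hxy
          rw [inc_inj hCC hxy]
        · exfalso
          rw [hf1, hf2 y hy] at hxy
          have h1 : x'.val = g ⟨y, hy⟩ := congrArg El.val hxy
          exact (g ⟨y, hy⟩).2 (h1 ▸ x'.mem)
      · by_cases hy : y ∈ Set.range E
        · exfalso
          obtain ⟨y', rfl⟩ := hy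
          rw [hf1, hf2 x hx] at hxy
          have h1 : (g ⟨x, hx⟩ : O) = y'.val := congrArg El.val hxy
          exact (g ⟨x, hx⟩).2 (h1 ▸ y'.mem)
        · rw [hf2 x hx, hf2 y hy] at hxy
          have h1 : (g ⟨x, hx⟩ : O) = g ⟨y, hy⟩ := congrArg El.val hxy
          have h2 := g.injective (Subtype.ext h1)
          exact congrArg Subtype.val h2
    · rintro ⟨o, ho⟩
      rcases id ho with ho1 | ⟨x, hx⟩
      · exact ⟨E ⟨o, ho1⟩, hf1 _⟩
      · refine ⟨x.1, ?_⟩
        rw [hf2 x.1 x.2]
        exact El.ext hx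
  let e : El C' ≃ X := (Equiv.ofBijective f hbij).symm
  have he : ∀ x, e (f x) = x := fun x => (Equiv.ofBijective f hbij).symm_apply_apply x
  have hef : ∀ y, f (e y) = y := fun x => (Equiv.ofBijective f hbij).apply_symm_apply x
  letI : Max (El C') := ⟨fun a b => f (e a ⊔ e b)⟩
  letI : Min (El C') := ⟨fun a b => f (e a ⊓ e b)⟩
  letI : LE (El C') := ⟨fun a b => e a ≤ e b⟩
  letI : LT (El C') := ⟨fun a b => e a < e b⟩
  letI : SupSet (El C') := ⟨fun s => f (⨆ a ∈ s, e a)⟩
  letI : InfSet (El C') := ⟨fun s => f (⨅ a ∈ s, e a)⟩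
  letI : Top (El C') := ⟨f ⊤⟩
  letI : Bot (El C') := ⟨f ⊥⟩
  letI : Compl (El C') := ⟨fun a => f (e a)ᶜ⟩
  letI : HImp (El C') := ⟨fun a b => f (e a ⇨ e b)⟩
  letI : SDiff (El C') := ⟨fun a b => f (e a \ e b)⟩
  letI inst : CompleteBooleanAlgebra (El C') := e.injective.completeBooleanAlgebra e Iff.rfl Iff.rfl
    (fun a b => he _) (fun a b => he _) (fun s => he _) (fun s => he _) (he _) (he _)
    (fun a => he _) (fun a b => he _) (fun a b => he _)
  refine ⟨C', inst, hCC, { toEquiv := Equiv.ofBijective f hbij, map_rel_iff' := ?_ }, hf1, ?_⟩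
  · intro a b
    change e (f a) ≤ e (f b) ↔ a ≤ b
    rw [he, he]
  · refine (Cardinal.mk_union_le _ _).trans_lt (Cardinal.add_lt_of_lt hinf hC ?_)
    exact Cardinal.mk_range_le.trans_lt hR

end Pool.Agent.BPF
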