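import Pool.Agent.Lib.MP_11349d_lc.P1.Rec
import Pool.Agent.Lib.MP_11349d_lc.P1.Rlz

/-!
# Part I: successor steps: realizing `RP A` over the algebra of the stage

PROOF. `E := hπ.emb : El (f c).C → RP A` is injective (`hπ.cemb.inj`), `#(RP A) ≤ 2 ^ #A < #O` (`RP.card_le`; if `A` is
empty then `RP A` has one element: use `#(RP A) ≤ #(Set A)` directly), so `realize` gives `C'`, `inst`, `h`, `φ` with
`φ (E z) = inc h z`. Then `φ.symm (inc h z) = E z`, and `α ∈ (E z).s ↔ π α ≤ z` is `Iff.rfl`. For `b < a`: `b ≤ c` by `hs`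
(otherwise `c < b`, so `a ≤ b`). If `b = c`: `inc h = φ ∘ E` is a complete embedding (`CEmb.comp`, `CEmb.of_iso`). If
`b < c`: `(hf c hs.1).emb b` gives `Cm (tr c f b) (f c)`, i.e. `Cm (f b) (f c)` (`tr_of_lt`); compose the inclusions.
-/

set_option autoImplicit false
set_option linter.unusedSectionVars false

namespace Pool.Agent.BPF

open Cardinal

variable {O Ω : Type} [LinearOrder O] [WellFoundedLT O] [OrderBot O] [LinearOrder Ω] [WellFoundedLT Ω]
  [OrderBot Ω] {T : LTree Ω} {cd : Cds O Ω} {bk : O → Pat Ω O}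

theorem Cm.trans {x y z : Stt O Ω} (h1 : Cm x y) (h2 : Cm y z) : Cm x z := by
  obtain ⟨a, ha⟩ := h1
  obtain ⟨b, hb⟩ := h2
  exact ⟨a.trans b, hb.comp ha⟩

theorem suc_realize (hO : IsKap O) {a c : O} (hs : Sc c a) (f : O → Stt O Ω)
    (hf : ∀ b < a, Ok T cd bk f b) {A : Type} [Preorder A] (hA : #A < #O) {π : A → El (f c).C} (hπ : PM π) :
    ∃ (C' : Set O) (inst : CompleteBooleanAlgebra (El C')) (h : (f c).C ⊆ C') (φ : RP A ≃o El C'),
      (∀ z α, α ∈ (φ.symm (inc h z)).s ↔ π α ≤ z) ∧ #C' < #O ∧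
      ∀ (U : Ω → ℕ → O) (j : Cnd O Ω O → O), ∀ b < a, Cm (f b) ⟨C', inst, U, j⟩ := by
  have hR : #(RP A) < #O := by
    have h1 : Function.Injective (fun X : RP A => X.s) := fun X Y h => RP.ext h
    calc #(RP A) ≤ #(Set A) := Cardinal.mk_le_of_injective h1
      _ = 2 ^ #A := Cardinal.mk_set
      _ < #O := hO.pow _ hA
  have hC : #((f c).C) < #O := (hf c hs.1).small
  obtain ⟨C', inst, h, φ, hφ, hC'⟩ := realize hO hC hR hπ.emb hπ.cemb.inj
  refine ⟨C', inst, h, φ, ?_, hC', ?_⟩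
  · intro z α
    rw [← hφ, φ.symm_apply_apply]
    exact Iff.rfl
  · intro U j b hb
    have hce : CEmb (inc h) := by
      have h1 : inc h = φ ∘ hπ.emb := funext fun z => (hφ z).symm
      rw [h1]
      exact (CEmb.of_iso φ).comp hπ.cemb
    have hc : Cm (f c) ⟨C', inst, U, j⟩ := ⟨h, hce⟩
    rcases lt_trichotomy b c with h1 | h1 | h1
    · have h2 := (hf c hs.1).emb b h1
      rw [tr_of_lt _ h1] at h2
      exact h2.trans hc
    · rw [h1]
      exact hc
    · exact absurd hb (not_lt.2 (hs.2 b h1))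

end Pool.Agent.BPF
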