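import Pool.Agent.Lib.MP_11349d_lc.P1.Rec
import Pool.Agent.Lib.MP_11349d_lc.P1.Rlz
import Pool.Agent.Lib.MP_11349d_lc.P1.Suc
import Pool.Agent.Lib.MP_11349d_lc.P1.Bkk
import Pool.Agent.Lib.MP_11349d_lc.P1.Lim
import Pool.Agent.Lib.MP_11349d_lc.P1.Kap
import Pool.Agent.Lib.MP_11349d_lc.P1.PrE

/-!
# Part I: the limit step

PROOF. `Cm (f b) (f c)` for `b < c < a`: `(hf c _).emb b` and `tr_of_lt`. Let `J = {b : O // b < a}`, `X b = El (f b.1).C`,
`i h = inc _` : this is a directed system `s : DSys J X` (`Cm`; for `b = c` the inclusion is the identity: `CEmb.id_`).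
`J` is not empty and has no maximum (`ha`). CARDINALITY: there is a cardinal `μ < #O` with `#(X b) ≤ μ` for all `b : J`
(`μ = #(Σ b : J, X b)`, `small_sigma`), so `Cardinal.prod (fun b => #(X b)) ≤ μ ^ #J < #O` (`pow_lt`) and `#s.Lim < #O`
(`s.card_le`, `hO.pow`). Let `C = ⋃ b : J, (f b.1).C`, `#C < #O` (`small_iUnion`). Define `E' : El C → s.Lim` by
`E' z = s.E b ⟨z.val, _⟩` for some `b` with `z.val ∈ (f b.1).C`; by `s.E_i` this does not depend on `b` (compare at the larger
of two indices), and it is injective (`(s.E_ce b).inj` at a common index). `realize` gives `C', inst, h, φ` with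
`φ (E' z) = inc h z`. Put `x = ⟨C', inst, fun _ _ => ⊥, fun _ => ⊥⟩`.
For `b < a`: `(f b).C ⊆ C'` and `inc _ = φ ∘ s.E b`, a complete embedding (`CEmb.comp`, `CEmb.of_iso`): this gives `emb`
(`tr a f b = f b`). `base`: `a ≠ ⊥`. `dst`, `qst`: `Sc c a` contradicts `ha` (`sc_eq`, `not_Lm_nx`). `lim`: for `b < a` the set
`(datX cd a (tr a f) x).S b = {w | w.val ∈ (f b).C}` is the range of `inc _` (`upd`, `tr_of_lt`), so by `pr_eq_pj`
`pr .. b y = inc _ (pj (inc _) y)`. `det`: apply `s.det` to `φ.symm z`, and `φ` to the result: `φ (s.E b (pj (s.E b) Y)) =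
inc _ (pj (inc _) (φ Y))` because `inc _ = φ ∘ s.E b` (`CEmb.pj_comp`, `pj φ = φ.symm`). `thr`: `s.thr` for the sequence
`c` in `J` (monotone, cofinal) and `⟨(q n).val, _⟩ : X (c n)`; translate in the same way (`pj` of compositions:
`inc (b to a) = inc (c n to a) ∘ inc (b to c n)`).
-/

set_option autoImplicit false

namespace Pool.Agent.BPF

open Cardinal

variable {O Ω : Type} [LinearOrder O] [WellFoundedLT O] [OrderBot O] [LinearOrder Ω] [WellFoundedLT Ω]
  [OrderBot Ω] {T : LTree Ω} {cd : Cds O Ω} {bk : O → Pat Ω O}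

private theorem pj_iso {X Y : Type} [CompleteBooleanAlgebra X] [CompleteBooleanAlgebra Y] (e : X ≃o Y)
    (y : Y) : pj e y = e.symm y := by
  apply le_antisymm
  · exact (CEmb.of_iso e).pj_le.2 (e.apply_symm_apply y).ge
  · exact e.symm_apply_le.2 ((CEmb.of_iso e).le_pj y)

theorem step_lim (hO : IsKap O) {a : O} (ha : Lm a) (f : O → Stt O Ω) (hf : ∀ b < a, Ok T cd bk f b) :
    ∃ x, OkX T cd bk a (tr a f) x := by
  classical
  -- the directed system
  have cm : ∀ b c : O, b ≤ c → c < a → Cm (f b) (f c) := by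
    intro b c hbc hc
    rcases hbc.lt_or_eq with h | h
    · have h2 := (hf c hc).emb b h
      rw [tr_of_lt _ h] at h2
      exact h2
    · subst h
      exact ⟨subset_refl _, CEmb.id_⟩
  let J : Type := {b : O // b < a}
  let X : J → Type := fun b => El (f b.1).C
  let instX : ∀ b : J, CompleteBooleanAlgebra (X b) := fun b => (f b.1).inst
  let s : DSys J X :=
    { i := fun {b c} h => inc (cm b.1 c.1 h c.2).choose
      ce := fun {b c} h => (cm b.1 c.1 h c.2).choose_spec
      id_ := fun {b} h x => rfl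
      comp := fun {b c d} h h' x => rfl }
  -- cardinalities
  have hJ : #J < #O := hO.iio a
  have hX : ∀ b : J, #(X b) < #O := fun b => by
    show #(El (f b.1).C) < #O
    rw [mk_El]
    exact (hf b.1 b.2).small
  have hL : #s.Lim < #O := by
    refine s.card_le.trans_lt (hO.pow _ ?_)
    have h1 : Cardinal.prod (fun b => #(X b)) ≤ #(Σ b, X b) ^ #J := by
      rw [← Cardinal.prod_const']
      refine Cardinal.prod_le_prod _ _ fun b => ?_
      exact Cardinal.mk_le_of_injective (sigma_mk_injective (i := b))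
    exact h1.trans_lt (hO.pow_lt (hO.small_sigma hJ hX) hJ)
  let C : Set O := ⋃ b : J, (f b.1).C
  have hC : #C < #O := hO.small_iUnion hJ fun b => (hf b.1 b.2).small
  have hbC : ∀ b : J, (f b.1).C ⊆ C := fun b => Set.subset_iUnion (fun b : J => (f b.1).C) b
  have hz : ∀ z : El C, ∃ b : J, z.val ∈ (f b.1).C := fun z => Set.mem_iUnion.1 z.mem
  choose β hβ using hz
  let E' : El C → s.Lim := fun z => s.E (β z) ⟨z.val, hβ z⟩
  have hE' : ∀ (z : El C) (b : J) (hb : z.val ∈ (f b.1).C), E' z = s.E b ⟨z.val, hb⟩ := by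
    intro z b hb
    have h1 := s.E_i (le_max_left (β z) b) (⟨z.val, hβ z⟩ : X (β z))
    have h2 := s.E_i (le_max_right (β z) b) (⟨z.val, hb⟩ : X b)
    exact h1.symm.trans h2
  have hinj : Function.Injective E' := by
    intro z w hzw
    have hm1 : z.val ∈ (f (max (β z) (β w)).1).C :=
      (s.i (le_max_left (β z) (β w)) (⟨z.val, hβ z⟩ : X (β z))).mem
    have hm2 : w.val ∈ (f (max (β z) (β w)).1).C :=
      (s.i (le_max_right (β z) (β w)) (⟨w.val, hβ w⟩ : X (β w))).mem
    rw [hE' z _ hm1, hE' w _ hm2] at hzw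
    have h1 := (s.E_ce _).inj hzw
    have h2 : z.val = w.val :=
      congrArg (fun t : El (f (max (β z) (β w)).1).C => t.val) h1
    exact El.ext h2
  obtain ⟨x, h, φ, hφ, hC'⟩ : ∃ (x : Stt O Ω) (h : C ⊆ x.C) (φ : s.Lim ≃o El x.C),
      (∀ z, φ (E' z) = inc h z) ∧ #x.C < #O := by
    obtain ⟨C', inst, h, φ, h1, h2⟩ := realize hO hC hL E' hinj
    exact ⟨⟨C', inst, fun _ _ => ⊥, fun _ => ⊥⟩, h, φ, h1, h2⟩
  -- the embeddings
  have hb' : ∀ b : J, (f b.1).C ⊆ x.C := fun b => (hbC b).trans h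
  have he : ∀ (b : J) (y : X b), inc (hb' b) y = φ (s.E b y) := by
    intro b y
    have h1 := hφ (inc (hbC b) y)
    rw [hE' (inc (hbC b) y) b y.mem] at h1
    exact h1.symm
  have he' : ∀ b : J, (inc (hb' b) : El (f b.1).C → El x.C) = φ ∘ s.E b := fun b => funext (he b)
  have hce : ∀ b : J, CEmb (inc (hb' b) : El (f b.1).C → El x.C) := by
    intro b
    rw [he' b]
    exact (CEmb.of_iso φ).comp (s.E_ce b)
  have hpj : ∀ (b : J) (y : El x.C),
      pj (inc (hb' b) : El (f b.1).C → El x.C) y = pj (s.E b) (φ.symm y) := by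
    intro b y
    rw [he' b, (CEmb.of_iso φ).pj_comp (s.E_ce b), pj_iso]
  have hpr : ∀ (b : J) (y : El x.C),
      pr (datX cd a (tr a f) x) b.1 y = inc (hb' b) (pj (inc (hb' b) : El (f b.1).C → El x.C) y) := by
    intro b y
    refine pr_eq_pj (hce b) (fun w => ?_) y
    have h1 : upd a (tr a f) x b.1 = f b.1 := by
      rw [upd, if_pos b.2, tr_of_lt _ b.2]
    show w.val ∈ (upd a (tr a f) x b.1).C ↔ _
    rw [h1]
    constructor
    · intro hw
      exact ⟨⟨w.val, hw⟩, rfl⟩
    · rintro ⟨v, rfl⟩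
      exact v.mem
  refine ⟨x, hC', ?_, ?_, fun _ => ⟨?_, ?_⟩, ?_, ?_⟩
  · intro b hb
    rw [tr_of_lt _ hb]
    exact ⟨hb' ⟨b, hb⟩, hce ⟨b, hb⟩⟩
  · intro h0
    obtain ⟨c, hc⟩ := ha.1
    rw [h0] at hc
    exact absurd hc not_lt_bot
  · intro z hz
    have hz' : φ.symm z ≠ ⊥ := by
      intro h1
      apply hz
      rw [← φ.apply_symm_apply z, h1, φ.map_bot]
    obtain ⟨Y, hY0, hY1, c, hc⟩ := s.det (φ.symm z) hz'
    refine ⟨φ Y, ?_, φ.le_symm_apply.1 hY1, fun n => (c n).1, fun n => (c n).2, ?_⟩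
    · intro h1
      apply hY0
      rw [← φ.symm_apply_apply Y, h1, φ.symm.map_bot]
    · have h1 : ∀ n, pr (datX cd a (tr a f) x) (c n).1 (φ Y) =
          φ (s.E (c n) (pj (s.E (c n)) Y)) := by
        intro n
        rw [hpr, hpj, he, φ.symm_apply_apply]
      simp_rw [h1]
      rw [← φ.map_iInf]
      exact φ.le_iff_le.2 hc
  · intro c q hc hca hcof hqm hq
    let c' : ℕ → J := fun n => ⟨c n, hca n⟩
    have hqm' : ∀ n, (q n).val ∈ (f (c n)).C := fun n => by
      have h1 := hqm n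
      rw [tr_of_lt _ (hca n)] at h1
      exact h1
    let Q : ∀ n, X (c' n) := fun n => ⟨(q n).val, hqm' n⟩
    have hQ : ∀ n, inc (hb' (c' n)) (Q n) = q n := fun n => rfl
    have hmono : Monotone c' := fun m n hmn => hc.monotone hmn
    have hcof' : ∀ b : J, ∃ n, b ≤ c' n := fun b => hcof b.1 b.2
    have h1 : ∀ n, pj (s.i (hmono n.le_succ)) (Q (n + 1)) = Q n := by
      intro n
      have h2 := hq n
      have h3 := hpr (c' n) (q (n + 1))
      have h4 : (inc (hb' (c' n)) : El (f (c n)).C → El x.C) =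
          (inc (hb' (c' (n + 1))) : El (f (c (n + 1))).C → El x.C) ∘ s.i (hmono n.le_succ) := rfl
      have h5 : pj (inc (hb' (c' n)) : El (f (c n)).C → El x.C) (q (n + 1)) =
          pj (s.i (hmono n.le_succ)) (Q (n + 1)) := by
        rw [h4, (hce (c' (n + 1))).pj_comp (s.ce (hmono n.le_succ)), ← hQ (n + 1),
          (hce (c' (n + 1))).pj_i]
      rw [← h5]
      apply (hce (c' n)).inj
      exact h3.symm.trans h2
    have h2 := s.thr c' Q hmono hcof' h1
    have h3 : ⨅ n, q n = φ (⨅ n, s.E (c' n) (Q n)) := by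
      rw [φ.map_iInf]
      exact iInf_congr fun n => (hQ n).symm.trans (he (c' n) (Q n))
    have h4 := hpr (c' 0) (⨅ n, q n)
    rw [hpj, h3, φ.symm_apply_apply, h2] at h4
    rw [h3]
    exact h4
  · intro c hc
    rw [sc_eq hO hc] at ha
    exact absurd ha (not_Lm_nx hO c)
  · intro c hc
    rw [sc_eq hO hc] at ha
    exact absurd ha (not_Lm_nx hO c)

end Pool.Agent.BPF
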