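import Pool.Agent.Lib.MP_11349d_lc.P1.Suc
import Pool.Agent.Lib.MP_11349d_lc.P1.Bkk

/-!
# Part I: the step from a nonlimit stage to its successor

PROOF. Let `y = f c`, `P = bk c`, `Ps y` the nonzero elements of `El y.C` (`#(Ps y) ≤ #y.C < #O`).
CLAIM: there are `A`, `Preorder A`, `X : PExt (Ps y) A` with `#A < #O`, `X.RelProper` and: if `hc, hb, hne` hold and
`∃ A', HasExt (Ps y) (patS y P hc) ⟨⟨P.2, hb⟩, hne⟩ A'` then `X` realizes. CASE 1: `hc, hb, hne` hold and some `A'` exists: by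
`hR.refl Ω (Ps y) _ (patS y P hc) ⟨⟨P.2, hb⟩, hne⟩` (with `κ = #O`) there is `A` with `#A < #O` and `HasExt ...`: it gives the
preorder, `X`, `g`. (The proofs `hc hb hne` are unique.) CASE 2: otherwise `A = Ps y` with the identity: `e = π = id`;
`RelProper` with the club of all countable sets: for `N`-generic `q ≤ p` take `r = q` (`e '' D = D`; `GenB` and `GenA` say the
same); `IsClub` of all countable sets: the union of countably many countable sets is countable.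
The third condition holds vacuously.
`π' α := (X.π α).1 : El y.C` is `PM`: `mono` by `X.π_mono`; `ne` by `(X.π α).2`; `lift`: `X.proj α ⟨x, _⟩`; `dns`: `X.e ⟨x, _⟩`,
`X.π_e`. Now `suc_realize` gives `C', inst, h, φ`; `x = ⟨C', inst, fun _ _ => ⊥, fun _ => ⊥⟩`. `OkX`: as in StD.lean
(`sc_eq`, `nx_inj`, `not_Lm_nx`, `tr_of_lt`).
-/

set_option autoImplicit false

namespace Pool.Agent.BPF

open Cardinal

variable {O Ω : Type} [LinearOrder O] [WellFoundedLT O] [OrderBot O] [LinearOrder Ω] [WellFoundedLT Ω]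
  [OrderBot Ω] {T : LTree Ω} {cd : Cds O Ω} {bk : O → Pat Ω O}

private theorem stQ_club {U : Type} : IsClub {c : Set U | c.Countable} :=
  ⟨fun _ h => h, fun x hx => ⟨x, hx, subset_rfl⟩, fun _ hc _ => Set.countable_iUnion hc⟩

/-- the identity extension -/
private def stQ_id (P : Type) [Preorder P] : PExt P P where
  e := id
  π := id
  e_mono := fun h => h
  π_mono := fun h => h
  π_e := fun _ => rfl
  le_e := fun _ => le_rfl
  proj := fun _ p h => ⟨p, h, le_rfl⟩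

private theorem stQ_id_proper (P : Type) [Preorder P] : (stQ_id P).RelProper := by
  refine ⟨_, stQ_club, fun N _ p _ q hq hg => ⟨q, hq, le_rfl, ?_⟩⟩
  intro D hD hDn r' hr'
  have h1 : Sum.inr ((stQ_id P).e '' D) ∈ N := by
    have h2 : (stQ_id P).e '' D = D := Set.image_id D
    rw [h2]
    exact hD
  exact hg D h1 hDn r' hr'

theorem step_Q (hO : IsKap O) (hR : RProp #O) (hΩ : #Ω < #O) {a c : O} (hc : ¬ Lm c) (hs : Sc c a)
    (f : O → Stt O Ω) (hf : ∀ b < a, Ok T cd bk f b) : ∃ x, OkX T cd bk a (tr a f) x := by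
  classical
  have hPs : #(Ps (f c)) < #O := by
    calc #(Ps (f c)) ≤ #(El (f c).C) := Cardinal.mk_subtype_le _
      _ = #(f c).C := mk_El _
      _ < #O := (hf c hs.1).small
  obtain ⟨A, instA, X, hA, hX, hreal⟩ : ∃ (A : Type) (_ : Preorder A) (X : PExt (Ps (f c)) A),
      #A < #O ∧ X.RelProper ∧
      (∀ (hc : ∀ s, (bk c).1 s ∈ (f c).C) (hb : (bk c).2 ∈ (f c).C)
        (hne : (⟨(bk c).2, hb⟩ : El (f c).C) ≠ ⊥),
        (∃ A', HasExt (Ps (f c)) (patS (f c) (bk c) hc) ⟨⟨(bk c).2, hb⟩, hne⟩ A') →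
        ∃ g : Ω → Ω → Set A, X.Realizes (patS (f c) (bk c) hc) ⟨⟨(bk c).2, hb⟩, hne⟩ g) := by
    by_cases hcase : ∃ (hc : ∀ s, (bk c).1 s ∈ (f c).C) (hb : (bk c).2 ∈ (f c).C)
        (hne : (⟨(bk c).2, hb⟩ : El (f c).C) ≠ ⊥),
        ∃ A', HasExt (Ps (f c)) (patS (f c) (bk c) hc) ⟨⟨(bk c).2, hb⟩, hne⟩ A'
    · obtain ⟨hc', hb, hne, hA'⟩ := hcase
      obtain ⟨A, hA, instA, X, g, hX, hg⟩ := hR.refl Ω (Ps (f c)) _ (patS (f c) (bk c) hc')
        ⟨⟨(bk c).2, hb⟩, hne⟩ hΩ hPs hA'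
      exact ⟨A, instA, X, hA, hX, fun _ _ _ _ => ⟨g, hg⟩⟩
    · exact ⟨Ps (f c), inferInstance, stQ_id _, hPs, stQ_id_proper _,
        fun hc' hb hne h => absurd ⟨hc', hb, hne, h⟩ hcase⟩
  have hπ : PM (fun α : A => (X.π α).1) :=
    { mono := fun α β h => X.π_mono h
      ne := fun α => (X.π α).2
      lift := fun α x hx hle => X.proj α ⟨x, hx⟩ hle
      dns := fun x hx => ⟨X.e ⟨x, hx⟩, by rw [X.π_e]⟩ }
  obtain ⟨C', inst, h, φ, hφ, hC', hemb⟩ := suc_realize hO hs f hf hA hπ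
  have heq : ∀ c', Sc c' a → c' = c := by
    intro c' hc'
    exact nx_inj hO ((sc_eq hO hc').symm.trans (sc_eq hO hs))
  refine ⟨⟨C', inst, fun _ _ => ⊥, fun _ => ⊥⟩, ?_, ?_, ?_, ?_, ?_, ?_⟩
  · exact hC'
  · intro b hb
    rw [tr_of_lt f hb]
    exact hemb _ _ b hb
  · intro ha
    exact absurd (ha ▸ hs.1) not_lt_bot
  · intro ha
    rw [sc_eq hO hs] at ha
    exact absurd ha (not_Lm_nx hO c)
  · intro c' hc' hl
    obtain rfl := heq c' hc'
    exact absurd hl hc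
  · intro c' hc' _
    obtain rfl := heq c' hc'
    rw [tr_of_lt f hs.1]
    exact ⟨A, instA, X, hA, hX, hreal, h, φ, fun z α => hφ z α⟩

end Pool.Agent.BPF
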