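import Pool.Agent.Lib.MP_11349d_lc.P1.StB
import Pool.Agent.Lib.MP_11349d_lc.P1.StL
import Pool.Agent.Lib.MP_11349d_lc.P1.StD
import Pool.Agent.Lib.MP_11349d_lc.P1.StQ

/-!
# Part I: the recursion succeeds
-/

set_option autoImplicit false

namespace Pool.Agent.BPF

open Cardinal

variable {O Ω : Type} [LinearOrder O] [WellFoundedLT O] [OrderBot O] [LinearOrder Ω] [WellFoundedLT Ω]
  [OrderBot Ω]

theorem exists_f (hO : IsKap O) (hR : RProp #O) (hΩ : #Ω < #O) (T : LTree Ω) (cd : Cds O Ω)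
    (bk : O → Pat Ω O) : ∃ f : O → Stt O Ω, ∀ a, Ok T cd bk f a := by
  refine exists_rec fun a f hf => ?_
  rcases cases_O hO a with rfl | h | ⟨c, hc⟩
  · exact step_bot hO _
  · exact step_lim hO h f hf
  · by_cases hl : Lm c
    · exact step_D hO hΩ hl hc f hf
    · exact step_Q hO hR hΩ hl hc f hf

end Pool.Agent.BPF
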