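import Pool.Agent.Lib.MP_11349d_lc.P1.Fd
import Pool.Agent.Lib.MP_11349d_lc.P1.Fe
import Pool.Agent.Lib.MP_11349d_lc.P1.Stp
import Pool.Agent.Lib.MP_11349d_lc.P1.CdE

/-!
# Part I: existence of the filtration
-/

set_option autoImplicit false

namespace Pool.Agent.BPF

open Cardinal Pool.Agent.CSI

variable {O Ω : Type} [LinearOrder O] [WellFoundedLT O] [OrderBot O] [LinearOrder Ω] [WellFoundedLT Ω]
  [OrderBot Ω]

theorem side_map_inj {X Y : Type} {v : X → Y} (hv : Function.Injective v) :
    Function.Injective (Side.map (O := O) (Ω := Ω) v) := by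
  rintro ⟨d, N, Y⟩ ⟨d', N', Y'⟩ h
  simp only [Side.map, Side.mk.injEq] at h ⊢
  exact ⟨h.1, h.2.1, funext fun n => hv (congrFun h.2.2 n)⟩

open Classical in
theorem cnd_map_inj {X Y : Type} {v : X → Y} (hv : Function.Injective v) :
    Function.Injective (Cnd.map (O := O) (Ω := Ω) v) := by
  rintro ⟨b, w, m⟩ ⟨b', w', m'⟩ h
  simp only [Cnd.map, Cnd.mk.injEq] at h ⊢
  exact ⟨hv h.1, h.2.1, Finset.image_injective (side_map_inj hv) h.2.2⟩

/-- the filtration -/
theorem exists_flt (hO : IsKap O) (hR : RProp #O) (hΩ : #Ω < #O) (T : LTree Ω) :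
    ∃ (B : Type) (_ : CompleteBooleanAlgebra B), Nonempty (Flt (O := O) (B := B) T) := by
  obtain ⟨cd⟩ := exists_cds hO hΩ
  obtain ⟨bk, hbk⟩ := exists_bk hO hΩ
  obtain ⟨f, hf⟩ := exists_f hO hR hΩ T cd bk
  obtain ⟨B, iB, ⟨t⟩⟩ := exists_topP hO hf
  refine ⟨B, iB, ⟨?_⟩⟩
  exact
    { datB cd t.cb f with
      h := hB cd f
      j := jB f t
      cb := t.cb
      ct := fun C => cd.ct (fun ξ n => t.cb (C ξ n))
      cS := fun E => cd.cS (t.cb '' E)
      cc := fun p => cd.cc (p.map t.cb)
      o_inj := cd.co_inj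
      n_inj := fun k W W' h => by
        have := cd.cn_inj k h
        funext ξ s
        exact t.inj (congrFun (congrFun this ξ) s)
      s_inj := fun x x' h => side_map_inj t.inj (cd.cs_inj h)
      cb_inj := t.inj
      ct_inj := fun C C' h => by
        have := cd.ct_inj h
        funext ξ n
        exact t.inj (congrFun (congrFun this ξ) n)
      cS_inj := cSB_inj t
      cc_inj := fun p p' h => cnd_map_inj t.inj (cd.cc_inj h)
      sup_mem := fSupP t
      compl_mem := fCompl t
      mono := fMono hf t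
      small := fSmall hf t
      total := fTotal t
      bot := fBot hf t
      ntriv := fTriv hf t
      cc' := t.cc
      det := fDet hf t
      thr := fThr hO hf t
      bd := f_bd hO hΩ hf t
      j_mem := f_jmem hO hf t
      j_mono := f_jmono hO hf t
      j_cpt := f_jcpt hO hf t
      j_dns := f_jdns hO hf t
      j_pr := f_jpr hO hf t
      U_def := f_U hO hf t
      prp := fun a a' ha hs => f_prp hO hf t a a' ha hs
      bk := fun c b g hb => f_bk hO hbk hf t c b g hb }

end Pool.Agent.BPF
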