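import Pool.Agent.Lib.MP_11349d_lc.P1.Base

/-!
# Part I: the conditions of a limit stage are absolute

`i : X → Y` is a complete embedding which respects the codes `v`, `w`; `S' b` is the image of `S b` for `b ≤ c`, the trees
`U b`, `b < c` a limit, correspond. Then `i` maps the conditions of the stage `c` over `X` bijectively to those over `Y`.

PROOF. Write `D = datB cd v G`, `D' = datB cd w G'`. (0) `D'.n k (i ∘∘ W) = D.n k W` and `D'.s (x.map i) = D.s x` because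
`w (i z) = v z`. (1) `InS D' b W'` with `b ≤ c` iff `W' = fun ξ s => i (W ξ s)` for a (unique) `W` with `InS D b W`
(`hS`; choose preimages). (2) `i` commutes with `⨆, ⨅, ⊓, ⊔, ⇨, ᶜ, ⊥` (Emb.lean), so `i (Prn T W) = Prn T (i ∘∘ W)`,
`i (Sb V W) = Sb (i ∘∘ V) (i ∘∘ W)`, `i (SbP W C) = SbP (i ∘∘ W) (i ∘∘ C)`, `i (Perp T D b C) = Perp T D' b (i ∘∘ C)` for
`b ≤ c` (by `hU`; `⨅ c', ⨅ _ : Lm c' ∧ c' < b, ..`: reindex termwise by `iInf_congr`), and
`i (Lg T D b W) = Lg T D' b (i ∘∘ W)` for `b ≤ c` (the supremum over `C'` with values in `S' b` is the supremum over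
`C' = i ∘∘ C`, by (1)). `Tr T W ↔ Tr T (i ∘∘ W)` by `hi.le_iff`. `cone T (i ∘∘ W) ξ s = i ∘∘ cone T W ξ s`.
(3) `IsMdl T D c h x ↔ IsMdl T D' c h (x.map i)` (`lt, om, pos, bot` do not mention the algebra), `Nice T D c x b ↔
Nice T D' c (x.map i) (i b)`: in `y0, y1, y2` apply `i` to both sides, use `hi.le_iff`, `hi.eq_bot`; every `W'` with
`InS D' c W'` is an `i ∘∘ W`, and conversely. (4) `Blw D x y ↔ Blw D' (x.map i) (y.map i)`. `res`: `hi.le_iff`.
`x = y ↔ x.map i = y.map i` by injectivity. (`Finset.mem_image`, `Finset.forall_mem_image`.)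
(5) `pd_surj`: `p'.b ∈ S' c` and all `Y n ∈ S' c` (`IsMdl.Y`) are in the range of `i`: let `p.b`, and for each side the
preimages; `p.m` = image of `p'.m` under a left inverse of `Side.map i` (`Function.invFun i`).
-/

set_option autoImplicit false
set_option linter.unusedSectionVars false

namespace Pool.Agent.BPF

open Cardinal

variable {O Ω X Y : Type} [LinearOrder O] [WellFoundedLT O] [OrderBot O] [LinearOrder Ω] [WellFoundedLT Ω]
  [OrderBot Ω] [CompleteBooleanAlgebra X] [CompleteBooleanAlgebra Y] {T : LTree Ω} {cd : Cds O Ω}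
  {i : X → Y} {v : X → O} {w : Y → O} {G G' : O → Stt O Ω} {c : O}

/-- the hypotheses of the transfer between `datB cd v G` and `datB cd w G'` at the stage `c` -/
structure AbsH (cd : Cds O Ω) (i : X → Y) (v : X → O) (w : Y → O) (G G' : O → Stt O Ω) (c : O) : Prop where
  ce : CEmb i
  code : ∀ x, w (i x) = v x
  S : ∀ b ≤ c, ∀ y : Y, y ∈ (datB cd w G').S b ↔ ∃ x, x ∈ (datB cd v G).S b ∧ i x = y
  U : ∀ b < c, Lm b → ∀ ξ n, (datB cd w G').U b ξ n = i ((datB cd v G).U b ξ n)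

private abbrev mN (i : X → Y) {k : ℕ} (W : Nm Ω X k) : Nm Ω Y k := fun ξ s => i (W ξ s)

private theorem Abs_n (H : AbsH cd i v w G G' c) {k : ℕ} (W : Nm Ω X k) :
    (datB cd w G').n k (mN i W) = (datB cd v G).n k W := by
  show cd.cn k (fun ξ s => w (i (W ξ s))) = cd.cn k (fun ξ s => v (W ξ s))
  simp only [H.code]

private theorem Abs_s (H : AbsH cd i v w G G' c) (x : Side O Ω X) :
    (datB cd w G').s (x.map i) = (datB cd v G).s x := by
  show cd.cs (Side.map w (x.map i)) = cd.cs (Side.map v x)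
  simp only [Side.map, H.code]

private theorem Abs_mem (H : AbsH cd i v w G G' c) {b : O} (hb : b ≤ c) (x : X) :
    i x ∈ (datB cd w G').S b ↔ x ∈ (datB cd v G).S b := by
  rw [H.S b hb]
  constructor
  · rintro ⟨z, hz, h⟩
    rwa [← H.ce.inj h]
  · intro h
    exact ⟨x, h, rfl⟩

private theorem Abs_inS (H : AbsH cd i v w G G' c) {b : O} (hb : b ≤ c) {k : ℕ} (W : Nm Ω X k) :
    InS (datB cd w G') b (mN i W) ↔ InS (datB cd v G) b W := by
  constructor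
  · intro h ξ s
    exact (Abs_mem H hb _).1 (h ξ s)
  · intro h ξ s
    exact (Abs_mem H hb _).2 (h ξ s)

private theorem Abs_inS' (H : AbsH cd i v w G G' c) {b : O} (hb : b ≤ c) {k : ℕ} {W' : Nm Ω Y k}
    (h : InS (datB cd w G') b W') : ∃ W : Nm Ω X k, InS (datB cd v G) b W ∧ mN i W = W' := by
  choose W hW hW' using fun ξ s => (H.S b hb _).1 (h ξ s)
  exact ⟨W, hW, funext fun ξ => funext fun s => hW' ξ s⟩

private theorem Abs_Prn (H : AbsH cd i v w G G' c) {k : ℕ} (W : Nm Ω X k) :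
    i (Prn T W) = Prn T (mN i W) := by
  unfold Prn
  simp only [H.ce.inf2, H.ce.iInf, H.ce.iSup, H.ce.himp]

private theorem Abs_Sb (H : AbsH cd i v w G G' c) {k : ℕ} (V W : Nm Ω X k) :
    i (Sb V W) = Sb (mN i V) (mN i W) := by
  unfold Sb
  simp only [H.ce.iInf, H.ce.himp]

private theorem Abs_SbP (H : AbsH cd i v w G G' c) {k : ℕ} (W : Nm Ω X k) (C : Ω → ℕ → X) :
    i (SbP W C) = SbP (mN i W) (fun ξ n => i (C ξ n)) := by
  unfold SbP
  simp only [H.ce.iInf, H.ce.himp]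

private theorem Abs_Perp (H : AbsH cd i v w G G' c) {b : O} (hb : b ≤ c) (C : Ω → ℕ → X) :
    i (Perp T (datB cd v G) b C) = Perp T (datB cd w G') b (fun ξ n => i (C ξ n)) := by
  unfold Perp
  simp only [H.ce.inf2, H.ce.iInf, H.ce.iSup, H.ce.himp, H.ce.cmp]
  congr 1
  refine iInf_congr fun c' => iInf_congr fun hc' => iSup_congr fun ξ => iInf_congr fun n => ?_
  rw [H.U c' (hc'.2.trans_le hb) hc'.1]

private theorem Abs_Lg (H : AbsH cd i v w G G' c) {b : O} (hb : b ≤ c) {k : ℕ} (W : Nm Ω X k) :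
    i (Lg T (datB cd v G) b W) = Lg T (datB cd w G') b (mN i W) := by
  unfold Lg
  rw [H.ce.inf2, Abs_Prn H, H.ce.iSup]
  congr 1
  apply le_antisymm
  · refine iSup_le fun C => ?_
    rw [H.ce.iSup]
    refine iSup_le fun hC => ?_
    refine le_iSup₂_of_le (fun ξ n => i (C ξ n)) (fun ξ n => (Abs_mem H hb _).2 (hC ξ n)) ?_
    rw [H.ce.inf2, Abs_Perp H hb, Abs_SbP H]
  · refine iSup₂_le fun C' hC' => ?_
    choose C hC hCC using fun ξ n => (H.S b hb _).1 (hC' ξ n)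
    have e : C' = fun ξ n => i (C ξ n) := funext fun ξ => funext fun n => (hCC ξ n).symm
    rw [e, ← Abs_Perp H hb, ← Abs_SbP H, ← H.ce.inf2]
    refine le_iSup_of_le C (H.ce.mono ?_)
    exact le_iSup_of_le hC le_rfl

private theorem Abs_Tr (H : AbsH cd i v w G G' c) {k : ℕ} (W : Nm Ω X k) :
    Tr T (mN i W) ↔ Tr T W := by
  unfold Tr
  simp only [H.ce.le_iff]

private theorem Abs_cone (H : AbsH cd i v w G G' c) {k : ℕ} (W : Nm Ω X k) (ξ : Ω)
    (s : Fin k → ℕ) : cone T (mN i W) ξ s = mN i (cone T W ξ s) := by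
  funext η s'
  unfold mN cone
  split_ifs
  · rfl
  · exact H.ce.bot.symm

private theorem Abs_Mem (H : AbsH cd i v w G G' c) (x : Side O Ω X) {k : ℕ} (W : Nm Ω X k) :
    Mem (datB cd w G') (x.map i) (mN i W) ↔ Mem (datB cd v G) x W := by
  unfold Mem
  rw [Abs_n H]
  rfl

private theorem Abs_top (H : AbsH cd i v w G G' c) (k : ℕ) :
    (mN i (fun _ _ => ⊤ : Nm Ω X k)) = fun _ _ => ⊤ := by
  funext ξ s
  exact H.ce.top

private theorem Abs_IsMdl (H : AbsH cd i v w G G' c) (h : O) (x : Side O Ω X) :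
    IsMdl T (datB cd v G) c h x ↔ IsMdl T (datB cd w G') c h (x.map i) := by
  constructor
  · intro hx
    refine ⟨hx.lt, hx.om, hx.pos, hx.bot, fun k => ?_, fun k W' ξ s hW hM hξ => ?_, fun n => ?_⟩
    · have h1 := (Abs_Mem H x (fun _ _ => ⊤ : Nm Ω X k)).2 (hx.top k)
      rw [Abs_top H] at h1
      exact h1
    · obtain ⟨W, hW1, rfl⟩ := Abs_inS' H le_rfl hW
      rw [Abs_cone H, Abs_Mem H]
      exact hx.cone k W ξ s hW1 ((Abs_Mem H x W).1 hM) hξ
    · exact (Abs_mem H le_rfl _).2 (hx.Y n)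
  · intro hx
    refine ⟨hx.lt, hx.om, hx.pos, hx.bot, fun k => ?_, fun k W ξ s hW hM hξ => ?_, fun n => ?_⟩
    · refine (Abs_Mem H x (fun _ _ => ⊤ : Nm Ω X k)).1 ?_
      rw [Abs_top H]
      exact hx.top k
    · rw [← Abs_Mem H, ← Abs_cone H]
      exact hx.cone k _ ξ s ((Abs_inS H le_rfl W).2 hW) ((Abs_Mem H x W).2 hM) hξ
    · exact (Abs_mem H le_rfl _).1 (hx.Y n)

private theorem Abs_y1 (H : AbsH cd i v w G G' c) (x : Side O Ω X) {k : ℕ} (W : Nm Ω X k) :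
    i (⨆ c', ⨆ _ : c' ∈ Set.range x.N ∧ ¬ Lm c' ∧ c' < c, ⨆ V : Nm Ω X k,
      ⨆ _ : Mem (datB cd v G) x V ∧ InS (datB cd v G) c' V,
        Lg T (datB cd v G) c' V ⊓ Sb V W) =
    ⨆ c', ⨆ _ : c' ∈ Set.range x.N ∧ ¬ Lm c' ∧ c' < c, ⨆ V : Nm Ω Y k,
      ⨆ _ : Mem (datB cd w G') (x.map i) V ∧ InS (datB cd w G') c' V,
        Lg T (datB cd w G') c' V ⊓ Sb V (mN i W) := by
  simp only [H.ce.iSup, H.ce.inf2]
  refine iSup_congr fun c' => iSup_congr fun hc' => ?_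
  have hle : c' ≤ c := hc'.2.2.le
  apply le_antisymm
  · refine iSup₂_le fun V hV => ?_
    refine le_iSup₂_of_le (mN i V) ⟨(Abs_Mem H x V).2 hV.1, (Abs_inS H hle V).2 hV.2⟩ ?_
    rw [Abs_Lg H hle, Abs_Sb H]
  · refine iSup₂_le fun V' hV => ?_
    obtain ⟨V, hV1, rfl⟩ := Abs_inS' H hle hV.2
    refine le_iSup₂_of_le V ⟨(Abs_Mem H x V).1 hV.1, hV1⟩ ?_
    rw [Abs_Lg H hle, Abs_Sb H]

private theorem Abs_Nice (H : AbsH cd i v w G G' c) (x : Side O Ω X) (b : X) :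
    Nice T (datB cd v G) c x b ↔ Nice T (datB cd w G') c (x.map i) (i b) := by
  have e0 : ∀ c' ∈ Set.range x.N, Lm c' → c' < c → ∀ n,
      i b ⊓ (x.map i).Y n ⊓ (datB cd w G').U c' (x.map i).d n =
        i (b ⊓ x.Y n ⊓ (datB cd v G).U c' x.d n) := by
    intro c' _ hL hlt n
    rw [H.ce.inf2, H.ce.inf2, H.U c' hlt hL]
    rfl
  have e1 : ∀ (k : ℕ) (W : Nm Ω X k) (t : Fin k → ℕ),
      i b ⊓ (⨅ j, (x.map i).Y (t j)) ⊓ (⨅ ξ, ⨅ _ : ξ < (x.map i).d,
        mN i W ξ (T.res ξ (x.map i).d t)) =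
      i (b ⊓ (⨅ j, x.Y (t j)) ⊓ (⨅ ξ, ⨅ _ : ξ < x.d, W ξ (T.res ξ x.d t))) := by
    intro k W t
    simp only [H.ce.inf2, H.ce.iInf]
    rfl
  have e2 : ∀ (k : ℕ) (V : Nm Ω X k) (e : Finset ℕ),
      (⨆ y : Fin k → ℕ, ⨆ _ : ∀ j, y j ∉ e, mN i V (x.map i).d y ⊓ ⨅ j, (x.map i).Y (y j)) =
      i (⨆ y : Fin k → ℕ, ⨆ _ : ∀ j, y j ∉ e, V x.d y ⊓ ⨅ j, x.Y (y j)) := by
    intro k V e
    simp only [H.ce.inf2, H.ce.iInf, H.ce.iSup]
    rfl
  constructor
  · intro hx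
    refine ⟨fun c' hc' hL hlt n => ?_, fun k W' hM hS hTr t => ?_,
      fun c' hc' hL hlt k V' hM hS e => ?_⟩
    · rw [e0 c' hc' hL hlt n, hx.y0 c' hc' hL hlt n, H.ce.bot]
    · obtain ⟨W, hW1, rfl⟩ := Abs_inS' H le_rfl hS
      have h1 := H.ce.mono (hx.y1 k W ((Abs_Mem H x W).1 hM) hW1 ((Abs_Tr H W).1 hTr) t)
      rw [Abs_y1 H x W, ← e1] at h1
      exact h1
    · obtain ⟨V, hV1, rfl⟩ := Abs_inS' H hlt.le hS
      have h1 := H.ce.mono (hx.y2 c' hc' hL hlt k V ((Abs_Mem H x V).1 hM) hV1 e)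
      rw [H.ce.inf2, Abs_Lg H hlt.le, ← e2] at h1
      exact h1
  · intro hx
    refine ⟨fun c' hc' hL hlt n => ?_, fun k W hM hS hTr t => ?_,
      fun c' hc' hL hlt k V hM hS e => ?_⟩
    · rw [← H.ce.eq_bot, ← e0 c' hc' hL hlt n]
      exact hx.y0 c' hc' hL hlt n
    · rw [← H.ce.le_iff, Abs_y1 H x W, ← e1]
      exact hx.y1 k (mN i W) ((Abs_Mem H x W).2 hM) ((Abs_inS H le_rfl W).2 hS)
        ((Abs_Tr H W).2 hTr) t
    · rw [← H.ce.le_iff, H.ce.inf2, Abs_Lg H hlt.le, ← e2]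
      exact hx.y2 c' hc' hL hlt k (mN i V) ((Abs_Mem H x V).2 hM) ((Abs_inS H hlt.le V).2 hS) e

private theorem Abs_Blw (H : AbsH cd i v w G G' c) (x y : Side O Ω X) :
    Blw (datB cd v G) x y ↔ Blw (datB cd w G') (x.map i) (y.map i) := by
  constructor
  · intro h
    exact ⟨by rw [Abs_s H]; exact h.mem, h.sub, h.lt⟩
  · intro h
    exact ⟨by have := h.mem; rwa [Abs_s H] at this, h.sub, h.lt⟩

private theorem Abs_inj (H : AbsH cd i v w G G' c) {x y : Side O Ω X} (h : x.map i = y.map i) :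
    x = y := by
  obtain ⟨d, N, Z⟩ := x
  obtain ⟨d', N', Z'⟩ := y
  simp only [Side.map, Side.mk.injEq] at h
  obtain ⟨rfl, rfl, h3⟩ := h
  congr 1
  funext n
  exact H.ce.inj (congrFun h3 n)

theorem pd_iff (H : AbsH cd i v w G G' c) (h : O) (p : Cnd O Ω X) :
    PD T (datB cd v G) c h p ↔ PD T (datB cd w G') c h (p.map i) := by
  classical
  have hm : ∀ x : Side O Ω Y, x ∈ (p.map i).m ↔ ∃ z ∈ p.m, z.map i = x := by
    intro x
    simp [Cnd.map]
  constructor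
  · intro hp
    refine ⟨(Abs_mem H le_rfl _).2 hp.b, fun h0 => hp.ne (H.ce.eq_bot.1 h0), ?_, ?_, ?_, ?_⟩
    · intro x hx
      obtain ⟨z, hz, rfl⟩ := (hm x).1 hx
      exact (Abs_IsMdl H h z).1 (hp.mdl z hz)
    · intro x hx
      obtain ⟨z, hz, rfl⟩ := (hm x).1 hx
      exact (Abs_Nice H z p.b).1 (hp.nice z hz)
    · intro x hx y hy
      obtain ⟨z, hz, rfl⟩ := (hm x).1 hx
      obtain ⟨z', hz', rfl⟩ := (hm y).1 hy
      rcases hp.chain z hz z' hz' with h1 | h1 | h1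
      · exact Or.inl (by rw [h1])
      · exact Or.inr (Or.inl ((Abs_Blw H _ _).1 h1))
      · exact Or.inr (Or.inr ((Abs_Blw H _ _).1 h1))
    · intro u hu x hx h1 h2
      obtain ⟨z, hz, rfl⟩ := (hm x).1 hx
      exact H.ce.mono (hp.res u hu z hz h1 h2)
  · intro hp
    refine ⟨(Abs_mem H le_rfl _).1 hp.b, fun h0 => hp.ne (H.ce.eq_bot.2 h0), ?_, ?_, ?_, ?_⟩
    · intro x hx
      exact (Abs_IsMdl H h x).2 (hp.mdl _ ((hm _).2 ⟨x, hx, rfl⟩))
    · intro x hx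
      exact (Abs_Nice H x p.b).2 (hp.nice _ ((hm _).2 ⟨x, hx, rfl⟩))
    · intro x hx y hy
      rcases hp.chain _ ((hm _).2 ⟨x, hx, rfl⟩) _ ((hm _).2 ⟨y, hy, rfl⟩) with h1 | h1 | h1
      · exact Or.inl (Abs_inj H h1)
      · exact Or.inr (Or.inl ((Abs_Blw H _ _).2 h1))
      · exact Or.inr (Or.inr ((Abs_Blw H _ _).2 h1))
    · intro u hu x hx h1 h2
      exact H.ce.le_iff.1 (hp.res u hu _ ((hm _).2 ⟨x, hx, rfl⟩) h1 h2)

theorem pd_surj (H : AbsH cd i v w G G' c) (h : O) (p' : Cnd O Ω Y) (hp : PD T (datB cd w G') c h p') :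
    ∃ p : Cnd O Ω X, PD T (datB cd v G) c h p ∧ p.map i = p' := by
  classical
  obtain ⟨b0, -, hb0⟩ := (H.S c le_rfl _).1 hp.b
  have : Nonempty X := ⟨⊥⟩
  have hg : ∀ x ∈ p'.m, Side.map i (Side.map (Function.invFun i) x) = x := by
    intro x hx
    have h1 : ∀ n, i (Function.invFun i (x.Y n)) = x.Y n := by
      intro n
      obtain ⟨z, -, hz⟩ := (H.S c le_rfl _).1 ((hp.mdl x hx).Y n)
      exact Function.invFun_eq ⟨z, hz⟩
    obtain ⟨d, N, Z⟩ := x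
    simp only [Side.map]
    congr 1
    funext n
    exact h1 n
  have h1 : (⟨b0, p'.w, p'.m.image (Side.map (Function.invFun i))⟩ : Cnd O Ω X).map i = p' := by
    obtain ⟨b', w', m'⟩ := p'
    simp only [Cnd.map]
    congr 1
    ext x
    simp only [Finset.mem_image]
    constructor
    · rintro ⟨_, ⟨z, hz, rfl⟩, rfl⟩
      rw [hg z hz]
      exact hz
    · intro hx
      exact ⟨_, ⟨x, hx, rfl⟩, hg x hx⟩
  refine ⟨_, ?_, h1⟩
  rw [pd_iff H, h1]
  exact hp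

end Pool.Agent.BPF
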