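import Pool.Agent.Lib.MP_11349d_lc.P1.Base

/-!
# Absoluteness of the conditions under complete embeddings
-/

set_option autoImplicit false
set_option linter.unusedVariables false
set_option linter.unusedSectionVars false

namespace Pool.Agent.BPF

open Cardinal

theorem Side.map_inj {O Ω B B' : Type} {v : B → B'} (hv : Function.Injective v) :
    Function.Injective (Side.map v : Side O Ω B → Side O Ω B') := by
  rintro ⟨d, N, Y⟩ ⟨d', N', Y'⟩ h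
  simp only [Side.map, Side.mk.injEq] at h ⊢
  refine ⟨h.1, h.2.1, ?_⟩
  funext n
  exact hv (congrFun h.2.2 n)

/-- the data `D` and `D'` are related by the complete embedding `ι` up to the stage `a` -/
structure DRel {O Ω B B' : Type} [LinearOrder O] [CompleteBooleanAlgebra B] [CompleteBooleanAlgebra B']
    (ι : B → B') (D : Dat O Ω B) (D' : Dat O Ω B') (a : O) : Prop where
  ce : CEmb ι
  S : ∀ c ≤ a, D'.S c = ι '' D.S c
  U : ∀ c, Lm c → c < a → ∀ ξ n, D'.U c ξ n = ι (D.U c ξ n)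
  o : D'.o = D.o
  n : ∀ k (W : Nm Ω B k), D'.n k (fun ξ s => ι (W ξ s)) = D.n k W
  s : ∀ x : Side O Ω B, D'.s (x.map ι) = D.s x

namespace DRel

variable {O Ω B B' : Type} [LinearOrder O] [LinearOrder Ω] [OrderBot O] [OrderBot Ω]
  [CompleteBooleanAlgebra B] [CompleteBooleanAlgebra B'] (T : LTree Ω)
  {ι : B → B'} {D : Dat O Ω B} {D' : Dat O Ω B'} {a : O} (H : DRel ι D D' a)

include H

theorem mem_S {c : O} (hc : c ≤ a) {x : B} : ι x ∈ D'.S c ↔ x ∈ D.S c := by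
  rw [H.S c hc, H.ce.inj.mem_set_image]

theorem sb {k : ℕ} (V W : Nm Ω B k) :
    Sb (fun ξ s => ι (V ξ s)) (fun ξ s => ι (W ξ s)) = ι (Sb V W) := by
  simp only [Sb, H.ce.iInf, H.ce.himp]

theorem tr {k : ℕ} (W : Nm Ω B k) : Tr T (fun ξ s => ι (W ξ s)) ↔ Tr T W := by
  simp only [Tr, H.ce.le_iff]

theorem prn {k : ℕ} (W : Nm Ω B k) : Prn T (fun ξ s => ι (W ξ s)) = ι (Prn T W) := by
  simp only [Prn, H.ce.iInf, H.ce.himp, H.ce.iSup, H.ce.inf2]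

theorem cone_map {k : ℕ} (W : Nm Ω B k) (ξ : Ω) (s : Fin k → ℕ) :
    cone T (fun ξ s => ι (W ξ s)) ξ s = fun η s' => ι (cone T W ξ s η s') := by
  funext η s'
  unfold cone
  split_ifs with h
  · rfl
  · exact H.ce.bot.symm

theorem perp {c : O} (hc : c ≤ a) (C : Ω → ℕ → B) :
    Perp T D' c (fun ξ n => ι (C ξ n)) = ι (Perp T D c C) := by
  have h1 : (⨅ d, ⨅ _ : Lm d ∧ d < c, ⨆ ξ, ⨅ n, (ι (C ξ n) ⊓ D'.U d ξ n)ᶜ) =
      ⨅ d, ⨅ _ : Lm d ∧ d < c, ⨆ ξ, ⨅ n, (ι (C ξ n) ⊓ ι (D.U d ξ n))ᶜ := by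
    refine iInf_congr fun d => iInf_congr fun hd => ?_
    simp only [H.U d hd.1 (hd.2.trans_le hc)]
  simp only [Perp, h1, H.ce.iInf, H.ce.himp, H.ce.iSup, H.ce.inf2, H.ce.cmp]

theorem sbP {k : ℕ} (W : Nm Ω B k) (C : Ω → ℕ → B) :
    SbP (fun ξ s => ι (W ξ s)) (fun ξ n => ι (C ξ n)) = ι (SbP W C) := by
  simp only [SbP, H.ce.iInf, H.ce.himp]

theorem inS {c : O} (hc : c ≤ a) {k : ℕ} (W : Nm Ω B k) :
    InS D' c (fun ξ s => ι (W ξ s)) ↔ InS D c W := by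
  simp only [InS, H.mem_S hc]

theorem of_inS {c : O} (hc : c ≤ a) {k : ℕ} {W : Nm Ω B' k} (h : InS D' c W) :
    ∃ V : Nm Ω B k, InS D c V ∧ W = fun ξ s => ι (V ξ s) := by
  unfold InS at h
  rw [H.S c hc] at h
  choose V hV hV' using h
  exact ⟨V, hV, by funext ξ s; exact (hV' ξ s).symm⟩

theorem lg {c : O} (hc : c ≤ a) {k : ℕ} (W : Nm Ω B k) :
    Lg T D' c (fun ξ s => ι (W ξ s)) = ι (Lg T D c W) := by
  unfold Lg
  rw [H.ce.inf2, H.prn T]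
  congr 1
  simp only [H.ce.iSup, H.ce.inf2]
  apply le_antisymm
  · refine iSup_le fun C' => iSup_le fun hC' => ?_
    rw [H.S c hc] at hC'
    choose C hC hC'' using hC'
    have h1 : C' = fun ξ n => ι (C ξ n) := by funext ξ n; exact (hC'' ξ n).symm
    subst h1
    rw [H.perp T hc, H.sbP]
    exact le_iSup₂_of_le C hC le_rfl
  · refine iSup_le fun C => iSup_le fun hC => ?_
    rw [← H.perp T hc, ← H.sbP]
    exact le_iSup₂_of_le (fun ξ n => ι (C ξ n)) (fun ξ n => (H.mem_S hc).2 (hC ξ n)) le_rfl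

theorem mem (x : Side O Ω B) {k : ℕ} (W : Nm Ω B k) :
    Mem D' (x.map ι) (fun ξ s => ι (W ξ s)) ↔ Mem D x W := by
  unfold Mem
  rw [H.n]
  exact Iff.rfl

theorem isMdl {h : O} (x : Side O Ω B) : IsMdl T D' a h (x.map ι) ↔ IsMdl T D a h x := by
  have htop : ∀ k, (fun _ _ => ⊤ : Nm Ω B' k) = fun ξ s => ι ((fun _ _ => ⊤ : Nm Ω B k) ξ s) := by
    intro k
    funext ξ s
    exact H.ce.top.symm
  constructor
  · intro hx
    refine ⟨hx.lt, ?_, hx.pos, hx.bot, fun k => ?_, fun k W ξ s hW hWx hξ => ?_, fun n => ?_⟩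
    · intro ξ
      rw [← H.o]
      exact hx.om ξ
    · rw [← H.mem, ← htop]
      exact hx.top k
    · rw [← H.mem, ← H.cone_map T]
      exact hx.cone k _ ξ s ((H.inS le_rfl W).2 hW) ((H.mem x W).2 hWx) hξ
    · exact (H.mem_S le_rfl).1 (hx.Y n)
  · intro hx
    refine ⟨hx.lt, ?_, hx.pos, hx.bot, fun k => ?_, fun k W ξ s hW hWx hξ => ?_, fun n => ?_⟩
    · intro ξ
      rw [H.o]
      exact hx.om ξ
    · rw [htop, H.mem]
      exact hx.top k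
    · obtain ⟨V, hV, rfl⟩ := H.of_inS le_rfl hW
      rw [H.cone_map T, H.mem]
      exact hx.cone k V ξ s hV ((H.mem x V).1 hWx) hξ
    · exact (H.mem_S le_rfl).2 (hx.Y n)

theorem rhs (x : Side O Ω B) {k : ℕ} (W : Nm Ω B k) :
    (⨆ c, ⨆ _ : c ∈ Set.range (x.map ι).N ∧ ¬ Lm c ∧ c < a, ⨆ V : Nm Ω B' k,
      ⨆ _ : Mem D' (x.map ι) V ∧ InS D' c V, Lg T D' c V ⊓ Sb V (fun ξ s => ι (W ξ s))) =
    ι (⨆ c, ⨆ _ : c ∈ Set.range x.N ∧ ¬ Lm c ∧ c < a, ⨆ V : Nm Ω B k,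
      ⨆ _ : Mem D x V ∧ InS D c V, Lg T D c V ⊓ Sb V W) := by
  simp only [H.ce.iSup]
  refine iSup_congr fun c => iSup_congr fun hc => ?_
  have hc' : c ≤ a := hc.2.2.le
  apply le_antisymm
  · refine iSup_le fun V' => iSup_le fun hV' => ?_
    obtain ⟨V, hV, rfl⟩ := H.of_inS hc' hV'.2
    rw [H.lg T hc', H.sb, ← H.ce.inf2]
    exact le_iSup₂_of_le V ⟨(H.mem x V).1 hV'.1, hV⟩ le_rfl
  · refine iSup_le fun V => iSup_le fun hV => ?_
    rw [H.ce.inf2, ← H.lg T hc', ← H.sb]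
    exact le_iSup₂_of_le (fun ξ s => ι (V ξ s)) ⟨(H.mem x V).2 hV.1, (H.inS hc' V).2 hV.2⟩ le_rfl

theorem nice (x : Side O Ω B) (b : B) : Nice T D' a (x.map ι) (ι b) ↔ Nice T D a x b := by
  have hy0 : ∀ c, Lm c → c < a → ∀ n, (ι b ⊓ (x.map ι).Y n ⊓ D'.U c x.d n = ⊥ ↔
      b ⊓ x.Y n ⊓ D.U c x.d n = ⊥) := by
    intro c hc hca n
    rw [H.U c hc hca, ← H.ce.eq_bot, H.ce.inf2, H.ce.inf2]
    exact Iff.rfl
  have hlhs : ∀ (k : ℕ) (W : Nm Ω B k) (t : Fin k → ℕ),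
      ι b ⊓ (⨅ i, (x.map ι).Y (t i)) ⊓ (⨅ ξ, ⨅ _ : ξ < x.d, ι (W ξ (T.res ξ x.d t))) =
      ι (b ⊓ (⨅ i, x.Y (t i)) ⊓ (⨅ ξ, ⨅ _ : ξ < x.d, W ξ (T.res ξ x.d t))) := by
    intro k W t
    simp only [H.ce.inf2, H.ce.iInf]
    rfl
  have hy2 : ∀ c, c < a → ∀ (k : ℕ) (V : Nm Ω B k) (e : Finset ℕ),
      (ι b ⊓ Lg T D' c (fun ξ s => ι (V ξ s)) ≤
        ⨆ y : Fin k → ℕ, ⨆ _ : ∀ i, y i ∉ e, ι (V x.d y) ⊓ ⨅ i, (x.map ι).Y (y i)) ↔
      (b ⊓ Lg T D c V ≤ ⨆ y : Fin k → ℕ, ⨆ _ : ∀ i, y i ∉ e, V x.d y ⊓ ⨅ i, x.Y (y i)) := by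
    intro c hc k V e
    rw [H.lg T hc.le, ← H.ce.inf2, ← H.ce.le_iff (x := b ⊓ Lg T D c V)]
    simp only [H.ce.iSup, H.ce.inf2, H.ce.iInf]
    exact Iff.rfl
  constructor
  · intro hx
    refine ⟨fun c hc hcl hca n => ?_, fun k W hWx hW hWt t => ?_, fun c hc hcl hca k V hV hVc e => ?_⟩
    · exact (hy0 c hcl hca n).1 (hx.y0 c hc hcl hca n)
    · rw [← H.ce.le_iff, ← hlhs, ← H.rhs T]
      exact hx.y1 k _ ((H.mem x W).2 hWx) ((H.inS le_rfl W).2 hW) ((H.tr T W).2 hWt) t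
    · exact (hy2 c hca k V e).1 (hx.y2 c hc hcl hca k _ ((H.mem x V).2 hV) ((H.inS hca.le V).2 hVc) e)
  · intro hx
    refine ⟨fun c hc hcl hca n => ?_, fun k W hWx hW hWt t => ?_, fun c hc hcl hca k V hV hVc e => ?_⟩
    · exact (hy0 c hcl hca n).2 (hx.y0 c hc hcl hca n)
    · obtain ⟨V, hV, rfl⟩ := H.of_inS le_rfl hW
      have h1 := hx.y1 k V ((H.mem x V).1 hWx) hV ((H.tr T V).1 hWt) t
      rw [← H.ce.le_iff, ← hlhs, ← H.rhs T] at h1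
      exact h1
    · obtain ⟨W, hW, rfl⟩ := H.of_inS hca.le hVc
      exact (hy2 c hca k W e).2 (hx.y2 c hc hcl hca k W ((H.mem x W).1 hV) hW e)

theorem blw (x y : Side O Ω B) : Blw D' (x.map ι) (y.map ι) ↔ Blw D x y := by
  constructor
  · intro h
    refine ⟨?_, h.sub, h.lt⟩
    rw [← H.s]
    exact h.mem
  · intro h
    refine ⟨?_, h.sub, h.lt⟩
    rw [H.s]
    exact h.mem

/-- absoluteness of the set of conditions -/
theorem pd {h : O} (p : Cnd O Ω B) : PD T D' a h (p.map ι) ↔ PD T D a h p := by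
  classical
  have hm : ∀ x', x' ∈ (p.map ι).m ↔ ∃ x ∈ p.m, x.map ι = x' := fun x' => by
    simp only [Cnd.map, Finset.mem_image]
  constructor
  · intro hp
    refine ⟨(H.mem_S le_rfl).1 hp.b, fun h' => hp.ne ?_, fun x hx => ?_, fun x hx => ?_,
      fun x hx y hy => ?_, fun v hv x hx h1 h2 => ?_⟩
    · show ι p.b = ⊥
      rw [h', H.ce.bot]
    · exact (H.isMdl T x).1 (hp.mdl _ ((hm _).2 ⟨x, hx, rfl⟩))
    · exact (H.nice T x _).1 (hp.nice _ ((hm _).2 ⟨x, hx, rfl⟩))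
    · rcases hp.chain _ ((hm _).2 ⟨x, hx, rfl⟩) _ ((hm _).2 ⟨y, hy, rfl⟩) with h3 | h3 | h3
      · exact Or.inl (Side.map_inj H.ce.inj h3)
      · exact Or.inr (Or.inl ((H.blw x y).1 h3))
      · exact Or.inr (Or.inr ((H.blw y x).1 h3))
    · exact H.ce.le_iff.1 (hp.res v hv _ ((hm _).2 ⟨x, hx, rfl⟩) h1 h2)
  · intro hp
    refine ⟨(H.mem_S le_rfl).2 hp.b, fun h' => hp.ne (H.ce.eq_bot.1 h'), fun x' hx' => ?_,
      fun x' hx' => ?_, fun x' hx' y' hy' => ?_, fun v hv x' hx' h1 h2 => ?_⟩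
    · obtain ⟨x, hx, rfl⟩ := (hm x').1 hx'
      exact (H.isMdl T x).2 (hp.mdl x hx)
    · obtain ⟨x, hx, rfl⟩ := (hm x').1 hx'
      exact (H.nice T x _).2 (hp.nice x hx)
    · obtain ⟨x, hx, rfl⟩ := (hm x').1 hx'
      obtain ⟨y, hy, rfl⟩ := (hm y').1 hy'
      rcases hp.chain x hx y hy with h3 | h3 | h3
      · exact Or.inl (by rw [h3])
      · exact Or.inr (Or.inl ((H.blw x y).2 h3))
      · exact Or.inr (Or.inr ((H.blw y x).2 h3))
    · obtain ⟨x, hx, rfl⟩ := (hm x').1 hx'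
      exact H.ce.le_iff.2 (hp.res v hv x hx h1 h2)

theorem exists_of_pd {h : O} (p' : Cnd O Ω B') (hp : PD T D' a h p') : ∃ p : Cnd O Ω B, p.map ι = p' := by
  classical
  have hb := hp.b
  rw [H.S a le_rfl] at hb
  obtain ⟨b, _, hb⟩ := hb
  have h1 : ∀ x' ∈ p'.m, ∃ x : Side O Ω B, x.map ι = x' := by
    intro x' hx'
    have h2 := (hp.mdl x' hx').Y
    rw [H.S a le_rfl] at h2
    choose Y _ hY using h2
    refine ⟨⟨x'.d, x'.N, Y⟩, ?_⟩
    obtain ⟨d, N, Y'⟩ := x'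
    simp only [Side.map, Side.mk.injEq, true_and]
    funext n
    exact hY n
  choose g hg using h1
  refine ⟨⟨b, p'.w, p'.m.attach.image fun x => g x.1 x.2⟩, ?_⟩
  obtain ⟨b', w, m⟩ := p'
  simp only [Cnd.map, Cnd.mk.injEq]
  refine ⟨hb, trivial, ?_⟩
  rw [Finset.image_image]
  ext x
  simp only [Finset.mem_image, Finset.mem_attach, true_and, Function.comp_apply, Subtype.exists]
  constructor
  · rintro ⟨y, hy, rfl⟩
    rw [hg]
    exact hy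
  · intro hx
    exact ⟨x, hx, hg x hx⟩

theorem le_map (p q : Cnd O Ω B) : (p.map ι).le (q.map ι) ↔ p.le q := by
  classical
  unfold Cnd.le Cnd.map
  refine and_congr H.ce.le_iff (and_congr Iff.rfl ?_)
  exact Finset.image_subset_image_iff (Side.map_inj H.ce.inj)

theorem map_inj : Function.Injective (Cnd.map ι : Cnd O Ω B → Cnd O Ω B') := by
  classical
  rintro ⟨b, w, m⟩ ⟨b', w', m'⟩ h
  simp only [Cnd.map, Cnd.mk.injEq] at h ⊢
  exact ⟨H.ce.inj h.1, h.2.1, Finset.image_injective (Side.map_inj H.ce.inj) h.2.2⟩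

end DRel

end Pool.Agent.BPF
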