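import Pool.Agent.Lib.MP_11349d_lc.P1.RP

/-!
# Complete embeddings of complete Boolean algebras, projections
-/

set_option autoImplicit false
set_option linter.unusedVariables false
universe u v w

namespace Pool.Agent.BPF

/-- complete embeddings -/
structure CEmb {X : Type u} {Y : Type v} [CompleteBooleanAlgebra X] [CompleteBooleanAlgebra Y] (i : X → Y) :
    Prop where
  inj : Function.Injective i
  sup : ∀ E : Set X, i (sSup E) = sSup (i '' E)
  cmp : ∀ x, i xᶜ = (i x)ᶜ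

/-- the projection -/
noncomputable def pj {X : Type u} {Y : Type v} [CompleteBooleanAlgebra X] [CompleteBooleanAlgebra Y] (i : X → Y)
    (y : Y) : X := sInf {x | y ≤ i x}

namespace CEmb
variable {X : Type u} {Y : Type v} [CompleteBooleanAlgebra X] [CompleteBooleanAlgebra Y] {i : X → Y}

theorem sup2 (h : CEmb i) (x y : X) : i (x ⊔ y) = i x ⊔ i y := by
  rw [← sSup_pair, h.sup, Set.image_pair, sSup_pair]

theorem inf2 (h : CEmb i) (x y : X) : i (x ⊓ y) = i x ⊓ i y := by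
  have : x ⊓ y = (xᶜ ⊔ yᶜ)ᶜ := by simp
  rw [this, h.cmp, h.sup2, h.cmp, h.cmp]; simp

theorem le_iff (h : CEmb i) {x y : X} : i x ≤ i y ↔ x ≤ y := by
  rw [← inf_eq_left, ← h.inf2, h.inj.eq_iff, inf_eq_left]

theorem mono (h : CEmb i) : Monotone i := fun _ _ hxy => h.le_iff.2 hxy

theorem bot (h : CEmb i) : i ⊥ = ⊥ := by
  have := h.sup ∅
  simpa using this

theorem top (h : CEmb i) : i ⊤ = ⊤ := by
  have := h.cmp ⊥
  rwa [h.bot, compl_bot, compl_bot] at this

theorem inf (h : CEmb i) (E : Set X) : i (sInf E) = sInf (i '' E) := by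
  apply le_antisymm
  · refine le_sInf ?_
    rintro _ ⟨x, hx, rfl⟩
    exact h.mono (sInf_le hx)
  · have h1 : sInf E = (sSup (compl '' E))ᶜ := by
      rw [compl_sSup, ← sInf_image]
      congr 1
      rw [Set.image_image]
      simp
    rw [h1, h.cmp, h.sup, compl_sSup, ← sInf_image]
    refine le_sInf ?_
    rintro _ ⟨_, ⟨_, ⟨x, hx, rfl⟩, rfl⟩, rfl⟩
    rw [h.cmp, compl_compl]
    exact sInf_le ⟨x, hx, rfl⟩

theorem iSup (h : CEmb i) {ι : Sort*} (f : ι → X) : i (⨆ k, f k) = ⨆ k, i (f k) := by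
  rw [_root_.iSup, h.sup, _root_.iSup, ← Set.range_comp]; rfl

theorem iInf (h : CEmb i) {ι : Sort*} (f : ι → X) : i (⨅ k, f k) = ⨅ k, i (f k) := by
  rw [_root_.iInf, h.inf, _root_.iInf, ← Set.range_comp]; rfl

theorem himp (h : CEmb i) (x y : X) : i (x ⇨ y) = i x ⇨ i y := by
  rw [himp_eq, himp_eq, h.sup2, h.cmp]

theorem eq_bot (h : CEmb i) {x : X} : i x = ⊥ ↔ x = ⊥ := by rw [← h.bot, h.inj.eq_iff]

theorem id_ : CEmb (id : X → X) := ⟨Function.injective_id, fun E => by simp, fun _ => rfl⟩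

theorem comp {Z : Type w} [CompleteBooleanAlgebra Z] {j : Y → Z} (hj : CEmb j) (h : CEmb i) :
    CEmb (j ∘ i) :=
  ⟨hj.inj.comp h.inj, fun E => by simp [h.sup, hj.sup, Set.image_image],
    fun x => by simp [h.cmp, hj.cmp]⟩

/-- order isomorphisms are complete embeddings -/
theorem of_iso (e : X ≃o Y) : CEmb e :=
  ⟨e.injective, fun E => by rw [e.map_sSup, sSup_image], fun x => by
    have h1 : e x ⊓ e xᶜ = ⊥ := by rw [← e.map_inf, inf_compl_self, e.map_bot]
    have h2 : e x ⊔ e xᶜ = ⊤ := by rw [← e.map_sup, sup_compl_eq_top, e.map_top]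
    exact (IsCompl.compl_eq (IsCompl.of_eq h1 h2)).symm⟩

theorem le_pj (h : CEmb i) (y : Y) : y ≤ i (pj i y) := by
  rw [pj, h.inf]
  refine le_sInf ?_
  rintro _ ⟨x, hx, rfl⟩
  exact hx

theorem pj_le (h : CEmb i) {x : X} {y : Y} : pj i y ≤ x ↔ y ≤ i x :=
  ⟨fun hx => (h.le_pj y).trans (h.mono hx), fun hx => sInf_le hx⟩

theorem pj_i (h : CEmb i) (x : X) : pj i (i x) = x :=
  le_antisymm (h.pj_le.2 le_rfl) (h.le_iff.1 (h.le_pj _))

theorem pj_mono (h : CEmb i) {y z : Y} (hyz : y ≤ z) : pj i y ≤ pj i z :=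
  h.pj_le.2 (hyz.trans (h.le_pj z))

theorem pj_eq_bot (h : CEmb i) {y : Y} : pj i y = ⊥ ↔ y = ⊥ := by
  constructor
  · intro h1
    have := h.le_pj y
    rw [h1, h.bot] at this
    exact le_bot_iff.1 this
  · rintro rfl
    exact le_bot_iff.1 (h.pj_le.2 bot_le)

theorem inf_eq_bot (h : CEmb i) {x : X} {y : Y} : i x ⊓ y = ⊥ ↔ x ⊓ pj i y = ⊥ := by
  rw [← disjoint_iff, ← disjoint_iff, disjoint_comm, disjoint_comm (a := x), ← le_compl_iff_disjoint_right,
    ← le_compl_iff_disjoint_right, ← h.cmp, h.pj_le]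

theorem pj_inf (h : CEmb i) (x : X) (y : Y) : pj i (i x ⊓ y) = x ⊓ pj i y := by
  apply le_antisymm
  · exact h.pj_le.2 (by rw [h.inf2]; exact inf_le_inf le_rfl (h.le_pj y))
  · have h1 : y ≤ i (xᶜ ⊔ pj i (i x ⊓ y)) := by
      rw [h.sup2, h.cmp]
      calc y ≤ (i x)ᶜ ⊔ (i x ⊓ y) := by
            rw [sup_inf_left]; simp
        _ ≤ _ := sup_le_sup le_rfl (h.le_pj _)
    have h2 := h.pj_le.2 h1
    calc x ⊓ pj i y ≤ x ⊓ (xᶜ ⊔ pj i (i x ⊓ y)) := inf_le_inf le_rfl h2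
      _ ≤ _ := by rw [inf_sup_left]; simp

theorem pj_comp {Z : Type w} [CompleteBooleanAlgebra Z] {j : Y → Z} (hj : CEmb j) (h : CEmb i) (z : Z) :
    pj (j ∘ i) z = pj i (pj j z) := by
  apply le_antisymm
  · exact (hj.comp h).pj_le.2 ((hj.le_pj z).trans (hj.mono (h.le_pj _)))
  · refine h.pj_le.2 (hj.pj_le.2 ?_)
    exact (hj.comp h).le_pj z

end CEmb

/-- projections of a preorder to the nonzero elements of a complete Boolean algebra -/
structure PM {A : Type u} {X : Type v} [Preorder A] [CompleteBooleanAlgebra X] (π : A → X) : Prop where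
  mono : ∀ α β, α ≤ β → π α ≤ π β
  ne : ∀ α, π α ≠ ⊥
  lift : ∀ α x, x ≠ ⊥ → x ≤ π α → ∃ β ≤ α, π β ≤ x
  dns : ∀ x, x ≠ ⊥ → ∃ α, π α ≤ x

namespace PM
variable {A : Type u} {X : Type v} [Preorder A] [CompleteBooleanAlgebra X] {π : A → X}

theorem pos {x : X} (h : ¬ x ≤ ⊥) : x ≠ ⊥ := fun h' => h (h' ▸ le_rfl)

/-- the embedding of `X` into the regular open algebra -/
def emb (h : PM π) (x : X) : RP A where
  s := {α | π α ≤ x}
  down α β h1 h2 := (h.mono β α h1).trans h2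
  reg α h1 := by
    by_contra h2
    have h3 : π α ⊓ xᶜ ≠ ⊥ := fun h4 => h2 (by
      rw [← disjoint_iff, ← le_compl_iff_disjoint_right, compl_compl] at h4
      exact h4)
    obtain ⟨β, hβ, h4⟩ := h.lift α _ h3 inf_le_left
    obtain ⟨γ, hγ, h5⟩ := h1 β hβ
    have h6 : π γ ≤ x ⊓ xᶜ := le_inf h5 (((h.mono _ _ hγ).trans h4).trans inf_le_right)
    rw [inf_compl_self] at h6
    exact h.ne γ (le_bot_iff.1 h6)

theorem mem_emb (h : PM π) {α : A} {x : X} : α ∈ (h.emb x).s ↔ π α ≤ x := Iff.rfl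

theorem j_le_emb (h : PM π) {α : A} {x : X} : RP.j α ≤ h.emb x ↔ π α ≤ x := by
  rw [RP.j_le_iff]; exact Iff.rfl

theorem cemb (h : PM π) : CEmb h.emb := by
  have hm : ∀ {x y}, x ≤ y → h.emb x ≤ h.emb y := fun hxy α hα => le_trans hα hxy
  refine ⟨fun x y hxy => ?_, fun E => ?_, fun x => ?_⟩
  · have key : ∀ x y, h.emb x = h.emb y → x ≤ y := by
      intro x y hxy
      by_contra h1
      have h2 : x ⊓ yᶜ ≠ ⊥ := fun h4 => h1 (by
        rw [← disjoint_iff, ← le_compl_iff_disjoint_right, compl_compl] at h4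
        exact h4)
      obtain ⟨α, hα⟩ := h.dns _ h2
      have h3 : α ∈ (h.emb x).s := hα.trans inf_le_left
      rw [hxy] at h3
      have h4 : π α ≤ y ⊓ yᶜ := le_inf h3 (hα.trans inf_le_right)
      rw [inf_compl_self] at h4
      exact h.ne α (le_bot_iff.1 h4)
    exact le_antisymm (key x y hxy) (key y x hxy.symm)
  · apply le_antisymm
    · intro α hα β hβ
      have h1 : π β ≤ sSup E := (h.mono _ _ hβ).trans hα
      have h2 : ∃ x ∈ E, π β ⊓ x ≠ ⊥ := by
        by_contra h3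
        push Not at h3
        have h4 : π β ⊓ sSup E = ⊥ := by
          rw [inf_sSup_eq]
          simp only [iSup_eq_bot]
          exact h3
        rw [inf_eq_left.2 h1] at h4
        exact h.ne β h4
      obtain ⟨x, hx, h3⟩ := h2
      obtain ⟨γ, hγ, h4⟩ := h.lift β _ h3 inf_le_left
      exact ⟨γ, hγ, h.emb x, ⟨x, hx, rfl⟩, h4.trans inf_le_right⟩
    · refine sSup_le ?_
      rintro _ ⟨x, hx, rfl⟩
      exact hm (le_sSup hx)
  · apply le_antisymm
    · intro α hα β hβ h1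
      have h2 : π β ≤ x ⊓ xᶜ := le_inf h1 ((h.mono _ _ hβ).trans hα)
      rw [inf_compl_self] at h2
      exact h.ne β (le_bot_iff.1 h2)
    · intro α hα
      by_contra h1
      have h3 : π α ⊓ x ≠ ⊥ := fun h4 => h1 (by
        rw [← disjoint_iff, ← le_compl_iff_disjoint_right] at h4
        exact h4)
      obtain ⟨β, hβ, h4⟩ := h.lift α _ h3 inf_le_left
      exact hα β hβ (h4.trans inf_le_right)

theorem pj_j (h : PM π) (α : A) : pj h.emb (RP.j α) = π α := by
  apply le_antisymm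
  · exact h.cemb.pj_le.2 (h.j_le_emb.2 le_rfl)
  · have := h.cemb.le_pj (RP.j α)
    rwa [h.j_le_emb] at this

end PM

end Pool.Agent.BPF
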