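import Pool.Agent.Lib.MP_11349d_lc.Flt
import Pool.Agent.Lib.MP_11349d_lc.P1.Emb

/-!
# Part I: the state of the recursion

The algebras are realized on sets of codes: `(f a).C ⊆ O` is the carrier of `S a`, with its own structure of a
complete Boolean algebra (on the wrapper type `El C`, which does not see the order of `O`).
-/

set_option autoImplicit false

namespace Pool.Agent.BPF

open Cardinal

/-- the elements of `C` (without the order of `O`) -/
@[ext]
structure El {O : Type} (C : Set O) : Type where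
  val : O
  mem : val ∈ C

/-- inclusion -/
def inc {O : Type} {C C' : Set O} (h : C ⊆ C') (x : El C) : El C' := ⟨x.val, h x.mem⟩

theorem inc_inj {O : Type} {C C' : Set O} (h : C ⊆ C') : Function.Injective (inc h) := by
  intro x y hxy
  have : (inc h x).val = (inc h y).val := by rw [hxy]
  exact El.ext this

theorem mk_El {O : Type} (C : Set O) : #(El C) = #C :=
  Cardinal.mk_congr ⟨fun x => ⟨x.val, x.mem⟩, fun x => ⟨x.1, x.2⟩, fun _ => rfl, fun _ => rfl⟩

/-- renaming of the elements of `B` in side conditions -/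
def Side.map {O Ω B B' : Type} (v : B → B') (x : Side O Ω B) : Side O Ω B' := ⟨x.d, x.N, fun n => v (x.Y n)⟩

open Classical in
/-- renaming of the elements of `B` in conditions -/
noncomputable def Cnd.map {O Ω B B' : Type} (v : B → B') (p : Cnd O Ω B) : Cnd O Ω B' :=
  ⟨v p.b, p.w, p.m.image (Side.map v)⟩

/-- the state at a level: the carrier, the algebra; at the level `c + 1`, `c` a limit: the tree `U c` and the
embedding `j` of the conditions of the stage `c` -/
structure Stt (O Ω : Type) where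
  C : Set O
  inst : CompleteBooleanAlgebra (El C)
  U : Ω → ℕ → O
  j : Cnd O Ω O → O

attribute [instance] Stt.inst

/-- the algebra of `y` is a complete subalgebra of the algebra of `x` -/
def Cm {O Ω : Type} (y x : Stt O Ω) : Prop := ∃ h : y.C ⊆ x.C, CEmb (inc h)

/-- codes -/
structure Cds (O Ω : Type) where
  co : Ω → O
  cn : (k : ℕ) → (Ω → (Fin k → ℕ) → O) → O
  cs : Side O Ω O → O
  ct : (Ω → ℕ → O) → O
  cS : Set O → O
  cc : Cnd O Ω O → O
  co_inj : Function.Injective co
  cn_inj : ∀ k, Function.Injective (cn k)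
  cs_inj : Function.Injective cs
  ct_inj : Function.Injective ct
  cS_inj : Set.InjOn cS {E | #E < #O}
  cc_inj : Function.Injective cc

section
variable {O Ω : Type} [LinearOrder O] [WellFoundedLT O] [OrderBot O] [LinearOrder Ω] [WellFoundedLT Ω]
  [OrderBot Ω]

open Classical in
/-- the successor -/
noncomputable def nx (c : O) : O := if h : (Set.Ioi c).Nonempty then wellFounded_lt.min (Set.Ioi c) h else c

/-- the codes needed at stage `a` are below `h`, for the carrier `C` -/
structure Bd0 (cd : Cds O Ω) (a : O) (C : Set O) (h : O) : Prop where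
  lt : a < h
  o : ∀ ξ, cd.co ξ < h
  n : ∀ k (W : Ω → (Fin k → ℕ) → O), (∀ ξ s, W ξ s ∈ C) → cd.cn k W < h
  s : ∀ x : Side O Ω O, (∀ n, x.N n < h) → (∀ n, x.Y n ∈ C) → cd.cs x < h

open Classical in
/-- the bound of the codes at stage `a` -/
noncomputable def hh (cd : Cds O Ω) (a : O) (C : Set O) : O := if h : ∃ h, Bd0 cd a C h then h.choose else a

omit [LinearOrder Ω] [WellFoundedLT Ω] [OrderBot Ω] [WellFoundedLT O] in
/-- a default state (one element) -/
noncomputable def triv : Stt O Ω :=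
  ⟨{⊥}, { le := fun _ _ => True, le_refl := fun _ => trivial, le_trans := fun _ _ _ _ _ => trivial,
          le_antisymm := fun x y _ _ => El.ext (x.mem.trans y.mem.symm),
          sup := fun x _ => x, inf := fun x _ => x, le_sup_left := fun _ _ => trivial,
          le_sup_right := fun _ _ => trivial, sup_le := fun _ _ _ _ _ => trivial,
          inf_le_left := fun _ _ => trivial, inf_le_right := fun _ _ => trivial,
          le_inf := fun _ _ _ _ _ => trivial, le_sup_inf := fun _ _ _ => trivial,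
          compl := fun x => x, top := ⟨⊥, rfl⟩, bot := ⟨⊥, rfl⟩, le_top := fun _ => trivial,
          bot_le := fun _ => trivial, inf_compl_le_bot := fun _ => trivial,
          top_le_sup_compl := fun _ => trivial, sSup := fun _ => ⟨⊥, rfl⟩, sInf := fun _ => ⟨⊥, rfl⟩,
          isLUB_sSup := fun _ => ⟨fun _ _ => trivial, fun _ _ => trivial⟩,
          isGLB_sInf := fun _ => ⟨fun _ _ => trivial, fun _ _ => trivial⟩ },
    fun _ _ => ⊥, fun _ => ⊥⟩

open Classical in
/-- truncation -/
noncomputable def tr (a : O) (f : O → Stt O Ω) : O → Stt O Ω := fun b => if b < a then f b else triv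

/-- The data of the stage `c`, in any complete Boolean algebra `B` with codes `v : B → O` (injective): `G b` is the
state at the level `b`. -/
noncomputable def datB {B : Type} [CompleteBooleanAlgebra B] (cd : Cds O Ω) (v : B → O) (G : O → Stt O Ω) :
    Dat O Ω B where
  S b := {x | v x ∈ (G b).C}
  U c ξ n := by
    classical exact if h : ∃ x, v x = (G (nx c)).U ξ n then h.choose else ⊥
  o := cd.co
  n k W := cd.cn k (fun ξ s => v (W ξ s))
  s x := cd.cs (x.map v)

open Classical in
/-- the states below `c` and the state `y` at `c` -/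
noncomputable def upd (c : O) (G : O → Stt O Ω) (y : Stt O Ω) : O → Stt O Ω :=
  fun b => if b < c then G b else y

/-- the data of the stage `c` in the algebra of the state `y` -/
noncomputable def datX (cd : Cds O Ω) (c : O) (G : O → Stt O Ω) (y : Stt O Ω) : Dat O Ω (El y.C) :=
  datB cd El.val (upd c G y)

/-- the conditions at the limit stage `c` -/
def PDX (T : LTree Ω) (cd : Cds O Ω) (c : O) (G : O → Stt O Ω) (y : Stt O Ω) : Type :=
  {p : Cnd O Ω (El y.C) // PD T (datX cd c G y) c (hh cd c y.C) p}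

instance (T : LTree Ω) (cd : Cds O Ω) (c : O) (G : O → Stt O Ω) (y : Stt O Ω) :
    Preorder (PDX T cd c G y) where
  le p q := p.1.le q.1
  le_refl p := ⟨le_rfl, subset_rfl, subset_rfl⟩
  le_trans p q r h1 h2 := ⟨h1.1.trans h2.1, h2.2.1.trans h1.2.1, h2.2.2.trans h1.2.2⟩

/-- the limit step -/
structure LimX (cd : Cds O Ω) (a : O) (G : O → Stt O Ω) (x : Stt O Ω) : Prop where
  det : ∀ z : El x.C, z ≠ ⊥ → ∃ y : El x.C, y ≠ ⊥ ∧ y ≤ z ∧
    ∃ c : ℕ → O, (∀ n, c n < a) ∧ ⨅ n, pr (datX cd a G x) (c n) y ≤ y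
  thr : ∀ (c : ℕ → O) (q : ℕ → El x.C), StrictMono c → (∀ n, c n < a) → (∀ b < a, ∃ n, b ≤ c n) →
    (∀ n, (q n).val ∈ (G (c n)).C) → (∀ n, pr (datX cd a G x) (c n) (q (n + 1)) = q n) →
    pr (datX cd a G x) (c 0) (⨅ n, q n) = q 0

/-- the step from a limit stage `c` (state `y`) to its successor (state `x`) -/
def DX (T : LTree Ω) (cd : Cds O Ω) (c : O) (G : O → Stt O Ω) (y x : Stt O Ω) : Prop :=
  ∃ (h : y.C ⊆ x.C) (φ : RP (PDX T cd c G y) ≃o El x.C),
    (∀ (z : El y.C) (p : PDX T cd c G y), p ∈ (φ.symm (inc h z)).s ↔ p.1.b ≤ z) ∧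
    (∀ p : PDX T cd c G y, (φ (RP.j p)).val = x.j (p.1.map El.val)) ∧
    ∀ ξ n, x.U ξ n = (⨆ p : PDX T cd c G y, ⨆ _ : ∃ v ∈ p.1.w, v.1 = ⊥ ∧ ξ ≤ v.2.1 ∧ T.r ξ v.2.1 v.2.2 = n,
      φ (RP.j p)).val

/-- the nonzero elements -/
abbrev Ps (y : Stt O Ω) : Type := {z : El y.C // z ≠ ⊥}

/-- the instance of the forcing axiom treated at the stage `c` -/
abbrev Pat (Ω O : Type) : Type := (Finset (Ω × Ω) → O) × O

/-- the set of conditions below the `s`-th value of the pattern -/
def patS (y : Stt O Ω) (P : Pat Ω O) (hc : ∀ s, P.1 s ∈ y.C) (s : Finset (Ω × Ω)) : Set (Ps y) :=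
  {p | p.1 ≤ ⟨P.1 s, hc s⟩}

/-- the step from a nonlimit stage (state `y`) to its successor (state `x`); `P` is the instance of the forcing axiom
given by the bookkeeping -/
def QX (P : Pat Ω O) (y x : Stt O Ω) : Prop :=
  ∃ (A : Type) (_ : Preorder A) (X : PExt (Ps y) A), #A < #O ∧ X.RelProper ∧
    (∀ (hc : ∀ s, P.1 s ∈ y.C) (hb : P.2 ∈ y.C) (hne : (⟨P.2, hb⟩ : El y.C) ≠ ⊥),
      (∃ A', HasExt (Ps y) (patS y P hc) ⟨⟨P.2, hb⟩, hne⟩ A') →
      ∃ g : Ω → Ω → Set A, X.Realizes (patS y P hc) ⟨⟨P.2, hb⟩, hne⟩ g) ∧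
    ∃ (h : y.C ⊆ x.C) (φ : RP A ≃o El x.C), ∀ (z : El y.C) (α : A), α ∈ (φ.symm (inc h z)).s ↔ (X.π α).1 ≤ z

/-- everything is all right at the level `a` (state `x`), given the states `G b` for `b < a` -/
structure OkX (T : LTree Ω) (cd : Cds O Ω) (bk : O → Pat Ω O) (a : O) (G : O → Stt O Ω) (x : Stt O Ω) :
    Prop where
  small : #x.C < #O
  emb : ∀ b < a, Cm (G b) x
  base : a = ⊥ → (∀ z : El x.C, z = ⊥ ∨ z = ⊤) ∧ (⊥ : El x.C) ≠ ⊤
  lim : Lm a → LimX cd a G x
  dst : ∀ c, Sc c a → Lm c → DX T cd c (tr c G) (G c) x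
  qst : ∀ c, Sc c a → ¬ Lm c → QX (bk c) (G c) x

/-- everything is all right at the level `a` -/
def Ok (T : LTree Ω) (cd : Cds O Ω) (bk : O → Pat Ω O) (f : O → Stt O Ω) (a : O) : Prop :=
  OkX T cd bk a (tr a f) (f a)

end

end Pool.Agent.BPF
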