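import Pool.Agent.Lib.MP_11349d_lc.P1.TopF
import Pool.Agent.Lib.MP_11349d_lc.P1.Bkk

/-!
# Part I: the fields of `Flt`, first group

The data of the filtration are `datB cd t.cb f`, `hB a = hh cd a (f a).C`, `jB`.

PROOFS. `mem_S`: `x ∈ S a` says `t.cb x ∈ (f a).C`. If `x = t.E a y` then `t.cb x = y.val` (`t.cbE`), `y.mem`. Conversely let
`y' = ⟨t.cb x, _⟩ : El (f a).C`; then `t.cb (t.E a y') = t.cb x`, so `t.E a y' = x` by `t.inj`.
`fSupP`: `E` is the image under `t.E a` of a set of `El (f a).C` (`mem_S`), `(t.ce a).sup`. `fCompl`: `(t.ce a).cmp`.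
`fMono`: `(f a).C ⊆ (f c).C` from `(hf c).emb`. `fSmall`: `S a` is the range of `t.E a`; `(hf a).small`, `mk_El`.
`fTotal`: `t.sj`. `fBot`: `(hf ⊥).base rfl`, `(t.ce ⊥).bot, .top`. `fTriv`: same. `prE`: `pr_eq_pj`, and
`(datX cd a (tr a f) (f a)).S b` is the range of `inc _ : El (f b).C → El (f a).C` for `b ≤ a` (for `b = a` everything),
`t.E b = t.E a ∘ inc _`, `CEmb.pj_comp`, `(t.ce a).pj_i`.
`fDet`: `((hf a).lim ha).det` for the preimage under `t.E a`, then apply `t.E a` (`CEmb.iInf`, `prE`).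
`fThr`: let `a` be the least upper bound of the `c n` (exists: `hO.range_bdd`, well-foundedness; `exists_lub` in Kap.lean): a
limit, `c n < a`, cofinal. `q n = t.E (c n) (y n)`; apply `((hf a).lim _).thr` to `c` and `inc _ (y n) : El (f a).C`, and then
`t.E a`.
-/

set_option autoImplicit false

namespace Pool.Agent.BPF

open Cardinal

variable {O Ω : Type} [LinearOrder O] [WellFoundedLT O] [OrderBot O] [LinearOrder Ω] [WellFoundedLT Ω]
  [OrderBot Ω] {T : LTree Ω} {cd : Cds O Ω} {bk : O → Pat Ω O} {f : O → Stt O Ω} {B : Type}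
  [CompleteBooleanAlgebra B]

/-- bound of the codes -/
noncomputable def hB (cd : Cds O Ω) (f : O → Stt O Ω) (a : O) : O := hh cd a (f a).C

open Classical in
/-- the embedding of the conditions -/
noncomputable def jB (f : O → Stt O Ω) (t : Tp f B) (c : O) (p : Cnd O Ω B) : B :=
  if h : ∃ x, t.cb x = (f (nx c)).j (p.map t.cb) then h.choose else ⊥

theorem mem_S (t : Tp f B) (a : O) (x : B) : x ∈ (datB cd t.cb f).S a ↔ ∃ y, t.E a y = x := by
  show t.cb x ∈ (f a).C ↔ _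
  constructor
  · intro h
    exact ⟨⟨t.cb x, h⟩, t.inj (t.cbE a _)⟩
  · rintro ⟨y, rfl⟩
    rw [t.cbE]
    exact y.mem

theorem fSupP (t : Tp f B) (a : O) (E : Set B) (h : E ⊆ (datB cd t.cb f).S a) :
    sSup E ∈ (datB cd t.cb f).S a := by
  have h1 : t.E a '' (t.E a ⁻¹' E) = E := by
    apply Set.image_preimage_eq_of_subset
    intro x hx
    exact (mem_S t a x).1 (h hx)
  rw [mem_S]
  refine ⟨sSup (t.E a ⁻¹' E), ?_⟩
  rw [(t.ce a).sup, h1]

theorem fCompl (t : Tp f B) (a : O) (b : B) (h : b ∈ (datB cd t.cb f).S a) :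
    bᶜ ∈ (datB cd t.cb f).S a := by
  rw [mem_S] at h ⊢
  obtain ⟨y, rfl⟩ := h
  exact ⟨yᶜ, (t.ce a).cmp y⟩

private theorem cm_le' (hf : ∀ a, Ok T cd bk f a) {b c : O} (h : b ≤ c) : Cm (f b) (f c) := by
  rcases h.lt_or_eq with h | rfl
  · have h1 := (hf c).emb b h
    rwa [tr_of_lt _ h] at h1
  · exact ⟨subset_rfl, CEmb.id_⟩

theorem C_mono (hf : ∀ a, Ok T cd bk f a) {a c : O} (h : a ≤ c) : (f a).C ⊆ (f c).C := by
  exact (cm_le' hf h).1

theorem fMono (hf : ∀ a, Ok T cd bk f a) (t : Tp f B) (a c : O) (h : a ≤ c) :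
    (datB cd t.cb f).S a ⊆ (datB cd t.cb f).S c := by
  exact fun x hx => C_mono hf h hx

theorem fSmall (hf : ∀ a, Ok T cd bk f a) (t : Tp f B) (a : O) : #((datB cd t.cb f).S a) < #O := by
  refine lt_of_le_of_lt ?_ (hf a).small
  exact Cardinal.mk_le_of_injective
    (f := fun x : (datB cd t.cb f).S a => (⟨t.cb x.1, x.2⟩ : (f a).C))
    (fun x y h => Subtype.ext (t.inj (congrArg Subtype.val h)))

theorem fTotal (t : Tp f B) (b : B) : ∃ a, b ∈ (datB cd t.cb f).S a := by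
  obtain ⟨a, y, h⟩ := t.sj b
  exact ⟨a, (mem_S t a b).2 ⟨y, h⟩⟩

theorem fBot (hf : ∀ a, Ok T cd bk f a) (t : Tp f B) (b : B) (h : b ∈ (datB cd t.cb f).S ⊥) :
    b = ⊥ ∨ b = ⊤ := by
  obtain ⟨y, rfl⟩ := (mem_S t _ _).1 h
  rcases ((hf ⊥).base rfl).1 y with rfl | rfl
  · exact Or.inl (t.ce ⊥).bot
  · exact Or.inr (t.ce ⊥).top

theorem fTriv (hf : ∀ a, Ok T cd bk f a) (t : Tp f B) : (⊥ : B) ≠ ⊤ := by
  intro h
  apply ((hf ⊥).base rfl).2
  apply (t.ce ⊥).inj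
  rw [(t.ce ⊥).bot, (t.ce ⊥).top, h]

private theorem upd_eq (f : O → Stt O Ω) {b a : O} (h : b ≤ a) : upd a (tr a f) (f a) b = f b := by
  rcases h.lt_or_eq with h | rfl
  · rw [upd, if_pos h, tr_of_lt _ h]
  · rw [upd, if_neg (lt_irrefl _)]

theorem prE (hf : ∀ a, Ok T cd bk f a) (t : Tp f B) {b a : O} (h : b ≤ a) (z : El (f a).C) :
    pr (datB cd t.cb f) b (t.E a z) = t.E a (pr (datX cd a (tr a f) (f a)) b z) := by
  have hC : (f b).C ⊆ (f a).C := C_mono hf h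
  have hi : CEmb (inc hC) := (cm_le' hf h).2
  have h1 : t.E b = t.E a ∘ inc hC := by
    funext x
    exact (t.cp b a hC x h).symm
  have h2 : pr (datX cd a (tr a f) (f a)) b z = inc hC (pj (inc hC) z) := by
    refine pr_eq_pj hi (fun w => ?_) z
    show w.val ∈ (upd a (tr a f) (f a) b).C ↔ _
    rw [upd_eq f h]
    constructor
    · intro hw
      exact ⟨⟨w.val, hw⟩, rfl⟩
    · rintro ⟨v, rfl⟩
      exact v.mem
  rw [h2, pr_eq_pj (t.ce b) (mem_S t b)]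
  have h3 : pj (t.E b) (t.E a z) = pj (inc hC) z := by
    rw [h1, (t.ce a).pj_comp hi, (t.ce a).pj_i]
  rw [h3]
  exact (t.cp b a hC _ h).symm

theorem fDet (hf : ∀ a, Ok T cd bk f a) (t : Tp f B) (a : O) (ha : Lm a) (x : B)
    (hx : x ∈ (datB cd t.cb f).S a) (hx' : x ≠ ⊥) : ∃ y ∈ (datB cd t.cb f).S a, y ≠ ⊥ ∧ y ≤ x ∧
      ∃ c : ℕ → O, (∀ n, c n < a) ∧ ⨅ n, pr (datB cd t.cb f) (c n) y ≤ y := by
  obtain ⟨z, rfl⟩ := (mem_S t _ _).1 hx
  have hz : z ≠ ⊥ := by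
    rintro rfl
    exact hx' (t.ce a).bot
  obtain ⟨y, hy, hyz, c, hc, h1⟩ := ((hf a).lim ha).det z hz
  refine ⟨t.E a y, (mem_S t _ _).2 ⟨y, rfl⟩, ?_, (t.ce a).mono hyz, c, hc, ?_⟩
  · intro h
    exact hy ((t.ce a).eq_bot.1 h)
  · have h2 : ∀ n, pr (datB cd t.cb f) (c n) (t.E a y) =
        t.E a (pr (datX cd a (tr a f) (f a)) (c n) y) := fun n => prE hf t (hc n).le y
    simp_rw [h2]
    rw [← (t.ce a).iInf]
    exact (t.ce a).mono h1

theorem fThr (hO : IsKap O) (hf : ∀ a, Ok T cd bk f a) (t : Tp f B) (c : ℕ → O) (q : ℕ → B)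
    (hc : StrictMono c) (hq : ∀ n, q n ∈ (datB cd t.cb f).S (c n))
    (hp : ∀ n, pr (datB cd t.cb f) (c n) (q (n + 1)) = q n) :
    pr (datB cd t.cb f) (c 0) (⨅ n, q n) = q 0 := by
  obtain ⟨a, ha⟩ := hO.exists_lub (Set.range c) (by
    refine lt_of_le_of_lt Cardinal.mk_range_le ?_
    rw [Cardinal.mk_nat]
    exact hO.nat_lt)
  have hca : ∀ n, c n < a := fun n => (hc n.lt_succ_self).trans_le (ha.1 ⟨n + 1, rfl⟩)
  have hcof : ∀ b < a, ∃ n, b < c n := by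
    intro b hb
    by_contra h1
    push Not at h1
    exact absurd (ha.2 (by rintro _ ⟨n, rfl⟩; exact h1 n)) (not_le.2 hb)
  have hLm : Lm a := by
    refine ⟨⟨c 0, hca 0⟩, fun b hb => ?_⟩
    obtain ⟨n, hn⟩ := hcof b hb
    exact ⟨c n, hn, hca n⟩
  have hq' : ∀ n, ∃ y, t.E (c n) y = q n := fun n => (mem_S t _ _).1 (hq n)
  choose y hy using hq'
  have hC : ∀ n, (f (c n)).C ⊆ (f a).C := fun n => C_mono hf (hca n).le
  have hY : ∀ n, t.E a (inc (hC n) (y n)) = q n := fun n =>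
    (t.cp (c n) a (hC n) (y n) (hca n).le).trans (hy n)
  have h1 := ((hf a).lim hLm).thr c (fun n => inc (hC n) (y n)) hc hca
    (fun b hb => by
      obtain ⟨n, hn⟩ := hcof b hb
      exact ⟨n, hn.le⟩)
    (fun n => by
      rw [tr_of_lt _ (hca n)]
      exact (y n).mem)
    (fun n => by
      apply (t.ce a).inj
      rw [← prE hf t (hca n).le, hY, hY]
      exact hp n)
  have h2 := congrArg (t.E a) h1
  rw [← prE hf t (hca 0).le, (t.ce a).iInf] at h2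
  simp_rw [hY] at h2
  exact h2

end Pool.Agent.BPF
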