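import Pool.Agent.Lib.MP_11349d_lc.P1.Base
import Pool.Agent.Lib.MP_11349d_lc.P1.Kap

/-!
# Part I: the bound `h` of the codes at a stage

PROOF. Let `a0 < O` be a strict bound of: `a`, all `cd.co ξ` (`#Ω < #O`), all `cd.cn k W` with values of `W` in `C` (the set
of these `W`, for all `k`, has cardinality `≤ ℵ₀ * (#C)^(#Ω * ℵ₀) < #O`, by `hO.pow`) (`hO.bdd`). For `c : O` let
`F c` be a strict bound of all `cd.cs x` with `∀ n, x.N n ≤ c` and `∀ n, x.Y n ∈ C` (the set of these sides has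
cardinality at most `#Ω * #(Iic c)^ℵ₀ * #C^ℵ₀ < #O`). By `close_off` (Kap.lean) there is `h > a0` with `F c < h` for all `c < h`
and such that every `N : ℕ → O` with `N n < h` has some `d < h` with `N n ≤ d` for all `n`. If `x` is a side with
`N n < h`, choose `d`; then `cd.cs x < F d < h`.
(For the products `α, β < #O → α ^ β ≤ 2 ^ (α * β) < #O`.)
-/

set_option autoImplicit false
set_option linter.unusedSectionVars false

namespace Pool.Agent.BPF

open Cardinal

variable {O Ω : Type} [LinearOrder O] [WellFoundedLT O] [OrderBot O] [LinearOrder Ω] [WellFoundedLT Ω]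
  [OrderBot Ω]

theorem exists_Bd0 (hO : IsKap O) (hΩ : #Ω < #O) (cd : Cds O Ω) (a : O) {C : Set O} (hC : #C < #O) :
    ∃ h, Bd0 cd a C h := by
  classical
  have hw : ℵ₀ < #O := hO.nat_lt
  have hC' : ∀ ι : Type, #ι < #O → #(ι → C) < #O := by
    intro ι hι
    rw [← Cardinal.power_def]
    exact hO.pow_lt hC hι
  -- names
  have h1 : #(Σ k : ℕ, (Ω → (Fin k → ℕ) → C)) < #O := by
    refine hO.small_sigma (by rw [Cardinal.mk_nat]; exact hw) fun k => ?_
    rw [← Cardinal.power_def]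
    refine hO.pow_lt (hC' _ ?_) hΩ
    rw [← Cardinal.power_def]
    refine hO.pow_lt (by rw [Cardinal.mk_nat]; exact hw) ?_
    exact (Cardinal.lt_aleph0_of_finite _).trans hw
  obtain ⟨b1, hb1⟩ := hO.range_bdd hΩ cd.co
  obtain ⟨b2, hb2⟩ := hO.range_bdd h1 (fun W => cd.cn W.1 (fun ξ s => (W.2 ξ s).1))
  set a0 := max a (max b1 b2) with ha0
  -- sides
  have h2 : ∀ c : O, #(Ω × (ℕ → Set.Iic c) × (ℕ → C)) < #O := by
    intro c
    rw [Cardinal.mk_prod, Cardinal.mk_prod]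
    simp only [Cardinal.lift_id]
    refine hO.mul_lt hΩ (hO.mul_lt ?_ ?_)
    · rw [← Cardinal.power_def]
      exact hO.pow_lt (hO.iic c) (by rw [Cardinal.mk_nat]; exact hw)
    · exact hC' _ (by rw [Cardinal.mk_nat]; exact hw)
  choose F hF using fun c => hO.range_bdd (h2 c) (fun x => cd.cs
    (⟨x.1, fun n => (x.2.1 n).1, fun n => (x.2.2 n).1⟩ : Side O Ω O))
  obtain ⟨h, hh0, hhF, hcof⟩ := hO.close_off F a0
  have ha : a ≤ a0 := le_max_left _ _
  have hb1' : b1 ≤ a0 := (le_max_left _ _).trans (le_max_right _ _)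
  have hb2' : b2 ≤ a0 := (le_max_right _ _).trans (le_max_right _ _)
  refine ⟨h, ha.trans_lt hh0, fun ξ => (hb1 ξ).trans_le (hb1'.trans hh0.le), fun k W hW => ?_,
    fun x hN hY => ?_⟩
  · exact (hb2 ⟨k, fun ξ s => ⟨W ξ s, hW ξ s⟩⟩).trans_le (hb2'.trans hh0.le)
  · obtain ⟨d, hd, hNd⟩ := hcof x.N hN
    exact (hF d (x.d, fun n => ⟨x.N n, hNd n⟩, fun n => ⟨x.Y n, hY n⟩)).trans (hhF d hd)

theorem hh_spec (hO : IsKap O) (hΩ : #Ω < #O) (cd : Cds O Ω) (a : O) {C : Set O} (hC : #C < #O) :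
    Bd0 cd a C (hh cd a C) := by
  have h := exists_Bd0 hO hΩ cd a hC
  unfold hh
  rw [dif_pos h]
  exact h.choose_spec

end Pool.Agent.BPF
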