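import Pool.Agent.Lib.MP_11349d_lc.P1.Fa
import Pool.Agent.Lib.MP_11349d_lc.P1.Abs
import Pool.Agent.Lib.MP_11349d_lc.P1.PDm
import Pool.Agent.Lib.MP_11349d_lc.P1.Hh

/-!
# Part I: the fields of `Flt` about the limit stages

Let `c` be a limit, `G = tr c f`, `y = f c`, `x = f (nx c)`, `D = datB cd t.cb f`, `D0 = datX cd c G y = datB cd El.val (upd c G y)`,
`A = PDX T cd c G y`.

PROOFS. `dx`: `(hf (nx c)).dst c (sc_nx hO c) hc`, with `tr c (tr (nx c) f) = tr c f` (`tr_tr`) and `tr (nx c) f c = f c`.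
`absH`: `AbsH cd (t.E c) El.val t.cb (upd c (tr c f) (f c)) f c`. `ce`: `t.ce c`. `code`: `t.cbE`. `S`: for `b < c`,
`y ∈ D.S b ↔ t.cb y ∈ (f b).C`, and `upd .. b = f b`; if `t.cb y ∈ (f b).C` then `x := ⟨t.cb y, _⟩ : El (f c).C` (`C_mono`),
`t.E c x = y` by `t.inj`. For `b = c`, `upd c _ _ c = f c` and `x.val ∈ (f c).C` always. `U`: for `b < c` a limit, `nx b < c`
(`c` is a limit), so `upd .. (nx b) = f (nx b)`; its `U ξ n` is the value of an element of `El (f (nx b)).C` (last clause of `DX`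
at `b`), hence in `(f c).C`: the element `x0 = ⟨(f (nx b)).U ξ n, _⟩ : El (f c).C` is the only one with this value, and
`t.E c x0` the only element of `B` with this code; so the two `dif_pos` choices correspond.
`jB_eq`: if `p = q.1.map (t.E c)` with `q : A`, then `p.map t.cb = q.1.map El.val` (`t.cbE`; `Finset.image_image`), so by the second
clause of `DX` `t.cb (t.E (nx c) (φ (RP.j q))) = (f (nx c)).j (p.map t.cb)`, and `jB f t c p = t.E (nx c) (φ (RP.j q))` by `t.inj`.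
Every `p` with `PD T D c (hB cd f c) p` is of this form: `pd_surj`, and `PDX` is the subtype of `PD T D0 c (hh cd c y.C)`.
`f_bd`: `hh_spec` gives `Bd0`; names `W` with values in `D.S c` have codes `cd.cn k (t.cb ∘∘ W)` and `t.cb (W ξ s) ∈ (f c).C`.
`f_jmem`: `mem_S`, `sc_eq` (`a' = nx c`). `f_jmono`: `RP.j_mono`, `φ`, `t.E` monotone; `p'.le p` iff `q'.1.le q.1`
(`CEmb.le_iff`, injectivity of `Side.map (t.E c)` for the inclusion of images). `f_jcpt`: `RP.j_inf_j_ne_bot`. `f_jdns`: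
`x = t.E (nx c) z`, `φ.symm z ≠ ⊥`, `RP.exists_j_le`. `f_jpr`: `pr D c (t.E (nx c) (φ (RP.j q)))`: for `z : El (f c).C`,
`t.E (nx c) (φ (RP.j q)) ≤ t.E c z = t.E (nx c) (inc h z)` iff `RP.j q ≤ φ.symm (inc h z)` iff `q.1.b ≤ z` (`RP.j_le_iff`, first
clause of `DX`), so the infimum of these `t.E c z` is `t.E c q.1.b = p.b`.
`f_U`: third clause of `DX`, `(t.ce _).iSup`; the supremum over `q : A` and the supremum over `p` with `PD ..` agree
(`pd_iff`, `pd_surj`, `p.w = q.1.w`).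
-/

set_option autoImplicit false
set_option linter.unusedSectionVars false
set_option linter.unusedVariables false

namespace Pool.Agent.BPF

open Cardinal

variable {O Ω : Type} [LinearOrder O] [WellFoundedLT O] [OrderBot O] [LinearOrder Ω] [WellFoundedLT Ω]
  [OrderBot Ω] {T : LTree Ω} {cd : Cds O Ω} {bk : O → Pat Ω O} {f : O → Stt O Ω} {B : Type}
  [CompleteBooleanAlgebra B]

private theorem Fd_upd {c b : O} (h : b ≤ c) : upd c (tr c f) (f c) b = f b := by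
  unfold upd
  split_ifs with h1
  · exact tr_of_lt f h1
  · rw [le_antisymm h (not_lt.1 h1)]

private theorem Fd_val {C : Set O} : Function.Injective (El.val : El C → O) := fun _ _ h => El.ext h

private theorem Fd_U {Y : Type} [CompleteBooleanAlgebra Y] {v : Y → O} (hv : Function.Injective v)
    {G : O → Stt O Ω} {b : O} {ξ : Ω} {n : ℕ} {u : Y} (hu : v u = (G (nx b)).U ξ n) :
    (datB cd v G).U b ξ n = u := by
  have h : ∃ x, v x = (G (nx b)).U ξ n := ⟨u, hu⟩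
  simp only [datB]
  rw [dif_pos h]
  exact hv (h.choose_spec.trans hu.symm)

private theorem Fd_j (t : Tp f B) {c : O} {p : Cnd O Ω B} {u : B}
    (hu : t.cb u = (f (nx c)).j (p.map t.cb)) : jB f t c p = u := by
  have h : ∃ x, t.cb x = (f (nx c)).j (p.map t.cb) := ⟨u, hu⟩
  unfold jB
  rw [dif_pos h]
  exact t.inj (h.choose_spec.trans hu.symm)

private theorem Fd_map (t : Tp f B) (c : O) (p : Cnd O Ω (El (f c).C)) :
    (p.map (t.E c)).map t.cb = p.map El.val := by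
  classical
  have h : Side.map (O := O) (Ω := Ω) t.cb ∘ Side.map (t.E c) = Side.map El.val := by
    funext x
    simp only [Function.comp, Side.map, t.cbE]
  simp only [Cnd.map, t.cbE, Finset.image_image, h]

private theorem Fd_side {X Y : Type} {i : X → Y} (hi : Function.Injective i) :
    Function.Injective (Side.map (O := O) (Ω := Ω) i) := by
  intro x y h
  obtain ⟨d, N, Z⟩ := x
  obtain ⟨d', N', Z'⟩ := y
  simp only [Side.map, Side.mk.injEq] at h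
  obtain ⟨rfl, rfl, h3⟩ := h
  congr 1
  funext n
  exact hi (congrFun h3 n)

private theorem Fd_le {X Y : Type} [CompleteBooleanAlgebra X] [CompleteBooleanAlgebra Y] {i : X → Y}
    (hi : CEmb i) (p p' : Cnd O Ω X) : (p'.map i).le (p.map i) ↔ p'.le p := by
  classical
  unfold Cnd.le
  refine and_congr hi.le_iff (and_congr Iff.rfl ?_)
  simp only [Cnd.map]
  exact Finset.image_subset_image_iff (Fd_side hi.inj)

theorem dx (hO : IsKap O) (hf : ∀ a, Ok T cd bk f a) {c : O} (hc : Lm c) :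
    DX T cd c (tr c f) (f c) (f (nx c)) := by
  have h := (hf (nx c)).dst c (sc_nx hO c) hc
  rw [tr_tr f (lt_nx hO c).le, tr_of_lt f (lt_nx hO c)] at h
  exact h

theorem absH (hO : IsKap O) (hf : ∀ a, Ok T cd bk f a) (t : Tp f B) {c : O} (hc : Lm c) :
    AbsH cd (t.E c) El.val t.cb (upd c (tr c f) (f c)) f c := by
  refine ⟨t.ce c, t.cbE c, fun b hb y => ?_, fun b hb hbL ξ n => ?_⟩
  · constructor
    · intro hy
      have hy' : t.cb y ∈ (f b).C := hy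
      refine ⟨⟨t.cb y, C_mono hf hb hy'⟩, ?_, t.inj (t.cbE _ _)⟩
      show t.cb y ∈ (upd c (tr c f) (f c) b).C
      rw [Fd_upd hb]
      exact hy'
    · rintro ⟨x, hx, rfl⟩
      have hx' : x.val ∈ (upd c (tr c f) (f c) b).C := hx
      rw [Fd_upd hb] at hx'
      show t.cb (t.E c x) ∈ (f b).C
      rw [t.cbE]
      exact hx'
  · obtain ⟨h, φ, h1, h2, h3⟩ := dx hO hf hbL
    have hle : nx b ≤ c := nx_le hO hb
    have hm : (f (nx b)).U ξ n ∈ (f c).C := by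
      rw [h3]
      exact C_mono hf hle (El.mem _)
    have e1 : (datB cd El.val (upd c (tr c f) (f c))).U b ξ n =
        (⟨(f (nx b)).U ξ n, hm⟩ : El (f c).C) := by
      refine Fd_U Fd_val ?_
      rw [Fd_upd hle]
    rw [e1]
    refine Fd_U t.inj ?_
    rw [t.cbE]

theorem jB_eq (hO : IsKap O) (hf : ∀ a, Ok T cd bk f a) (t : Tp f B) {c : O} (hc : Lm c) :
    ∃ (h : (f c).C ⊆ (f (nx c)).C) (φ : RP (PDX T cd c (tr c f) (f c)) ≃o El (f (nx c)).C),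
      (∀ (z : El (f c).C) (p : PDX T cd c (tr c f) (f c)), p ∈ (φ.symm (inc h z)).s ↔ p.1.b ≤ z) ∧
      (∀ q : PDX T cd c (tr c f) (f c), jB f t c (q.1.map (t.E c)) = t.E (nx c) (φ (RP.j q))) ∧
      (∀ p, PD T (datB cd t.cb f) c (hB cd f c) p ↔ ∃ q : PDX T cd c (tr c f) (f c), q.1.map (t.E c) = p) ∧
      ∀ ξ n, (datB cd t.cb f).U c ξ n = t.E (nx c) (⨆ q : PDX T cd c (tr c f) (f c),
        ⨆ _ : ∃ v ∈ q.1.w, v.1 = ⊥ ∧ ξ ≤ v.2.1 ∧ T.r ξ v.2.1 v.2.2 = n, φ (RP.j q)) := by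
  obtain ⟨h, φ, h1, h2, h3⟩ := dx hO hf hc
  refine ⟨h, φ, h1, fun q => ?_, fun p => ?_, fun ξ n => ?_⟩
  · refine Fd_j t ?_
    rw [t.cbE, h2, Fd_map]
  · constructor
    · intro hp
      obtain ⟨q, hq, hqp⟩ := pd_surj (absH hO hf t hc) (hB cd f c) p hp
      exact ⟨⟨q, hq⟩, hqp⟩
    · rintro ⟨q, rfl⟩
      exact (pd_iff (absH hO hf t hc) (hB cd f c) q.1).1 q.2
  · refine Fd_U t.inj ?_
    rw [t.cbE, h3]

theorem f_bd (hO : IsKap O) (hΩ : #Ω < #O) (hf : ∀ a, Ok T cd bk f a) (t : Tp f B) (a : O) (ha : Lm a) :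
    Bd (datB cd t.cb f) a (hB cd f a) := by
  have h := hh_spec hO hΩ cd a (hf a).small
  refine ⟨h.lt, h.o, fun k W hW => ?_, fun x hN hY => ?_⟩
  · exact h.n k (fun ξ s => t.cb (W ξ s)) (fun ξ s => hW ξ s)
  · exact h.s (x.map t.cb) hN (fun n => hY n)

theorem f_jmem (hO : IsKap O) (hf : ∀ a, Ok T cd bk f a) (t : Tp f B) (a a' : O) (p : Cnd O Ω B)
    (ha : Lm a) (hs : Sc a a') (hp : PD T (datB cd t.cb f) a (hB cd f a) p) :
    jB f t a p ∈ (datB cd t.cb f).S a' := by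
  obtain ⟨h, φ, h1, h2, h3, h4⟩ := jB_eq hO hf t ha
  obtain ⟨q, rfl⟩ := (h3 p).1 hp
  rw [h2, sc_eq hO hs, mem_S]
  exact ⟨_, rfl⟩

theorem f_jmono (hO : IsKap O) (hf : ∀ a, Ok T cd bk f a) (t : Tp f B) (a : O) (p p' : Cnd O Ω B)
    (ha : Lm a) (hp : PD T (datB cd t.cb f) a (hB cd f a) p)
    (hp' : PD T (datB cd t.cb f) a (hB cd f a) p') (hle : p'.le p) : jB f t a p' ≤ jB f t a p := by
  obtain ⟨h, φ, h1, h2, h3, h4⟩ := jB_eq hO hf t ha
  obtain ⟨q, rfl⟩ := (h3 p).1 hp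
  obtain ⟨q', rfl⟩ := (h3 p').1 hp'
  rw [h2, h2]
  have hq : q' ≤ q := (Fd_le (t.ce a) _ _).1 hle
  exact (t.ce _).mono (φ.monotone (RP.j_mono hq))

theorem f_jcpt (hO : IsKap O) (hf : ∀ a, Ok T cd bk f a) (t : Tp f B) (a : O) (p p' : Cnd O Ω B)
    (ha : Lm a) (hp : PD T (datB cd t.cb f) a (hB cd f a) p)
    (hp' : PD T (datB cd t.cb f) a (hB cd f a) p') (h : jB f t a p ⊓ jB f t a p' ≠ ⊥) :
    ∃ p'', PD T (datB cd t.cb f) a (hB cd f a) p'' ∧ p''.le p ∧ p''.le p' := by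
  obtain ⟨hC, φ, h1, h2, h3, h4⟩ := jB_eq hO hf t ha
  obtain ⟨q, rfl⟩ := (h3 p).1 hp
  obtain ⟨q', rfl⟩ := (h3 p').1 hp'
  rw [h2, h2, ← (t.ce _).inf2, ← φ.map_inf] at h
  have h5 : RP.j q ⊓ RP.j q' ≠ ⊥ := by
    intro h6
    apply h
    rw [h6, φ.map_bot, (t.ce _).bot]
  obtain ⟨r, hr, hr'⟩ := RP.j_inf_j_ne_bot h5
  exact ⟨r.1.map (t.E a), (h3 _).2 ⟨r, rfl⟩, (Fd_le (t.ce a) _ _).2 hr, (Fd_le (t.ce a) _ _).2 hr'⟩

theorem f_jdns (hO : IsKap O) (hf : ∀ a, Ok T cd bk f a) (t : Tp f B) (a a' : O) (ha : Lm a)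
    (hs : Sc a a') (x : B) (hx : x ∈ (datB cd t.cb f).S a') (hx' : x ≠ ⊥) :
    ∃ p, PD T (datB cd t.cb f) a (hB cd f a) p ∧ jB f t a p ≤ x := by
  obtain ⟨hC, φ, h1, h2, h3, h4⟩ := jB_eq hO hf t ha
  rw [sc_eq hO hs, mem_S] at hx
  obtain ⟨z, rfl⟩ := hx
  have h5 : φ.symm z ≠ ⊥ := by
    intro h6
    apply hx'
    have h7 : z = ⊥ := by
      rw [← φ.apply_symm_apply z, h6, φ.map_bot]
    rw [h7, (t.ce _).bot]
  obtain ⟨q, hq⟩ := RP.exists_j_le h5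
  refine ⟨q.1.map (t.E a), (h3 _).2 ⟨q, rfl⟩, ?_⟩
  rw [h2]
  refine (t.ce _).mono ?_
  have h8 := φ.monotone hq
  rwa [φ.apply_symm_apply] at h8

theorem f_jpr (hO : IsKap O) (hf : ∀ a, Ok T cd bk f a) (t : Tp f B) (a : O) (p : Cnd O Ω B) (ha : Lm a)
    (hp : PD T (datB cd t.cb f) a (hB cd f a) p) : pr (datB cd t.cb f) a (jB f t a p) = p.b := by
  obtain ⟨hC, φ, h1, h2, h3, h4⟩ := jB_eq hO hf t ha
  obtain ⟨q, rfl⟩ := (h3 p).1 hp
  rw [h2]
  have key : ∀ z : El (f a).C, t.E (nx a) (φ (RP.j q)) ≤ t.E a z ↔ q.1.b ≤ z := by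
    intro z
    rw [← t.cp a (nx a) hC z (lt_nx hO a).le, (t.ce _).le_iff, ← h1 z q, ← RP.j_le_iff]
    exact (φ.le_symm_apply).symm
  show sInf {c | c ∈ (datB cd t.cb f).S a ∧ t.E (nx a) (φ (RP.j q)) ≤ c} = t.E a q.1.b
  apply le_antisymm
  · exact sInf_le ⟨(mem_S t a _).2 ⟨_, rfl⟩, (key _).2 le_rfl⟩
  · refine le_sInf ?_
    rintro c ⟨hc, hle⟩
    obtain ⟨z, rfl⟩ := (mem_S t a _).1 hc
    exact (t.ce a).mono ((key z).1 hle)

theorem f_U (hO : IsKap O) (hf : ∀ a, Ok T cd bk f a) (t : Tp f B) (a : O) (ξ : Ω) (n : ℕ) (ha : Lm a) :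
    (datB cd t.cb f).U a ξ n = ⨆ p, ⨆ _ : PD T (datB cd t.cb f) a (hB cd f a) p ∧
      ∃ v ∈ p.w, v.1 = ⊥ ∧ ξ ≤ v.2.1 ∧ T.r ξ v.2.1 v.2.2 = n, jB f t a p := by
  obtain ⟨hC, φ, h1, h2, h3, h4⟩ := jB_eq hO hf t ha
  rw [h4, (t.ce _).iSup]
  simp only [(t.ce _).iSup]
  apply le_antisymm
  · refine iSup₂_le fun q hq => ?_
    refine le_iSup₂_of_le (q.1.map (t.E a)) ⟨(h3 _).2 ⟨q, rfl⟩, hq⟩ ?_
    rw [h2]
  · refine iSup₂_le fun p hp => ?_
    obtain ⟨q, rfl⟩ := (h3 p).1 hp.1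
    rw [h2]
    exact le_iSup₂_of_le q hp.2 le_rfl

end Pool.Agent.BPF
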