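import Pool.Agent.Lib.MP_11349d_lc.Defs

/-!
# Part I: the well order of type `κ`
-/

set_option autoImplicit false

namespace Pool.Agent.BPF

open Cardinal

theorem exists_O {κ : Cardinal.{0}} (h : RProp κ) :
    ∃ (O : Type) (_ : LinearOrder O) (_ : WellFoundedLT O) (_ : OrderBot O), IsKap O ∧ #O = κ := by
  have hcard : #(κ.ord.ToType) = κ := by simp
  have hne : Nonempty κ.ord.ToType := by
    rw [← Cardinal.mk_ne_zero_iff, hcard]
    exact (Cardinal.aleph0_pos.trans_le h.reg.aleph0_le).ne'
  let iB : OrderBot κ.ord.ToType :=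
    { bot := wellFounded_lt.min Set.univ ⟨hne.some, trivial⟩
      bot_le := fun a => not_lt.1 (wellFounded_lt.not_lt_min Set.univ trivial) }
  refine ⟨κ.ord.ToType, inferInstance, inferInstance, iB, ⟨?_, ?_, ?_, ?_⟩, hcard⟩
  · intro s hs
    rw [hcard] at hs
    by_contra hcon
    push Not at hcon
    have hcof : Order.cof κ.ord.ToType ≤ #s := Order.cof_le fun b => hcon b
    rw [Ordinal.cof_toType, h.reg.cof_ord] at hcof
    exact absurd hs (not_lt.2 hcof)
  · intro b
    rw [hcard]
    exact Cardinal.mk_Iio_toType_ord_lt b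
  · intro c hc
    rw [hcard] at hc ⊢
    exact h.pow c hc
  · rw [hcard]
    exact h.om1

end Pool.Agent.BPF
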