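import Pool.Agent.Lib.MP_11349d_lc.P1.Base

/-!
# Part I: the recursion
-/

set_option autoImplicit false
set_option linter.unusedSectionVars false

namespace Pool.Agent.BPF

open Cardinal

section
variable {O Ω : Type} [LinearOrder O] [WellFoundedLT O] [OrderBot O] [LinearOrder Ω] [WellFoundedLT Ω]
  [OrderBot Ω] {T : LTree Ω} {cd : Cds O Ω} {bk : O → Pat Ω O}

theorem tr_of_lt {a b : O} (f : O → Stt O Ω) (h : b < a) : tr a f b = f b := by simp [tr, h]

theorem tr_tr {a c : O} (f : O → Stt O Ω) (h : c ≤ a) : tr c (tr a f) = tr c f := by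
  funext b
  by_cases hb : b < c
  · rw [tr_of_lt _ hb, tr_of_lt _ hb, tr_of_lt _ (hb.trans_le h)]
  · simp [tr, hb]

theorem tr_congr {a : O} {f g : O → Stt O Ω} (h : ∀ b < a, f b = g b) : tr a f = tr a g := by
  funext b
  by_cases hb : b < a
  · rw [tr_of_lt _ hb, tr_of_lt _ hb, h b hb]
  · simp [tr, hb]

theorem exists_rec (hstep : ∀ (a : O) (f : O → Stt O Ω), (∀ b < a, Ok T cd bk f b) →
    ∃ x, OkX T cd bk a (tr a f) x) : ∃ f : O → Stt O Ω, ∀ a, Ok T cd bk f a := by
  classical
  let nxt : O → (O → Stt O Ω) → Stt O Ω := fun a g =>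
    if h : ∃ x, OkX T cd bk a g x then h.choose else triv
  let f : O → Stt O Ω := (wellFounded_lt : WellFounded ((· < ·) : O → O → Prop)).fix
    (fun a ih => nxt a (fun b => if h : b < a then ih b h else triv))
  have hf : ∀ a, f a = nxt a (tr a f) := by
    intro a
    have h1 : f a = nxt a (fun b => if h : b < a then f b else triv) := by
      show WellFounded.fix _ _ a = _
      rw [WellFounded.fix_eq]
    have h2 : (fun b => if h : b < a then f b else triv) = tr a f := by
      funext b
      by_cases hb : b < a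
      · simp [tr, hb]
      · simp [tr, hb]
    rw [h1, h2]
  refine ⟨f, fun a => ?_⟩
  induction a using WellFoundedLT.induction with
  | ind a ih =>
    have h := hstep a f ih
    show OkX T cd bk a (tr a f) (f a)
    rw [hf a]
    have h3 : nxt a (tr a f) = h.choose := by simp only [nxt]; rw [dif_pos h]
    rw [h3]
    exact h.choose_spec

end

end Pool.Agent.BPF
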