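import Pool.Agent.Lib.MP_11349d_lc.P1.Rec
import Pool.Agent.Lib.MP_11349d_lc.P1.Rlz

/-!
# Part I: the first level

PROOF. `realize` with `C = ∅`, `X = Prop` (a complete Boolean algebra with two elements, `#Prop = 2 < #O`),
`E` = the empty map: `C'`, `φ : Prop ≃o El C'`. Put `x = ⟨C', inst, fun _ _ => ⊥, fun _ => ⊥⟩`. `emb` is vacuous (`not_lt_bot`),
`base` is transported by `φ` (`φ` maps `⊥, ⊤` to `⊥, ⊤` and is a bijection), `Lm ⊥` is false, `Sc c ⊥` is false.
-/

set_option autoImplicit false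

namespace Pool.Agent.BPF

open Cardinal

variable {O Ω : Type} [LinearOrder O] [WellFoundedLT O] [OrderBot O] [LinearOrder Ω] [WellFoundedLT Ω]
  [OrderBot Ω] {T : LTree Ω} {cd : Cds O Ω} {bk : O → Pat Ω O}

theorem step_bot (hO : IsKap O) (G : O → Stt O Ω) : ∃ x, OkX T cd bk (⊥ : O) G x := by
  have hO2 : (2 : Cardinal.{0}) < #O :=
    (Cardinal.natCast_lt_aleph0 (n := 2)).trans (aleph0_lt_aleph_one.trans hO.om1)
  have h0 : #(∅ : Set O) < #O := by
    rw [Cardinal.mk_eq_zero]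
    exact lt_trans (by norm_num) hO2
  have hX : #Prop < #O := by
    rw [Cardinal.mk_Prop]
    exact hO2
  obtain ⟨C', inst, h, φ, -, hC'⟩ := realize hO h0 (X := Prop) hX
    (fun x => absurd x.mem (Set.notMem_empty _)) (fun x => absurd x.mem (Set.notMem_empty _))
  refine ⟨⟨C', inst, fun _ _ => ⊥, fun _ => ⊥⟩, hC', fun b hb => absurd hb not_lt_bot,
    fun _ => ⟨fun z => ?_, ?_⟩, fun hl => ?_, fun c hc => absurd hc.1 not_lt_bot,
    fun c hc => absurd hc.1 not_lt_bot⟩
  · obtain ⟨w, rfl⟩ := φ.surjective z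
    by_cases hw : w
    · right
      have : w = ⊤ := eq_true hw
      rw [this]
      exact φ.map_top
    · left
      have : w = ⊥ := eq_false hw
      rw [this]
      exact φ.map_bot
  · intro hbt
    have h1 : φ ⊥ = φ ⊤ := by
      rw [φ.map_bot, φ.map_top]
      exact hbt
    have h2 : (⊥ : Prop) = ⊤ := φ.injective h1
    exact bot_ne_top h2
  · obtain ⟨⟨c, hc⟩, -⟩ := hl
    exact absurd hc not_lt_bot

end Pool.Agent.BPF
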