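import Pool.Agent.Lib.MP_11349d_lc.P1.Lim
import Pool.Agent.Lib.MP_11349d_lc.P1.Kap

/-!
# The direct limit, and the chain condition

`s.W`: the nonzero elements of the direct limit of the system `s`; `s.Top = RP s.W`; `s.T b : X b → s.Top`
the embeddings. If the index set is `O` and the infima of threads are dense at the limit stages, then
every element of `s.Top` is in the range of some `s.T b` (`top_total`), and `s.Top` satisfies the chain
condition (`top_cc`).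
-/

set_option autoImplicit false
set_option linter.unusedVariables false

namespace Pool.Agent.BPF

open Cardinal

namespace DSys
variable {J : Type} [LinearOrder J] {X : J → Type} [∀ b, CompleteBooleanAlgebra (X b)]
  (s : DSys J X)

/-- nonzero elements of the direct limit -/
def W (_ : DSys J X) : Type := Σ b, {x : X b // x ≠ ⊥}

/-- elements of the direct limit -/
def mkW (b : J) (x : X b) (h : x ≠ ⊥) : s.W := ⟨b, x, h⟩

variable {s} in
theorem W_inj {α β : s.W} (h : (⟨α.1, α.2.1⟩ : Σ b, X b) = ⟨β.1, β.2.1⟩) : α = β := by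
  obtain ⟨c₁, x₁, hx₁⟩ := α
  obtain ⟨c₂, x₂, hx₂⟩ := β
  simp only [Sigma.mk.injEq] at h
  obtain ⟨rfl, h⟩ := h
  rw [heq_eq_eq] at h
  subst h
  rfl

theorem i_le_i {b c d d' : J} (hb : b ≤ d) (hc : c ≤ d) (hb' : b ≤ d') (hc' : c ≤ d') (x : X b) (y : X c)
    (h : s.i hb x ≤ s.i hc y) : s.i hb' x ≤ s.i hc' y := by
  have h1 := (s.ce (le_max_left d d')).mono h
  rw [s.comp, s.comp] at h1
  rw [← (s.ce (le_max_right d d')).le_iff, s.comp, s.comp]
  exact h1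

instance : Preorder s.W where
  le α β := s.i (le_max_left α.1 β.1) α.2.1 ≤ s.i (le_max_right α.1 β.1) β.2.1
  le_refl α := le_rfl
  le_trans α β γ h1 h2 := by
    let d := max (max α.1 β.1) γ.1
    have hα : α.1 ≤ d := (le_max_left _ _).trans (le_max_left _ _)
    have hβ : β.1 ≤ d := (le_max_right _ _).trans (le_max_left _ _)
    have hγ : γ.1 ≤ d := le_max_right _ _
    exact s.i_le_i hα hγ _ _ _ _ ((s.i_le_i _ _ hα hβ _ _ h1).trans (s.i_le_i _ _ hβ hγ _ _ h2))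

theorem W_le {α β : s.W} {d : J} (hα : α.1 ≤ d) (hβ : β.1 ≤ d) :
    α ≤ β ↔ s.i hα α.2.1 ≤ s.i hβ β.2.1 :=
  ⟨fun h => s.i_le_i _ _ _ _ _ _ h, fun h => s.i_le_i _ _ _ _ _ _ h⟩

/-- the projection -/
noncomputable def ρ (b : J) (α : s.W) : X b :=
  pj (s.i (le_max_left b α.1)) (s.i (le_max_right b α.1) α.2.1)

theorem ρ_le {b d : J} {α : s.W} (hb : b ≤ d) (hα : α.1 ≤ d) (w : X b) :
    s.ρ b α ≤ w ↔ s.i hα α.2.1 ≤ s.i hb w := by
  unfold ρ
  rw [(s.ce _).pj_le]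
  exact ⟨fun h => s.i_le_i _ _ _ _ _ _ h, fun h => s.i_le_i _ _ _ _ _ _ h⟩

theorem pmW (b : J) : PM (s.ρ b) where
  mono α β h := by
    let d := max (max α.1 β.1) b
    have hα : α.1 ≤ d := (le_max_left _ _).trans (le_max_left _ _)
    have hβ : β.1 ≤ d := (le_max_right _ _).trans (le_max_left _ _)
    have hb : b ≤ d := le_max_right _ _
    rw [s.ρ_le hb hα]
    exact ((s.W_le hα hβ).1 h).trans ((s.ρ_le hb hβ _).1 le_rfl)
  ne α h := by
    unfold ρ at h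
    rw [(s.ce _).pj_eq_bot, (s.ce _).eq_bot] at h
    exact α.2.2 h
  lift α w hw hwα := by
    obtain ⟨c, x, hx⟩ := α
    have h1 : s.i (le_max_right b c) x ⊓ s.i (le_max_left b c) w ≠ ⊥ := by
      intro h
      rw [inf_comm, (s.ce _).inf_eq_bot] at h
      apply hw
      rwa [inf_eq_left.2 (show w ≤ pj (s.i (le_max_left b c)) (s.i (le_max_right b c) x) from hwα)]
        at h
    refine ⟨⟨max b c, _, h1⟩, ?_, ?_⟩
    · rw [s.W_le (d := max b c) le_rfl (le_max_right b c), s.id_]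
      exact inf_le_left
    · rw [s.ρ_le (d := max b c) (le_max_left b c) le_rfl, s.id_]
      exact inf_le_right
  dns w hw := by
    refine ⟨⟨b, w, hw⟩, ?_⟩
    rw [s.ρ_le (d := b) le_rfl le_rfl]

/-- the completion of the direct limit -/
abbrev Top : Type := RP s.W

/-- the embeddings -/
noncomputable def T (b : J) (x : X b) : s.Top := (s.pmW b).emb x

theorem T_ce (b : J) : CEmb (s.T b) := (s.pmW b).cemb

theorem mem_T {b : J} {x : X b} {α : s.W} : α ∈ (s.T b x).s ↔ s.ρ b α ≤ x := Iff.rfl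

theorem T_i {b c : J} (h : b ≤ c) (x : X b) : s.T c (s.i h x) = s.T b x := by
  apply RP.ext
  ext α
  have hα : α.1 ≤ max α.1 c := le_max_left _ _
  have hc : c ≤ max α.1 c := le_max_right _ _
  rw [s.mem_T, s.mem_T, s.ρ_le hc hα, s.ρ_le (h.trans hc) hα, s.comp]

theorem j_eq (α : s.W) : RP.j α = s.T α.1 α.2.1 := by
  apply le_antisymm
  · rw [RP.j_le_iff, s.mem_T, s.ρ_le (d := α.1) le_rfl le_rfl]
  · rw [RP.le_iff]
    intro β hβ
    rw [s.mem_T, s.ρ_le (le_max_right β.1 α.1) (le_max_left β.1 α.1)] at hβ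
    exact (RP.j α).down α β hβ (RP.self_mem_j α)

/-- the direct limit is dense -/
theorem T_dns (x : s.Top) (hx : x ≠ ⊥) : ∃ b y, y ≠ ⊥ ∧ s.T b y ≤ x := by
  obtain ⟨α, hα⟩ := RP.exists_j_le hx
  rw [s.j_eq] at hα
  exact ⟨α.1, α.2.1, α.2.2, hα⟩

theorem range_mono {b c : J} (h : b ≤ c) : Set.range (s.T b) ⊆ Set.range (s.T c) := by
  rintro _ ⟨x, rfl⟩
  exact ⟨s.i h x, s.T_i h x⟩

theorem range_sSup {b : J} {E : Set s.Top} (h : E ⊆ Set.range (s.T b)) : ∃ x, s.T b x = sSup E := by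
  refine ⟨sSup (s.T b ⁻¹' E), ?_⟩
  rw [(s.T_ce b).sup, Set.image_preimage_eq_of_subset h]

end DSys

/-- the ranges of the embeddings are dense: an element `x` below which there is nothing else -/
theorem le_of_denseP {B : Type} [CompleteBooleanAlgebra B] {x y : B}
    (h : ∀ z, z ≤ x → z ⊓ y = ⊥ → z = ⊥) : x ≤ y := by
  have h1 : x ⊓ yᶜ = ⊥ := h _ inf_le_left (by rw [inf_assoc, compl_inf_eq_bot, inf_bot_eq])
  rw [← disjoint_iff, ← le_compl_iff_disjoint_right, compl_compl] at h1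
  exact h1

namespace DSys
variable {O : Type} [LinearOrder O] [WellFoundedLT O] {X : O → Type}
  [∀ b, CompleteBooleanAlgebra (X b)] (s : DSys O X)

/-- the infima of threads are dense at the limit stages -/
def Det : Prop := ∀ b, Lm b → ∀ x : X b, x ≠ ⊥ → ∃ y : X b, y ≠ ⊥ ∧ y ≤ x ∧
  ∃ (c : ℕ → O) (hc : ∀ n, c n < b), ⨅ n, s.i (hc n).le (pj (s.i (hc n).le) y) ≤ y

variable {s}

omit [WellFoundedLT O] in
/-- limit stages of uncountable cofinality -/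
theorem Det.dir (hd : s.Det) {b : O} (hb : Lm b)
    (hcof : ∀ c : ℕ → O, (∀ n, c n < b) → ∃ d < b, ∀ n, c n ≤ d) (x : X b) (hx : x ≠ ⊥) :
    ∃ (c : O) (hc : c < b) (y : X c), y ≠ ⊥ ∧ s.i hc.le y ≤ x := by
  obtain ⟨y, hy, hyx, c, hc, h1⟩ := hd b hb x hx
  obtain ⟨d, hdb, h2⟩ := hcof c hc
  have h3 : s.i hdb.le (⨅ n, s.i (h2 n) (pj (s.i (hc n).le) y)) = y := by
    rw [(s.ce _).iInf]
    apply le_antisymm
    · refine le_trans (le_of_eq ?_) h1
      congr 1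
      funext n
      rw [s.comp]
    · refine le_iInf fun n => ?_
      rw [s.comp]
      exact (s.ce (hc n).le).le_pj y
  refine ⟨d, hdb, _, ?_, h3.le.trans hyx⟩
  intro h4
  rw [h4, (s.ce _).bot] at h3
  exact hy h3.symm

variable (s)

theorem cc_aux (hO : IsKap O) (hX : ∀ b, #(X b) < #O) (hd : s.Det) (E : Set s.Top)
    (hE : ∀ e ∈ E, ∃ b, e ∈ Set.range (s.T b)) :
    ∃ E' ⊆ E, #E' < #O ∧ sSup E' = sSup E ∧ ∃ b, E' ⊆ Set.range (s.T b) := by
  classical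
  have h1 : ∀ α : s.W, ∃ (e : s.Top) (f : O), (∃ e' ∈ E, e' ⊓ RP.j α ≠ ⊥) →
      e ∈ E ∧ e ⊓ RP.j α ≠ ⊥ ∧ e ∈ Set.range (s.T f) := by
    intro α
    by_cases h : ∃ e' ∈ E, e' ⊓ RP.j α ≠ ⊥
    · obtain ⟨e, he, he'⟩ := h
      obtain ⟨f, hf⟩ := hE e he
      exact ⟨e, f, fun _ => ⟨he, he', hf⟩⟩
    · exact ⟨⊤, α.1, fun h' => absurd h' h⟩
  choose e f hef using h1
  have h2 : ∀ c : O, ∃ d, c < d ∧ ∀ (x : X c) (hx : x ≠ ⊥), f ⟨c, x, hx⟩ < d := by
    intro c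
    obtain ⟨d, hd⟩ := hO.exists_gt c
    obtain ⟨d', hd'⟩ := hO.range_bdd ((Cardinal.mk_subtype_le (fun x : X c => x ≠ ⊥)).trans_lt (hX c))
      (fun x => f ⟨c, x.1, x.2⟩)
    exact ⟨max d d', hd.trans_le (le_max_left _ _), fun x hx =>
      (hd' ⟨x, hx⟩).trans_le (le_max_right _ _)⟩
  choose F hF hF' using h2
  have hne : Nonempty O := by
    rw [← Cardinal.mk_ne_zero_iff]
    exact (Cardinal.aleph0_pos.trans hO.nat_lt).ne'
  obtain ⟨a₀⟩ := hne
  obtain ⟨b, hb0, hbF, hcof⟩ := hO.close_off F a₀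
  have hb : Lm b := ⟨⟨a₀, hb0⟩, fun c hc => ⟨F c, hF c, hbF c hc⟩⟩
  refine ⟨{e' | ∃ α : s.W, α.1 < b ∧ (∃ e' ∈ E, e' ⊓ RP.j α ≠ ⊥) ∧ e' = e α}, ?_, ?_, ?_, b, ?_⟩
  · rintro _ ⟨α, _, h, rfl⟩
    exact (hef α h).1
  · refine lt_of_le_of_lt ?_ (hO.small_sigma (hO.iio b) (fun c : Set.Iio b => hX c.1))
    choose g hg using fun e' : {e' | ∃ α : s.W, α.1 < b ∧ (∃ e' ∈ E, e' ⊓ RP.j α ≠ ⊥) ∧ e' = e α} =>
      e'.2
    refine Cardinal.mk_le_of_injective (f := fun e' => (⟨⟨(g e').1, (hg e').1⟩, (g e').2.1⟩ :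
      Σ c : Set.Iio b, X c.1)) ?_
    intro e₁ e₂ h
    apply Subtype.ext
    rw [(hg e₁).2.2, (hg e₂).2.2]
    congr 1
    apply W_inj
    have key : ∀ u v : Σ c : Set.Iio b, X c.1, u = v →
        (⟨u.1.1, u.2⟩ : Σ b, X b) = ⟨v.1.1, v.2⟩ := by
      rintro u v rfl
      rfl
    exact key _ _ h
  swap
  · rintro _ ⟨α, hα, h, rfl⟩
    have h3 : f α < b := by
      obtain ⟨c, x, hx⟩ := α
      exact (hF' c x hx).trans (hbF c hα)
    exact s.range_mono h3.le (hef α h).2.2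
  set E' : Set s.Top := {e' | ∃ α : s.W, α.1 < b ∧ (∃ e' ∈ E, e' ⊓ RP.j α ≠ ⊥) ∧ e' = e α} with hE'
  have hsub : E' ⊆ E := by
    rintro _ ⟨α, _, h, rfl⟩
    exact (hef α h).1
  have hran : E' ⊆ Set.range (s.T b) := by
    rintro _ ⟨α, hα, h, rfl⟩
    have h3 : f α < b := by
      obtain ⟨c, x, hx⟩ := α
      exact (hF' c x hx).trans (hbF c hα)
    exact s.range_mono h3.le (hef α h).2.2
  apply le_antisymm
  · exact sSup_le_sSup hsub
  refine sSup_le fun e₀ he₀ => ?_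
  obtain ⟨x, hx⟩ := s.range_sSup hran
  by_contra hcon
  have hr : e₀ ⊓ (sSup E')ᶜ ≠ ⊥ := by
    intro h
    apply hcon
    rw [← disjoint_iff, ← le_compl_iff_disjoint_right, compl_compl] at h
    exact h
  set r := e₀ ⊓ (sSup E')ᶜ with hrdef
  have ht : pj (s.T b) r ≠ ⊥ := fun h => hr ((s.T_ce b).pj_eq_bot.1 h)
  obtain ⟨c, hc, y, hy, hyt⟩ := hd.dir hb hcof _ ht
  have h4 : RP.j (s.mkW c y hy) = s.T b (s.i hc.le y) := by
    rw [s.j_eq, s.T_i]
    rfl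
  have h5 : r ⊓ RP.j (s.mkW c y hy) ≠ ⊥ := by
    rw [h4, inf_comm]
    intro h
    rw [(s.T_ce b).inf_eq_bot, inf_eq_left.2 hyt, (s.ce _).eq_bot] at h
    exact hy h
  have h6 : ∃ e' ∈ E, e' ⊓ RP.j (s.mkW c y hy) ≠ ⊥ := by
    refine ⟨e₀, he₀, fun h => h5 (le_bot_iff.1 ?_)⟩
    rw [← h]
    exact inf_le_inf_right _ inf_le_left
  have h7 := hef _ h6
  have h8 : e (s.mkW c y hy) ∈ E' := ⟨_, hc, h6, rfl⟩
  have h9 : RP.j (s.mkW c y hy) ≤ (sSup E')ᶜ := by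
    rw [h4]
    refine ((s.T_ce b).mono hyt).trans ?_
    have h10 : pj (s.T b) r ≤ xᶜ := by
      rw [(s.T_ce b).pj_le, (s.T_ce b).cmp, hx]
      exact inf_le_right
    refine ((s.T_ce b).mono h10).trans ?_
    rw [(s.T_ce b).cmp, hx]
  apply h7.2.1
  rw [← le_bot_iff, ← inf_compl_self (sSup E')]
  exact inf_le_inf (le_sSup h8) h9

theorem top_total (hO : IsKap O) (hX : ∀ b, #(X b) < #O) (hd : s.Det) (r : s.Top) :
    ∃ b x, s.T b x = r := by
  obtain ⟨E', h1, h2, h3, b, h4⟩ := s.cc_aux hO hX hd {e | e ≤ r ∧ ∃ b, e ∈ Set.range (s.T b)}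
    (fun e he => he.2)
  obtain ⟨x, hx⟩ := s.range_sSup h4
  refine ⟨b, x, ?_⟩
  rw [hx, h3]
  apply le_antisymm
  · exact sSup_le fun e he => he.1
  · refine le_of_denseP fun z hz hz' => ?_
    by_contra hne
    obtain ⟨b, y, hy, hyz⟩ := s.T_dns z hne
    have h5 : s.T b y ≤ sSup {e | e ≤ r ∧ ∃ b, e ∈ Set.range (s.T b)} :=
      le_sSup ⟨hyz.trans hz, b, y, rfl⟩
    have h6 : s.T b y ≤ ⊥ := hz' ▸ le_inf hyz h5
    exact hy ((s.T_ce b).eq_bot.1 (le_bot_iff.1 h6))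

theorem top_cc (hO : IsKap O) (hX : ∀ b, #(X b) < #O) (hd : s.Det) (E : Set s.Top) :
    ∃ E' ⊆ E, #E' < #O ∧ sSup E' = sSup E := by
  obtain ⟨E', h1, h2, h3, _⟩ := s.cc_aux hO hX hd E (fun e _ => by
    obtain ⟨b, x, hx⟩ := s.top_total hO hX hd e
    exact ⟨b, x, hx⟩)
  exact ⟨E', h1, h2, h3⟩

theorem top_card (hO : IsKap O) (hX : ∀ b, #(X b) < #O) (hd : s.Det) : #s.Top ≤ #O := by
  have h1 : #s.Top ≤ #(Σ b, X b) := by
    refine Cardinal.mk_le_of_surjective (f := fun z : Σ b, X b => s.T z.1 z.2) fun r => ?_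
    obtain ⟨b, x, hx⟩ := s.top_total hO hX hd r
    exact ⟨⟨b, x⟩, hx⟩
  refine h1.trans ?_
  rw [Cardinal.mk_sigma]
  calc Cardinal.sum (fun b : O => #(X b)) ≤ Cardinal.sum (fun _ : O => #O) :=
        Cardinal.sum_le_sum _ _ fun b => (hX b).le
    _ = #O * #O := by rw [Cardinal.sum_const, Cardinal.lift_id]
    _ = #O := Cardinal.mul_eq_self hO.aleph0_le

end DSys

end Pool.Agent.BPF
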