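import Pool.Agent.Lib.MP_11349d_lc.P1.Rec
import Pool.Agent.Lib.MP_11349d_lc.P1.Suc
import Pool.Agent.Lib.MP_11349d_lc.P1.Top
import Pool.Agent.Lib.MP_11349d_lc.P1.Kap
import Pool.Agent.Lib.MP_11349d_lc.P1.PrE

/-!
# Part I: the top algebra of the recursion

PROOF of `exists_topP`. `Cm (f b) (f c)` for `b < c` by `(hf c).emb b` (`tr_of_lt`). `X b = El (f b).C` with the inclusions is a
directed system `s : DSys O X` (for `b = c` the inclusion is the identity). `s.Det`: for a limit `b` use `((hf b).lim _).det`: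
it gives `y` and `c n < b` with `⨅ n, pr (datX cd b (tr b f) (f b)) (c n) y ≤ y`, and
`pr .. (c n) y = inc _ (pj (inc _) y)` by `pr_eq_pj` (`(datX ..).S (c n) = {w | w.val ∈ (f (c n)).C}` is the range of
`inc _ : El (f (c n)).C → El (f b).C`). `B = s.Top`, `E b = s.T b`; `ce`: `s.T_ce`; `cp`: `s.T_i`; `sj`: `s.top_total`
(`#(X b) < #O` by `(hf b).small`, `mk_El`); `cc`: `s.top_cc`. `cb x = y.val` for chosen `a, y` with `E a y = x`; if `E a y = E b z`,
`a ≤ b` say, then `E b (inc _ y) = E b z`, so `inc _ y = z` and `y.val = z.val`: this gives `cbE` and injectivity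
(if `cb x = cb x'`, `x = E a y`, `x' = E b z`, `y.val = z.val`, `a ≤ b`, then `inc _ y = z`, `x = x'`).
-/

set_option autoImplicit false

namespace Pool.Agent.BPF

open Cardinal

variable {O Ω : Type} [LinearOrder O] [WellFoundedLT O] [OrderBot O] [LinearOrder Ω] [WellFoundedLT Ω]
  [OrderBot Ω] {T : LTree Ω} {cd : Cds O Ω} {bk : O → Pat Ω O}

/-- the top algebra -/
structure Tp (f : O → Stt O Ω) (B : Type) [CompleteBooleanAlgebra B] where
  E : ∀ a, El (f a).C → B
  cb : B → O
  ce : ∀ a, CEmb (E a)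
  cp : ∀ a b (h : (f a).C ⊆ (f b).C) (x), a ≤ b → E b (inc h x) = E a x
  sj : ∀ x : B, ∃ a y, E a y = x
  cbE : ∀ a y, cb (E a y) = y.val
  inj : Function.Injective cb
  cc : ∀ E' : Set B, ∃ E'' ⊆ E', #E'' < #O ∧ sSup E'' = sSup E'

private theorem cm_le {f : O → Stt O Ω} (hf : ∀ a, Ok T cd bk f a) {b c : O} (h : b ≤ c) :
    Cm (f b) (f c) := by
  rcases h.lt_or_eq with h | rfl
  · have h1 := (hf c).emb b h
    rwa [tr_of_lt _ h] at h1
  · exact ⟨subset_rfl, CEmb.id_⟩

private def sys {f : O → Stt O Ω} (hf : ∀ a, Ok T cd bk f a) : DSys O (fun b => El (f b).C) where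
  i h := inc (cm_le hf h).1
  ce h := (cm_le hf h).2
  id_ _ _ := rfl
  comp _ _ _ := rfl

private theorem sys_det {f : O → Stt O Ω} (hf : ∀ a, Ok T cd bk f a) : (sys hf).Det := by
  intro b hb x hx
  obtain ⟨y, hy, hyx, c, hc, h1⟩ := ((hf b).lim hb).det x hx
  refine ⟨y, hy, hyx, c, hc, le_trans (le_of_eq ?_) h1⟩
  congr 1
  funext n
  refine (pr_eq_pj (i := inc (cm_le hf (hc n).le).1) (cm_le hf (hc n).le).2 ?_ y).symm
  intro x
  have h2 : upd b (tr b f) (f b) (c n) = f (c n) := by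
    rw [← tr_of_lt f (hc n)]
    simp [upd, hc n]
  show x.val ∈ (upd b (tr b f) (f b) (c n)).C ↔ _
  rw [h2]
  constructor
  · intro h
    exact ⟨⟨x.val, h⟩, rfl⟩
  · rintro ⟨y, rfl⟩
    exact y.mem

theorem exists_topP (hO : IsKap O) {f : O → Stt O Ω} (hf : ∀ a, Ok T cd bk f a) :
    ∃ (B : Type) (_ : CompleteBooleanAlgebra B), Nonempty (Tp f B) := by
  have hX : ∀ b, #(El (f b).C) < #O := by
    intro b
    rw [mk_El]
    exact (hf b).small
  have hd := sys_det hf
  have tot := (sys hf).top_total hO hX hd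
  choose α y hy using tot
  have key : ∀ a b (y : El (f a).C) (z : El (f b).C), (sys hf).T a y = (sys hf).T b z ↔ y.val = z.val := by
    have aux : ∀ a b (_ : a ≤ b) (y : El (f a).C) (z : El (f b).C),
        (sys hf).T a y = (sys hf).T b z ↔ y.val = z.val := by
      intro a b h y z
      rw [← (sys hf).T_i h y, ((sys hf).T_ce b).inj.eq_iff]
      constructor
      · rintro rfl
        rfl
      · intro h1
        exact El.ext h1
    intro a b y z
    rcases le_total a b with h | h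
    · exact aux a b h y z
    · rw [eq_comm, aux b a h z y, eq_comm]
  refine ⟨(sys hf).Top, inferInstance, ⟨{
    E := (sys hf).T
    cb := fun x => (y x).val
    ce := (sys hf).T_ce
    cp := fun a b h x hab => (sys hf).T_i hab x
    sj := fun x => ⟨α x, y x, hy x⟩
    cbE := fun a z => ((key _ _ _ _).1 (hy ((sys hf).T a z)))
    inj := ?_
    cc := (sys hf).top_cc hO hX hd }⟩⟩
  intro x x' h
  rw [← hy x, ← hy x']
  exact (key _ _ _ _).2 h

end Pool.Agent.BPF
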